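import Pool.Agent.Lib.MP_e14b75_gt.Spec

/-! # MP_e14b75_gt: the spaces of cocycles and of harmonic chains are closed (helper94) -/

set_option autoImplicit false

noncomputable section

namespace Pool.Agent.Lib.MPe14b75

namespace CLSaux

variable {X : Type} [PartialOrder X]

theorem cont_eval {S : Type} (s : S) : Continuous (fun a : l2 S => a s) :=
  (continuous_apply s).comp (lp.uniformContinuous_coe (p := 2)).continuous

theorem cont_cob {n : ℕ} (σ : Ch X (n + 1)) :
    Continuous (fun a : l2 (Ch X n) => cob (fun τ => a τ) σ) := by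
  unfold cob
  exact continuous_finset_sum _ fun i _ => continuous_const.mul (cont_eval _)

theorem cont_bdy [LocFin X] {n : ℕ} (τ : Ch X n) :
    Continuous (fun a : l2 (Ch X (n + 1)) => bdy (fun σ => a σ) τ) := by
  have hfin := fiber_finite τ
  haveI := Fintype.ofFinite {p : Fin (n + 2) × Ch X (n + 1) // face p.1 p.2 = τ}
  unfold bdy
  simp only [tsum_fintype]
  exact continuous_finset_sum _ fun i _ => continuous_const.mul (cont_eval _)

theorem cocy_closed (m : ℕ) (Y Z : Set X) : IsClosed (Cocy m Y Z : Set (l2 (Ch X (m + 1)))) := by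
  have h : (Cocy m Y Z : Set (l2 (Ch X (m + 1)))) =
      (⋂ (σ : Ch X (m + 1)) (_ : ¬ Rel Y Z σ), {a : l2 (Ch X (m + 1)) | a σ = 0}) ∩
        ⋂ (σ : Ch X (m + 2)) (_ : InS Y σ), {a : l2 (Ch X (m + 1)) | cob (fun τ => a τ) σ = 0} := by
    ext a
    simp only [Set.mem_inter_iff, Set.mem_iInter, Set.mem_setOf_eq]
    exact Iff.rfl
  rw [h]
  refine IsClosed.inter ?_ ?_
  · exact isClosed_iInter fun σ => isClosed_iInter fun _ =>
      isClosed_eq (cont_eval σ) continuous_const
  · exact isClosed_iInter fun σ => isClosed_iInter fun _ =>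
      isClosed_eq (cont_cob σ) continuous_const

end CLSaux

open CLSaux in
/-- Module CLS. -/
theorem specCLS : SpecCLS := by
  intro X _ _ m Y Z
  refine ⟨cocy_closed m Y Z, ?_⟩
  have h : (Harm m Y Z : Set (l2 (Ch X (m + 1)))) = (Cocy m Y Z : Set (l2 (Ch X (m + 1)))) ∩
      ⋂ (τ : Ch X m) (_ : Rel Y Z τ), {a : l2 (Ch X (m + 1)) | bdy (fun σ => a σ) τ = 0} := by
    ext a
    simp only [Set.mem_inter_iff, Set.mem_iInter, Set.mem_setOf_eq]
    exact Iff.rfl
  rw [h]
  refine (cocy_closed m Y Z).inter ?_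
  exact isClosed_iInter fun τ => isClosed_iInter fun _ =>
    isClosed_eq (cont_bdy τ) continuous_const

end Pool.Agent.Lib.MPe14b75
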