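import Pool.Agent.Lib.MP_e14b75_gt.Spec

set_option autoImplicit false

noncomputable section

namespace Pool.Agent.Lib.MPe14b75

namespace CNTM

variable {X : Type} [PartialOrder X]

theorem mem_of {n : ℕ} (σ : Ch X n) (x : X) (i : Fin (n + 1)) (hi : σ.1 i = x) (j : Fin (n + 1)) :
    x ≤ σ.1 j ∨ σ.1 j ≤ x := by
  rw [← hi]
  rcases le_total i j with h | h
  · exact Or.inl (σ.2.monotone h)
  · exact Or.inr (σ.2.monotone h)

theorem star_finite [LocFin X] (n : ℕ) (x : X) : {σ : Ch X n | ∃ i, σ.1 i = x}.Finite := by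
  have h1 : {y : X | x ≤ y ∨ y ≤ x}.Finite := LocFin.loc x
  have h2 : (Set.pi Set.univ fun _ : Fin (n + 1) => {y : X | x ≤ y ∨ y ≤ x}).Finite :=
    Set.Finite.pi fun _ => h1
  have h3 : Function.Injective fun σ : Ch X n => σ.1 := Subtype.val_injective
  refine (h2.preimage h3.injOn).subset ?_
  rintro σ ⟨i, hi⟩
  intro j _
  exact mem_of σ x i hi j

theorem bound {G : Type} [Group G] [MulAction G X] [OrdAct G X] [LocFin X] (hG : Geom G X)
    (n : ℕ) : ∃ N : ℕ, ∀ (x : X) (s : Finset (Ch X n)), (∀ σ ∈ s, ∃ i, σ.1 i = x) → s.card ≤ N := by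
  classical
  obtain ⟨S, hS, horb⟩ := hG.orb
  refine ⟨hS.toFinset.sup fun x => (star_finite n x).toFinset.card, ?_⟩
  intro x s hs
  obtain ⟨g, y, hy, hgy⟩ := horb x
  have h1 : (s.image fun σ => g⁻¹ • σ).card = s.card :=
    Finset.card_image_of_injective _ (MulAction.injective g⁻¹)
  have h2 : (s.image fun σ => g⁻¹ • σ) ⊆ (star_finite n y).toFinset := by
    intro τ hτ
    rw [Finset.mem_image] at hτ
    obtain ⟨σ, hσ, rfl⟩ := hτ
    rw [Set.Finite.mem_toFinset]
    obtain ⟨i, hi⟩ := hs σ hσ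
    refine ⟨i, ?_⟩
    show g⁻¹ • σ.1 i = y
    rw [hi, ← hgy, inv_smul_smul]
  have h3 : (star_finite n y).toFinset.card ≤
      hS.toFinset.sup fun x => (star_finite n x).toFinset.card :=
    Finset.le_sup (f := fun x => (star_finite n x).toFinset.card) (hS.mem_toFinset.2 hy)
  rw [← h1]
  exact (Finset.card_le_card h2).trans h3

end CNTM

theorem specCNT : SpecCNT := by
  classical
  intro G X _ _ _ _ _ hG n
  obtain ⟨N, hN⟩ := CNTM.bound hG n
  obtain ⟨N', hN'⟩ := CNTM.bound hG (n + 1)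
  refine ⟨(n + 2) * N' + N, ?_, ?_, ?_⟩
  · intro τ s hs
    have h1 : s ⊆ (Finset.univ : Finset (Fin (n + 2))) ×ˢ (s.image Prod.snd) := by
      intro p hp
      exact Finset.mem_product.2 ⟨Finset.mem_univ _, Finset.mem_image_of_mem _ hp⟩
    have h2 : (s.image Prod.snd).card ≤ N' := by
      refine hN' (τ.1 0) _ ?_
      intro σ hσ
      rw [Finset.mem_image] at hσ
      obtain ⟨p, hp, rfl⟩ := hσ
      exact ⟨p.1.succAbove 0, congrFun (congrArg Subtype.val (hs p hp)) 0⟩
    have h3 := Finset.card_le_card h1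
    rw [Finset.card_product, Finset.card_univ, Fintype.card_fin] at h3
    calc s.card ≤ (n + 2) * (s.image Prod.snd).card := h3
      _ ≤ (n + 2) * N' := Nat.mul_le_mul_left _ h2
      _ ≤ (n + 2) * N' + N := Nat.le_add_right _ _
  · intro p h τ s hs
    refine (hN (τ.1 0) s ?_).trans (Nat.le_add_left _ _)
    intro ρ hρ
    exact ⟨_, congrFun (congrArg Subtype.val (hs ρ hρ)) 0⟩
  · intro q h τ s hs
    refine (hN (τ.1 0) s ?_).trans (Nat.le_add_left _ _)
    intro ρ hρ
    exact ⟨_, congrFun (congrArg Subtype.val (hs ρ hρ)) 0⟩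

end Pool.Agent.Lib.MPe14b75
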