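import Pool.Agent.Lib.MP_e14b75_gt.Defs

/-!
# `L²`-homology of tidy pairs (MP_e14b75_gt): the definitions of the final statement

Let `(M, F)` be a tidy pair, `dim M = 2 k + 1`, `k = m + 1 ≥ 1`, with a `G`-equivariant cell structure.
`X` is the set of the cells of `M`, ordered by inclusion of their closures; the simplices of the
barycentric subdivision are the chains `x_0 < ⋯ < x_n` of `X`. The subcomplexes `F` and `∂M` are given
by the invariant sets `P.Y` and `P.Z`, the components of `F` by the function `P.comp`. The components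
are contractible manifolds of dimension `2 k`, so they are oriented: `P.z` is the fundamental cycle of
`(F, ∂F)`. Since `M` is contractible, every component `F_j` of `F` separates its component of `M`, and
`P.c j` is the fundamental chain of one of the two sides, whose boundary is `F_j` (up to simplices
of `∂M`). These data, with these properties, are a `Tidy G X m` (file `Defs`).

For an invariant set `Z'` of cells (usually `Z' = P.Z`, or `Z' = ∅`), `LF P Z' = L²H_k(F, F ∩ Z')` and
`LM m Z' = L²H_k(M, Z')` are the spaces of harmonic square summable chains, `iStar m Z'` (the orthogonal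
projection onto `LM m Z'`) is the map `i_*` on `LF P Z'`, and its adjoint `rest P Z'` (the orthogonal
projection onto `LF P Z'`) is the restriction of harmonic cochains. `cup P` is the cup product form,
and `vdim G W` is the von Neumann dimension of the closed span of `W`.
-/

set_option autoImplicit false

noncomputable section

namespace Pool.Agent.Lib.MPe14b75

/-- The Hilbert space of the square summable functions on `S`. -/
def L2 (S : Type) : Type := lp (fun _ : S => ℝ) 2

instance L2.normed (S : Type) : NormedAddCommGroup (L2 S) :=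
  @lp.normedAddCommGroup S (fun _ => ℝ) 2 _ _

instance L2.innerProduct (S : Type) : InnerProductSpace ℝ (L2 S) :=
  @lp.instInnerProductSpace S ℝ _ (fun _ => ℝ) _ _

instance L2.complete (S : Type) : CompleteSpace (L2 S) :=
  (inferInstance : CompleteSpace (lp (fun _ : S => ℝ) 2))

/-- The value `a(s)`. -/
def L2.val {S : Type} (a : L2 S) : S → ℝ := Subtype.val (show lp (fun _ : S => ℝ) 2 from a)

open Classical in
/-- The basis vector `e_s`. -/
def basis {S : Type} (s : S) : L2 S := (lp.single 2 s (1 : ℝ) : lp (fun _ : S => ℝ) 2)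

/-- The orthogonal projection of `a` onto the closed span of `W`. -/
def proj {S : Type} (W : Set (L2 S)) (a : L2 S) : L2 S :=
  (Submodule.span ℝ W).topologicalClosure.starProjection a

/-- The von Neumann dimension of the closed span of the `G`-invariant set `W`: the sum of
`‖p e_s‖² / |G_s|` over representatives `s` of the orbits, `p` the orthogonal projection onto the
closed span of `W`. -/
def vdim (G : Type) {S : Type} [Group G] [MulAction G S] (W : Set (L2 S)) : ℝ :=
  ∑ᶠ q : MulAction.orbitRel.Quotient G S,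
    ‖proj W (basis q.out)‖ ^ 2 / Nat.card (MulAction.stabilizer G q.out)

/-- `W` is invariant. -/
def Invariant (G : Type) {S : Type} [Group G] [MulAction G S] (W : Set (L2 S)) : Prop :=
  ∀ (g : G), ∀ a ∈ W, ∀ b : L2 S, (∀ s, b.val (g • s) = a.val s) → b ∈ W

section

variable {G X : Type} [Group G] [PartialOrder X] [MulAction G X] [OrdAct G X] {m : ℕ}

/-- The harmonic square summable chains of degree `m + 1` of the pair `(Y, Y ∩ Z)`, that is,
`L²H_(m+1)(Y, Y ∩ Z)`: supported on the simplices of `Y` which are not in `Z`, with coboundary `0` on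
`Y` and boundary `0` outside of `Z`. -/
def HarmSet (m : ℕ) (Y Z : Set X) : Set (L2 (Ch X (m + 1))) :=
  {a | (∀ σ, ¬ Rel Y Z σ → a.val σ = 0) ∧ (∀ σ, InS Y σ → cob a.val σ = 0) ∧
    ∀ τ, Rel Y Z τ → bdy a.val τ = 0}

/-- `L²H_k(F, F ∩ Z')`, `k = m + 1` -/
def LF (P : Tidy G X m) (Z' : Set X) : Set (L2 (Ch X (m + 1))) := HarmSet m P.Y Z'

/-- `L²H_k(M, Z')`, `k = m + 1` -/
def LM (m : ℕ) (Z' : Set X) : Set (L2 (Ch X (m + 1))) := HarmSet m Set.univ Z'

/-- The map `i_*` (on `LF P Z'`). -/
def iStar (m : ℕ) (Z' : Set X) (a : L2 (Ch X (m + 1))) : L2 (Ch X (m + 1)) := proj (LM m Z') a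

/-- The restriction of harmonic cochains, adjoint of `i_*` (on `LM m Z'`). -/
def rest (P : Tidy G X m) (Z' : Set X) (a : L2 (Ch X (m + 1))) : L2 (Ch X (m + 1)) :=
  proj (LF P Z') a

/-- The von Neumann rank of `i_* : L²H_k(F, F ∩ Z') → L²H_k(M, Z')`: the dimension of the closure
of the image. -/
def rank (P : Tidy G X m) (Z' : Set X) : ℝ := vdim G (iStar m Z' '' LF P Z')

/-- The cup product form: `∑ z(ρ) a(front face of ρ) b(back face of ρ)`. -/
def cup (P : Tidy G X m) (a b : L2 (Ch X (m + 1))) : ℝ :=
  ∑' ρ : Ch X (2 * m + 2),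
    P.z ρ * (a.val (fr (m + 1) (by omega) ρ) * b.val (bk (m + 1) (by omega) ρ))

/-- The images of `L²H_k(M, ∂)` in `L²H_k(F, ∂)` and of `L²H_k(M, Z')` in `L²H_k(F, F ∩ Z')` are
orthogonal for the cup product form. -/
def ImagesOrthogonal (P : Tidy G X m) (Z' : Set X) : Prop :=
  ∀ h ∈ LM m P.Z, ∀ h' ∈ LM m Z', cup P (rest P P.Z h) (rest P Z' h') = 0

/-- `R` is a closed invariant subspace. -/
def ClosedInv (G : Type) {S : Type} [Group G] [MulAction G S] (R : Set (L2 S)) : Prop :=
  IsClosed R ∧ Invariant G R ∧ ∃ V : Submodule ℝ (L2 S), (V : Set (L2 S)) = R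

/-- `R` contains the radical of the form, that is, all `a` in `L²H_k(F, ∂)` such that `cup a b = 0`
for all `b` in `L²H_k(F, F ∩ Z')`. -/
def ContainsRadical (P : Tidy G X m) (Z' : Set X) (R : Set (L2 (Ch X (m + 1)))) : Prop :=
  ∀ a ∈ LF P P.Z, (∀ b ∈ LF P Z', cup P a b = 0) → a ∈ R

/-- The form is nondegenerate on `L²H_k(F, ∂)`: `a = 0` if `cup a b = 0` for all `b` in
`L²H_k(F, F ∩ Z')`. -/
def Nondegenerate (P : Tidy G X m) (Z' : Set X) : Prop :=
  ∀ a ∈ LF P P.Z, (∀ b ∈ LF P Z', cup P a b = 0) → a = 0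

/-- The form is anisotropic on the orthogonal complement of `N` in `L²H_k(F, ∂)`. -/
def AnisotropicOff (P : Tidy G X m) (N : Set (L2 (Ch X (m + 1)))) : Prop :=
  ∀ a ∈ LF P P.Z, (∀ b ∈ N, inner ℝ a b = 0) → cup P a a = 0 → a = 0

/-- The form is anisotropic on `L²H_k(F, ∂)`. -/
def Anisotropic (P : Tidy G X m) : Prop := ∀ a ∈ LF P P.Z, cup P a a = 0 → a = 0

/-- `i_* : L²H_k(F, ∂) → L²H_k(M, ∂)` is zero. -/
def IStarZero (P : Tidy G X m) : Prop := ∀ a ∈ LF P P.Z, iStar m P.Z a = 0

end

end Pool.Agent.Lib.MPe14b75
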