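import Pool.Agent.Lib.MP_e14b75_gt.FinalT
import Pool.Agent.Lib.MP_e14b75_gt.Stmt

/-!
# `L²`-homology of tidy pairs (MP_e14b75_gt): the final statement follows from `final`
-/

set_option autoImplicit false

noncomputable section

namespace Pool.Agent.Lib.MPe14b75

theorem proj_eq {S : Type} (W : Submodule ℝ (l2 S)) (a : l2 S) :
    proj (S := S) (W : Set (l2 S)) a = pr W a := by
  have h : Submodule.span ℝ (W : Set (l2 S)) = W := Submodule.span_eq W
  show (Submodule.span ℝ (W : Set (l2 S))).topologicalClosure.starProjection a =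
    W.topologicalClosure.starProjection a
  rw [h]

theorem vdim_eq {G S : Type} [Group G] [MulAction G S] (W : Submodule ℝ (l2 S)) :
    vdim G (S := S) (W : Set (l2 S)) = gdim G W := by
  unfold vdim gdim
  refine finsum_congr fun q => ?_
  have h1 : ‖proj (S := S) (W : Set (l2 S)) (basis q.out)‖ = ‖pr W (e q.out)‖ :=
    congrArg (fun x : l2 S => ‖x‖) (proj_eq W (e q.out))
  exact congrArg (fun x : ℝ => x ^ 2 / (Nat.card (MulAction.stabilizer G q.out) : ℝ)) h1

variable {G X : Type} [Group G] [PartialOrder X] [MulAction G X] [OrdAct G X] [LocFin X] {m : ℕ}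

theorem harm_eq (Y Z : Set X) : HarmSet m Y Z = (Harm m Y Z : Set (l2 (Ch X (m + 1)))) := by
  ext a
  constructor
  · rintro ⟨h1, h2, h3⟩
    exact ⟨⟨h1, h2⟩, h3⟩
  · rintro ⟨⟨h1, h2⟩, h3⟩
    exact ⟨h1, h2, h3⟩

theorem iStar_eq (Z' : Set X) (a : l2 (Ch X (m + 1))) :
    iStar m Z' a = pr (Harm m Set.univ Z') a := by
  unfold iStar LM
  rw [harm_eq]
  exact proj_eq _ a

theorem rest_eq (P : Tidy G X m) (Z' : Set X) (a : l2 (Ch X (m + 1))) :
    rest P Z' a = pr (Harm m P.Y Z') a := by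
  unfold rest LF
  rw [harm_eq]
  exact proj_eq _ a

theorem rank_eq (P : Tidy G X m) (Z' : Set X) :
    rank P Z' = gdim G ((Harm m P.Y Z').map
      (pr (Harm m Set.univ Z') : l2 (Ch X (m + 1)) →ₗ[ℝ] l2 (Ch X (m + 1)))) := by
  have h1 : iStar m Z' '' LF P Z' = (((Harm m P.Y Z').map
      (pr (Harm m Set.univ Z') : l2 (Ch X (m + 1)) →ₗ[ℝ] l2 (Ch X (m + 1))) :
        Submodule ℝ (l2 (Ch X (m + 1)))) : Set (l2 (Ch X (m + 1)))) := by
    unfold LF
    rw [harm_eq, Submodule.map_coe]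
    exact Set.image_congr fun a _ => iStar_eq Z' a
  unfold rank
  rw [h1]
  exact vdim_eq _

theorem vdimLF_eq (P : Tidy G X m) (Z' : Set X) : vdim G (LF P Z') = gdim G (Harm m P.Y Z') := by
  unfold LF
  rw [harm_eq]
  exact vdim_eq _

theorem final2 (hG : Geom G X) (P : Tidy G X m) (Z' : Set X)
    (hZ' : ∀ (g : G) (x : X), x ∈ Z' → g • x ∈ Z') :
    ImagesOrthogonal P Z' ∧
    (∀ R : Set (L2 (Ch X (m + 1))), ClosedInv G R → ContainsRadical P Z' R →
      rank P P.Z + rank P Z' ≤ vdim G (LF P Z') + vdim G R) ∧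
    (Nondegenerate P Z' → rank P P.Z + rank P Z' ≤ vdim G (LF P Z')) ∧
    (∀ N : Set (L2 (Ch X (m + 1))), ClosedInv G N → AnisotropicOff P N →
      rank P P.Z ≤ vdim G N) ∧
    (Anisotropic P → IStarZero P) ∧
    (rank P P.Z = 0 → IStarZero P) := by
  obtain ⟨h1, h2, h3, h4, h5, h6⟩ := final G X hG m P Z' hZ'
  have hF : ∀ Z' : Set X, LF P Z' = (Harm m P.Y Z' : Set (l2 (Ch X (m + 1)))) := fun Z' =>
    harm_eq _ _
  have hM : ∀ Z' : Set X, LM m Z' = (Harm m Set.univ Z' : Set (l2 (Ch X (m + 1)))) := fun Z' =>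
    harm_eq _ _
  refine ⟨?_, ?_, ?_, ?_, ?_, ?_⟩
  · intro h hh h' hh'
    rw [hM] at hh hh'
    exact (congrArg₂ (form P.z) (rest_eq P P.Z h) (rest_eq P Z' h')).trans (h1 h hh h' hh')
  · rintro R ⟨hR1, hR2, V, rfl⟩ hR
    rw [rank_eq, rank_eq, vdimLF_eq]
    have h7 := h2 V hR1 hR2 (fun a ha hb => hR a (by rw [hF]; exact ha) fun b hb' => by
      rw [hF] at hb'
      exact hb b hb')
    exact h7.trans_eq (congrArg (fun x : ℝ => gdim G (Harm m P.Y Z') + x) (vdim_eq V).symm)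
  · intro hN
    rw [rank_eq, rank_eq, vdimLF_eq]
    exact h3 fun a ha hb => hN a (by rw [hF]; exact ha) fun b hb' => by
      rw [hF] at hb'
      exact hb b hb'
  · rintro N ⟨hN1, hN2, V, rfl⟩ hN
    rw [rank_eq]
    have h7 := h4 V hN1 hN2 (fun a ha hb => hN a (by rw [hF]; exact ha) hb)
    exact h7.trans_eq (vdim_eq V).symm
  · intro hA a ha
    rw [hF] at ha
    exact (iStar_eq P.Z a).trans (h5 (fun b hb => hA b (by rw [hF]; exact hb)) a ha)
  · intro hr a ha
    rw [hF] at ha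
    rw [rank_eq] at hr
    exact (iStar_eq P.Z a).trans (h6 hr a ha)

end Pool.Agent.Lib.MPe14b75
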