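import Pool.Agent.Lib.MP_e14b75_gt.Spec

/-!
# Module DAD: additivity of the von Neumann dimension (helper52)
-/

set_option autoImplicit false

noncomputable section

namespace Pool.Agent.Lib.MPe14b75

namespace DADaux

variable {S : Type}

theorem closure_eq (W : Submodule ℝ (l2 S)) (hW : IsClosed (W : Set (l2 S))) :
    W.topologicalClosure = W :=
  le_antisymm (W.topologicalClosure_minimal le_rfl hW) W.le_topologicalClosure

theorem pr_mem (W : Submodule ℝ (l2 S)) (hW : IsClosed (W : Set (l2 S))) (x : l2 S) :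
    pr W x ∈ W := by
  have h : pr W x ∈ W.topologicalClosure := Submodule.starProjection_apply_mem _ _
  rwa [closure_eq W hW] at h

theorem pr_orth (W : Submodule ℝ (l2 S)) (x w : l2 S) (hw : w ∈ W) :
    inner ℝ (x - pr W x) w = 0 :=
  Submodule.starProjection_inner_eq_zero _ _ (W.le_topologicalClosure hw)

theorem pr_eq (W : Submodule ℝ (l2 S)) (hW : IsClosed (W : Set (l2 S))) (x v : l2 S) (hv : v ∈ W)
    (h : ∀ w ∈ W, inner ℝ (x - v) w = 0) : pr W x = v := by
  refine Submodule.eq_starProjection_of_mem_of_inner_eq_zero (W.le_topologicalClosure hv) ?_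
  intro w hw
  rw [closure_eq W hW] at hw
  exact h w hw

theorem closed_inf (A B : Submodule ℝ (l2 S)) (hB : IsClosed (B : Set (l2 S))) :
    IsClosed ((B ⊓ Aᗮ : Submodule ℝ (l2 S)) : Set (l2 S)) := by
  rw [Submodule.coe_inf]
  exact hB.inter A.isClosed_orthogonal

theorem norm_sq (A B : Submodule ℝ (l2 S)) (hA : IsClosed (A : Set (l2 S)))
    (hB : IsClosed (B : Set (l2 S))) (hAB : A ≤ B) (x : l2 S) :
    ‖pr B x‖ ^ 2 = ‖pr A x‖ ^ 2 + ‖pr (B ⊓ Aᗮ) x‖ ^ 2 := by
  have h1 : pr (B ⊓ Aᗮ) x = pr B x - pr A x := by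
    refine pr_eq _ (closed_inf A B hB) x _ ?_ ?_
    · refine Submodule.mem_inf.mpr ⟨B.sub_mem (pr_mem B hB x) (hAB (pr_mem A hA x)), ?_⟩
      rw [Submodule.mem_orthogonal']
      intro a ha
      have h2 := pr_orth A x a ha
      have h3 := pr_orth B x a (hAB ha)
      have h4 : pr B x - pr A x = (x - pr A x) - (x - pr B x) := by abel
      rw [h4, inner_sub_left, h2, h3, sub_zero]
    · intro w hw
      obtain ⟨hwB, hwA⟩ := Submodule.mem_inf.mp hw
      have h2 := pr_orth B x w hwB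
      have h3 : inner ℝ (pr A x) w = (0 : ℝ) :=
        (Submodule.mem_orthogonal A w).mp hwA _ (pr_mem A hA x)
      have h4 : x - (pr B x - pr A x) = (x - pr B x) + pr A x := by abel
      rw [h4, inner_add_left, h2, h3, add_zero]
  have h5 : pr B x = pr A x + pr (B ⊓ Aᗮ) x := by rw [h1]; abel
  have h6 : inner ℝ (pr A x) (pr (B ⊓ Aᗮ) x) = (0 : ℝ) :=
    (Submodule.mem_orthogonal A _).mp
      (Submodule.mem_inf.mp (pr_mem (B ⊓ Aᗮ) (closed_inf A B hB) x)).2 _ (pr_mem A hA x)
  have h7 := norm_add_sq_real (pr A x) (pr (B ⊓ Aᗮ) x)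
  rw [← h5, h6, mul_zero, add_zero] at h7
  exact h7

end DADaux

theorem specDAD : SpecDAD := by
  intro G S _ _ _ A B hA hB hAB
  have hnn : ∀ W : Submodule ℝ (l2 S), 0 ≤ gdim G W := by
    intro W
    unfold gdim
    exact finsum_nonneg fun q => by positivity
  refine ⟨?_, hnn _, hnn _⟩
  unfold gdim
  rw [← finsum_add_distrib (Set.toFinite _) (Set.toFinite _)]
  refine finsum_congr fun q => ?_
  rw [DADaux.norm_sq A B hA hB hAB, add_div]

end Pool.Agent.Lib.MPe14b75
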