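import Pool.Agent.Lib.MP_e14b75_gt.Spec

/-!
# The coboundary of a basis vector, on a pair (module DCB of MP_e14b75_gt)
-/

set_option autoImplicit false

noncomputable section

namespace Pool.Agent.Lib.MPe14b75

namespace DCBaux

variable {X : Type} [PartialOrder X]

theorem inS_face {Y : Set X} {n : ℕ} {σ : Ch X (n + 1)} (h : InS Y σ) (i : Fin (n + 2)) :
    InS Y (face i σ) := fun j => h (i.succAbove j)

theorem cob_ind_eq_zero {n : ℕ} {τ : Ch X n} {σ : Ch X (n + 1)} (h : ∀ i, face i σ ≠ τ) :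
    cob (ind τ) σ = 0 := by
  unfold cob
  refine Finset.sum_eq_zero fun i _ => ?_
  have h1 : ind τ (face i σ) = 0 := by
    unfold ind
    rw [if_neg (h i)]
  rw [h1, mul_zero]

theorem exists_face {n : ℕ} {τ : Ch X n} {σ : Ch X (n + 1)} (h : cob (ind τ) σ ≠ 0) :
    ∃ i, face i σ = τ := by
  by_contra h1
  push Not at h1
  exact h (cob_ind_eq_zero h1)

theorem cofaces_finite [LocFin X] {n : ℕ} (τ : Ch X n) :
    {σ : Ch X (n + 1) | ∃ i, face i σ = τ}.Finite := by
  have h1 := fiber_finite τ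
  refine (Set.finite_range
    (fun p : {p : Fin (n + 2) × Ch X (n + 1) // face p.1 p.2 = τ} => p.1.2)).subset ?_
  rintro σ ⟨i, hi⟩
  exact ⟨⟨(i, σ), hi⟩, rfl⟩

open Classical in
/-- The values of the relative coboundary of `τ`. -/
def val {n : ℕ} (Y Z : Set X) (τ : Ch X n) (σ : Ch X (n + 1)) : ℝ :=
  if Rel Y Z σ then cob (ind τ) σ else 0

theorem val_pos {n : ℕ} {Y Z : Set X} {τ : Ch X n} {σ : Ch X (n + 1)} (h : Rel Y Z σ) :
    val Y Z τ σ = cob (ind τ) σ := if_pos h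

theorem val_neg {n : ℕ} {Y Z : Set X} {τ : Ch X n} {σ : Ch X (n + 1)} (h : ¬ Rel Y Z σ) :
    val Y Z τ σ = 0 := if_neg h

theorem val_mem [LocFin X] {n : ℕ} (Y Z : Set X) (τ : Ch X n) :
    Memℓp (E := fun _ : Ch X (n + 1) => ℝ) (val Y Z τ) 2 := by
  refine memℓp_gen ?_
  refine summable_of_ne_finset_zero (s := (cofaces_finite τ).toFinset) ?_
  intro σ hσ
  have h1 : val Y Z τ σ = 0 := by
    by_cases h2 : Rel Y Z σ
    · rw [val_pos h2]
      refine cob_ind_eq_zero fun i hi => hσ ?_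
      rw [Set.Finite.mem_toFinset]
      exact ⟨i, hi⟩
    · exact val_neg h2
  rw [h1, norm_zero]
  exact Real.zero_rpow (by norm_num)

/-- The relative coboundary of `τ`. -/
def dd [LocFin X] {n : ℕ} (Y Z : Set X) (τ : Ch X n) : l2 (Ch X (n + 1)) :=
  ⟨val Y Z τ, val_mem Y Z τ⟩

theorem dd_apply [LocFin X] {n : ℕ} (Y Z : Set X) (τ : Ch X n) (σ : Ch X (n + 1)) :
    dd Y Z τ σ = val Y Z τ σ := rfl

theorem dd_face [LocFin X] {n : ℕ} {Y Z : Set X} {τ : Ch X n} (hτ : Rel Y Z τ)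
    {σ : Ch X (n + 1)} (h : InS Y σ) : dd Y Z τ σ = cob (ind τ) σ := by
  rw [dd_apply]
  by_cases h2 : Rel Y Z σ
  · exact val_pos h2
  · rw [val_neg h2]
    have h3 : InS Z σ := by
      by_contra h4
      exact h2 ⟨h, h4⟩
    refine (cob_ind_eq_zero fun i hi => hτ.2 ?_).symm
    rw [← hi]
    exact inS_face h3 i

theorem bdy_eq [LocFin X] {n : ℕ} (τ : Ch X n) (a : Ch X (n + 1) → ℝ) :
    bdy a τ = ∑' σ, cob (ind τ) σ * a σ := by
  classical
  have hfin := fiber_finite τ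
  have h1 : bdy a τ = ∑' p : Fin (n + 2) × Ch X (n + 1),
      (-1 : ℝ) ^ (p.1 : ℕ) * ind τ (face p.1 p.2) * a p.2 := by
    unfold bdy
    have h2 := tsum_subtype {p : Fin (n + 2) × Ch X (n + 1) | face p.1 p.2 = τ}
      (fun p => (-1 : ℝ) ^ (p.1 : ℕ) * a p.2)
    refine Eq.trans h2 (tsum_congr fun p => ?_)
    by_cases h3 : face p.1 p.2 = τ
    · rw [Set.indicator_of_mem (show p ∈ {p : Fin (n + 2) × Ch X (n + 1) | face p.1 p.2 = τ}
        from h3)]
      have h4 : ind τ (face p.1 p.2) = 1 := by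
        unfold ind
        rw [if_pos h3]
      rw [h4, mul_one]
    · rw [Set.indicator_of_notMem (show p ∉ {p : Fin (n + 2) × Ch X (n + 1) | face p.1 p.2 = τ}
        from h3)]
      have h4 : ind τ (face p.1 p.2) = 0 := by
        unfold ind
        rw [if_neg h3]
      rw [h4, mul_zero, zero_mul]
  rw [h1, ← (Equiv.prodComm (Ch X (n + 1)) (Fin (n + 2))).tsum_eq]
  have h5 : Summable fun q : Ch X (n + 1) × Fin (n + 2) =>
      (-1 : ℝ) ^ (q.2 : ℕ) * ind τ (face q.2 q.1) * a q.1 := by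
    refine summable_of_ne_finset_zero
      (s := (cofaces_finite τ).toFinset ×ˢ (Finset.univ : Finset (Fin (n + 2)))) ?_
    rintro ⟨σ, i⟩ hq
    have h6 : ind τ (face i σ) = 0 := by
      unfold ind
      rw [if_neg]
      intro h7
      refine hq (Finset.mem_product.2 ⟨?_, Finset.mem_univ _⟩)
      rw [Set.Finite.mem_toFinset]
      exact ⟨i, h7⟩
    show (-1 : ℝ) ^ (i : ℕ) * ind τ (face i σ) * a σ = 0
    rw [h6, mul_zero, zero_mul]
  refine Eq.trans (h5.tsum_prod' fun σ => Summable.of_finite) (tsum_congr fun σ => ?_)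
  rw [tsum_fintype]
  unfold cob
  rw [Finset.sum_mul]

end DCBaux

open DCBaux in
theorem specDCB (hDDZ : SpecDDZ) : SpecDCB := by
  intro X _ _ m Y Z τ hτ
  refine ⟨dd Y Z τ, ⟨fun σ h => val_neg h, fun σ h => ?_⟩, fun σ h => val_pos h, ?_⟩
  · rw [← hDDZ X m (ind τ) σ]
    unfold cob
    refine Finset.sum_congr rfl fun i _ => ?_
    have h1 := dd_face hτ (inS_face h i)
    rw [h1]
    rfl
  · intro a ha
    rw [lp.inner_eq_tsum, bdy_eq]
    refine tsum_congr fun σ => ?_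
    rw [dd_apply]
    by_cases h2 : Rel Y Z σ
    · rw [val_pos h2]
      simp
    · rw [ha σ h2]
      simp

end Pool.Agent.Lib.MPe14b75
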