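import Pool.Agent.Lib.MP_e14b75_gt.Spec

/-!
# `δ δ = 0` (module DDZ of MP_e14b75_gt)
-/

set_option autoImplicit false

noncomputable section

namespace Pool.Agent.Lib.MPe14b75

theorem specDDZ : SpecDDZ := by
  intro X _ n f σ
  have h0 : cob (cob f) σ = ∑ p : Fin (n + 3) × Fin (n + 2),
      (-1 : ℝ) ^ (p.1 : ℕ) * ((-1 : ℝ) ^ (p.2 : ℕ) * f (face p.2 (face p.1 σ))) := by
    unfold cob
    rw [Fintype.sum_prod_type]
    refine Finset.sum_congr rfl fun i _ => ?_
    rw [Finset.mul_sum]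
  rw [h0]
  refine Finset.sum_involution (fun p _ => (p.1.succAbove p.2, p.2.predAbove p.1)) ?_ ?_ ?_ ?_
  · rintro ⟨i, j⟩ _
    have h1 : face (j.predAbove i) (face (i.succAbove j) σ) = face j (face i σ) := by
      refine Subtype.ext (funext fun k => ?_)
      show σ.1 ((i.succAbove j).succAbove ((j.predAbove i).succAbove k)) =
        σ.1 (i.succAbove (j.succAbove k))
      rw [Fin.succAbove_succAbove_succAbove_predAbove]
    have h2 := Fin.neg_one_pow_succAbove_add_predAbove (R := ℝ) i j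
    rw [pow_add, pow_add] at h2
    show (-1 : ℝ) ^ (i : ℕ) * ((-1 : ℝ) ^ (j : ℕ) * f (face j (face i σ))) +
      (-1 : ℝ) ^ ((i.succAbove j : Fin (n + 3)) : ℕ) * ((-1 : ℝ) ^ ((j.predAbove i : Fin (n + 2)) : ℕ) *
        f (face (j.predAbove i) (face (i.succAbove j) σ))) = 0
    rw [h1, ← mul_assoc, ← mul_assoc, h2]
    ring
  · rintro ⟨i, j⟩ _ _ h
    have h3 : i.succAbove j = i := congrArg Prod.fst h
    exact Fin.succAbove_ne i j h3
  · rintro ⟨i, j⟩ _
    exact Finset.mem_univ _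
  · rintro ⟨i, j⟩ _
    simp only [Fin.succAbove_succAbove_predAbove, Fin.predAbove_predAbove_succAbove]

end Pool.Agent.Lib.MPe14b75
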