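import Pool.Agent.Lib.MP_e14b75_gt.Spec

/-!
# Module DIM: an injective equivariant map does not lower the dimension
-/

set_option autoImplicit false

noncomputable section

open Filter Topology ContinuousLinearMap

namespace Pool.Agent.Lib.MPe14b75

namespace DIMaux

/-! ### identities in a ring -/

section ring

variable {R : Type*} [Ring R]

lemma pow_comm' (a b : R) (j : ℕ) : (1 - b * a) ^ j * b = b * (1 - a * b) ^ j := by
  induction j with
  | zero => simp
  | succ j ih =>
    have h1 : (1 - b * a) * b = b * (1 - a * b) := by noncomm_ring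
    rw [pow_succ, mul_assoc, h1, ← mul_assoc, ih, mul_assoc, ← pow_succ]

lemma geomA (a b : R) (j : ℕ) :
    1 - (1 - b * a) ^ j = ∑ i ∈ Finset.range j, b * ((1 - a * b) ^ i * a) := by
  induction j with
  | zero => simp
  | succ j ih =>
    rw [Finset.sum_range_succ, ← ih, ← mul_assoc, ← pow_comm', pow_succ, mul_assoc, mul_sub, mul_one]
    abel

lemma geomB (a b : R) (j : ℕ) :
    1 - (1 - a * b) ^ j = ∑ i ∈ Finset.range j, ((1 - a * b) ^ i * a) * b := by
  induction j with
  | zero => simp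
  | succ j ih =>
    rw [Finset.sum_range_succ, ← ih, pow_succ, mul_assoc, mul_sub, mul_one]
    abel

end ring

/-! ### contractions of a Hilbert space -/

section hilbert

variable {H : Type*} [NormedAddCommGroup H] [InnerProductSpace ℝ H] [CompleteSpace H]

lemma norm_adj_le (Z : H →L[ℝ] H) (hZ : ‖Z‖ ≤ 1) (x : H) : ‖adjoint Z x‖ ≤ ‖x‖ := by
  have h1 : ‖adjoint Z x‖ ≤ ‖adjoint Z‖ * ‖x‖ := le_opNorm _ _
  have h2 : ‖adjoint Z‖ = ‖Z‖ := LinearIsometryEquiv.norm_map _ _
  rw [h2] at h1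
  nlinarith [norm_nonneg x]

lemma norm_one_sub_le (Z : H →L[ℝ] H) (hZ : ‖Z‖ ≤ 1) :
    ‖(1 : H →L[ℝ] H) - adjoint Z * Z‖ ≤ 1 := by
  refine opNorm_le_bound _ zero_le_one fun x => ?_
  rw [one_mul]
  have h1 := norm_adj_le Z hZ (Z x)
  have h2 : ‖x - adjoint Z (Z x)‖ ^ 2 ≤ ‖x‖ ^ 2 := by
    rw [norm_sub_sq_real, adjoint_inner_right, real_inner_self_eq_norm_sq]
    have h3 : ‖adjoint Z (Z x)‖ ^ 2 ≤ ‖Z x‖ ^ 2 := by gcongr
    nlinarith [sq_nonneg ‖Z x‖]
  exact le_of_sq_le_sq h2 (norm_nonneg _)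

lemma symm_C (Z : H →L[ℝ] H) (a b : H) :
    inner ℝ (((1 : H →L[ℝ] H) - Z * adjoint Z) a) b =
      inner ℝ a (((1 : H →L[ℝ] H) - Z * adjoint Z) b) := by
  have h1 : inner ℝ (Z (adjoint Z a)) b = inner ℝ a (Z (adjoint Z b)) := by
    rw [← adjoint_inner_right, adjoint_inner_left]
  show inner ℝ (a - Z (adjoint Z a)) b = inner ℝ a (b - Z (adjoint Z b))
  rw [inner_sub_left, inner_sub_right, h1]

omit [CompleteSpace H] in
lemma symm_pow (C : H →L[ℝ] H) (hC : ∀ a b, inner ℝ (C a) b = inner ℝ a (C b)) (j : ℕ) :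
    ∀ a b, inner ℝ ((C ^ j) a) b = inner ℝ a ((C ^ j) b) := by
  induction j with
  | zero => intro a b; simp
  | succ j ih =>
    intro a b
    have e1 : (C ^ (j + 1)) a = (C ^ j) (C a) := by rw [pow_succ]; rfl
    have e2 : (C ^ (j + 1)) b = C ((C ^ j) b) := by rw [pow_succ']; rfl
    rw [e1, e2, ih, hC]

lemma pos_pow (Z : H →L[ℝ] H) (hZ : ‖Z‖ ≤ 1) (j : ℕ) (y : H) :
    0 ≤ inner ℝ ((((1 : H →L[ℝ] H) - Z * adjoint Z) ^ j) y) y := by
  set C : H →L[ℝ] H := (1 : H →L[ℝ] H) - Z * adjoint Z with hC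
  have hs := symm_pow C (symm_C Z)
  rcases Nat.even_or_odd' j with ⟨i, rfl | rfl⟩
  · have e1 : (C ^ (2 * i)) y = (C ^ i) ((C ^ i) y) := by
      rw [two_mul, pow_add]; rfl
    rw [e1, hs]
    exact real_inner_self_nonneg
  · have e1 : (C ^ (2 * i + 1)) y = (C ^ i) (C ((C ^ i) y)) := by
      have : 2 * i + 1 = i + (1 + i) := by ring
      rw [this, pow_add, pow_add, pow_one]; rfl
    rw [e1, hs]
    set w := (C ^ i) y
    have e2 : inner ℝ (C w) w = ‖w‖ ^ 2 - ‖adjoint Z w‖ ^ 2 := by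
      show inner ℝ (w - Z (adjoint Z w)) w = _
      rw [inner_sub_left, real_inner_self_eq_norm_sq, ← adjoint_inner_right,
        real_inner_self_eq_norm_sq]
    rw [e2]
    have h1 := norm_adj_le Z hZ w
    have h2 : ‖adjoint Z w‖ ^ 2 ≤ ‖w‖ ^ 2 := by gcongr
    linarith

lemma upper (Z : H →L[ℝ] H) (hZ : ‖Z‖ ≤ 1) (K : Submodule ℝ H) [K.HasOrthogonalProjection]
    (hK : ∀ x, Z x ∈ K) (j : ℕ) (x : H) :
    inner ℝ (((1 : H →L[ℝ] H) - (1 - Z * adjoint Z) ^ j) x) x ≤ ‖K.starProjection x‖ ^ 2 := by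
  set C : H →L[ℝ] H := (1 : H →L[ℝ] H) - Z * adjoint Z with hC
  have hs := symm_pow C (symm_C Z) j
  set y := K.starProjection x with hy
  have h0 : ∀ v ∈ K, inner ℝ (x - y) v = 0 := fun v hv =>
    Submodule.starProjection_inner_eq_zero x v hv
  have h1 : adjoint Z (x - y) = 0 := by
    refine ext_inner_right ℝ fun v => ?_
    rw [adjoint_inner_left, inner_zero_left]
    exact h0 _ (hK v)
  have h2 : C (x - y) = x - y := by
    show (x - y) - Z (adjoint Z (x - y)) = x - y
    rw [h1, map_zero, sub_zero]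
  have h3 : ∀ i : ℕ, (C ^ i) (x - y) = x - y := by
    intro i
    induction i with
    | zero => simp
    | succ i ih =>
      have e1 : (C ^ (i + 1)) (x - y) = (C ^ i) (C (x - y)) := by rw [pow_succ]; rfl
      rw [e1, h2, ih]
  have h4 : (C ^ j) x = (C ^ j) y + (x - y) := by
    rw [← h3 j, ← map_add]
    congr 1
    abel
  have h5 : inner ℝ ((C ^ j) y) (x - y) = 0 := by
    rw [hs, h3, real_inner_comm]
    exact h0 _ (Submodule.starProjection_apply_mem _ _)
  have h6 : inner ℝ y (x - y) = 0 := by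
    rw [real_inner_comm]
    exact h0 _ (Submodule.starProjection_apply_mem _ _)
  have h7 : ((1 : H →L[ℝ] H) - C ^ j) x = y - (C ^ j) y := by
    show x - (C ^ j) x = _
    rw [h4]
    abel
  have h8 : inner ℝ (y - (C ^ j) y) x = ‖y‖ ^ 2 - inner ℝ ((C ^ j) y) y := by
    have e : x = y + (x - y) := by abel
    conv_lhs => rw [e]
    rw [inner_add_right, inner_sub_left, inner_sub_left, h5, h6, real_inner_self_eq_norm_sq]
    ring
  rw [h7, h8]
  have h9 := pos_pow Z hZ j y
  linarith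

lemma inner1 (Z Y : H →L[ℝ] H) (x : H) :
    inner ℝ ((adjoint Z * Y) x) x = inner ℝ (Y x) (Z x) := adjoint_inner_left Z x (Y x)

lemma inner2 (Z Y : H →L[ℝ] H) (x : H) :
    inner ℝ ((Y * adjoint Z) x) x = inner ℝ (adjoint Z x) (adjoint Y x) :=
  (adjoint_inner_right Y (adjoint Z x) x).symm

lemma mean (Z : H →L[ℝ] H) (hZ : ‖Z‖ ≤ 1) (K : Submodule ℝ H) [K.HasOrthogonalProjection]
    (h0 : ∀ x, Z (x - K.starProjection x) = 0) (h1 : ∀ x, Z x = 0 → K.starProjection x = 0)
    (x : H) : Tendsto (fun n : ℕ => (n : ℝ)⁻¹ * ∑ j ∈ Finset.range n,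
      inner ℝ (((1 : H →L[ℝ] H) - (1 - adjoint Z * Z) ^ j) x) x) atTop
        (𝓝 (‖K.starProjection x‖ ^ 2)) := by
  set D : H →L[ℝ] H := (1 : H →L[ℝ] H) - adjoint Z * Z with hD
  have hm := D.tendsto_birkhoffAverage_orthogonalProjection (norm_one_sub_le Z hZ) x
  set y := K.starProjection x with hy
  have hfix : ((D.eqLocus (1 : H →L[ℝ] H)).orthogonalProjectionOnto x : H) = x - y := by
    rw [Submodule.coe_orthogonalProjectionOnto_apply]
    apply Submodule.eq_starProjection_of_mem_of_inner_eq_zero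
    · show D (x - y) = (1 : H →L[ℝ] H) (x - y)
      show (x - y) - adjoint Z (Z (x - y)) = x - y
      rw [h0, map_zero, sub_zero]
    · intro w hw
      have hw' : w - adjoint Z (Z w) = w := hw
      have h2 : adjoint Z (Z w) = 0 := by
        have := sub_eq_self.mp hw'
        exact this
      have h3 : Z w = 0 := by
        have : inner ℝ (Z w) (Z w) = 0 := by
          rw [← adjoint_inner_left, h2, inner_zero_left]
        exact inner_self_eq_zero.mp this
      have h4 : K.starProjection w = 0 := h1 w h3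
      have h5 : inner ℝ (w - K.starProjection w) y = 0 :=
        Submodule.starProjection_inner_eq_zero w y (Submodule.starProjection_apply_mem _ _)
      rw [h4, sub_zero] at h5
      rw [sub_sub_cancel, real_inner_comm]
      exact h5
  rw [hfix] at hm
  have hm2 : Tendsto (fun n : ℕ => ‖x‖ ^ 2 - inner ℝ (birkhoffAverage ℝ D _root_.id n x) x) atTop
      (𝓝 (‖x‖ ^ 2 - inner ℝ (x - y) x)) :=
    tendsto_const_nhds.sub (hm.inner tendsto_const_nhds)
  have e1 : ‖x‖ ^ 2 - inner ℝ (x - y) x = ‖y‖ ^ 2 := by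
    have h2 : inner ℝ (x - y) y = 0 :=
      Submodule.starProjection_inner_eq_zero x y (Submodule.starProjection_apply_mem _ _)
    have h3 : inner ℝ y x = inner ℝ y y := by
      have : inner ℝ y (x - y) = 0 := by rw [real_inner_comm]; exact h2
      rw [inner_sub_right] at this
      linarith
    rw [inner_sub_left, h3, real_inner_self_eq_norm_sq, real_inner_self_eq_norm_sq]
    ring
  rw [e1] at hm2
  refine hm2.congr' ?_
  filter_upwards [eventually_gt_atTop 0] with n hn
  have hn' : (n : ℝ) ≠ 0 := by exact_mod_cast hn.ne'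
  have e2 : ∀ j : ℕ, D^[j] x = (D ^ j) x := by
    intro j
    induction j with
    | zero => simp
    | succ j ih =>
      rw [Function.iterate_succ_apply', ih, pow_succ']
      rfl
  unfold birkhoffAverage birkhoffSum
  simp only [id_eq, e2]
  rw [inner_smul_left, sum_inner]
  have e3 : ∀ j : ℕ, inner ℝ (((1 : H →L[ℝ] H) - D ^ j) x) x = ‖x‖ ^ 2 - inner ℝ ((D ^ j) x) x := by
    intro j
    show inner ℝ (x - (D ^ j) x) x = _
    rw [inner_sub_left, real_inner_self_eq_norm_sq]
  simp only [e3, Finset.sum_sub_distrib, Finset.sum_const, Finset.card_range, nsmul_eq_mul]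
  simp only [conj_trivial]
  field_simp

end hilbert

/-! ### traces -/

variable {S : Type}

lemma inner_e (a : l2 S) (s : S) : inner ℝ a (e s) = a s := by
  classical
  unfold e
  rw [lp.inner_single_right]
  simp

/-- The hypothesis of `TRC`. -/
def Eqv (G : Type) {S : Type} [Group G] [MulAction G S] (ε : G → S → ℝ) (Y : l2 S →L[ℝ] l2 S) :
    Prop :=
  ∀ (g : G) (s t : S), inner ℝ (Y (e (g • s))) (e (g • t)) = ε g t * inner ℝ (Y (e s)) (e t)

lemma trace_comm (hTRC : SpecTRC) {G S : Type} [Group G] [MulAction G S]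
    [Finite (MulAction.orbitRel.Quotient G S)] [Fintype (MulAction.orbitRel.Quotient G S)]
    (hst : ∀ s : S, Finite (MulAction.stabilizer G s))
    (ε : G → S → ℝ) (hε : ∀ g s, ε g s = 1 ∨ ε g s = -1) (Y Z : l2 S →L[ℝ] l2 S)
    (hY : Eqv G ε Y) (hZ : Eqv G ε Z) :
    ∑ q : MulAction.orbitRel.Quotient G S,
      inner ℝ (Y (e q.out)) (Z (e q.out)) / Nat.card (MulAction.stabilizer G q.out) =
    ∑ q : MulAction.orbitRel.Quotient G S,
      inner ℝ (adjoint Z (e q.out)) (adjoint Y (e q.out)) /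
        Nat.card (MulAction.stabilizer G q.out) := by
  have h1 := hTRC G S hst ε hε (Y + Z) (by
    intro g s t
    have e1 := hY g s t
    have e2 := hZ g s t
    show inner ℝ (Y (e (g • s)) + Z (e (g • s))) (e (g • t)) =
      ε g t * inner ℝ (Y (e s) + Z (e s)) (e t)
    rw [inner_add_left, inner_add_left, e1, e2]
    ring)
  have h2 := hTRC G S hst ε hε (Y - Z) (by
    intro g s t
    have e1 := hY g s t
    have e2 := hZ g s t
    show inner ℝ (Y (e (g • s)) - Z (e (g • s))) (e (g • t)) =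
      ε g t * inner ℝ (Y (e s) - Z (e s)) (e t)
    rw [inner_sub_left, inner_sub_left, e1, e2]
    ring)
  unfold tr2 at h1 h2
  rw [finsum_eq_sum_of_fintype, finsum_eq_sum_of_fintype] at h1 h2
  have pol : ∀ a b : l2 S, inner ℝ a b = (‖a + b‖ ^ 2 - ‖a - b‖ ^ 2) / 4 := by
    intro a b
    rw [norm_add_sq_real, norm_sub_sq_real]
    ring
  have e1 : ∑ q : MulAction.orbitRel.Quotient G S,
      inner ℝ (Y (e q.out)) (Z (e q.out)) / Nat.card (MulAction.stabilizer G q.out) =
      ((∑ q : MulAction.orbitRel.Quotient G S, ‖(Y + Z) (e q.out)‖ ^ 2 /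
        Nat.card (MulAction.stabilizer G q.out)) -
      ∑ q : MulAction.orbitRel.Quotient G S, ‖(Y - Z) (e q.out)‖ ^ 2 /
        Nat.card (MulAction.stabilizer G q.out)) / 4 := by
    rw [← Finset.sum_sub_distrib, Finset.sum_div]
    refine Finset.sum_congr rfl fun q _ => ?_
    rw [pol]
    show _ = (‖Y (e q.out) + Z (e q.out)‖ ^ 2 / _ - ‖Y (e q.out) - Z (e q.out)‖ ^ 2 / _) / 4
    ring
  have e2 : ∑ q : MulAction.orbitRel.Quotient G S,
      inner ℝ (adjoint Z (e q.out)) (adjoint Y (e q.out)) /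
        Nat.card (MulAction.stabilizer G q.out) =
      ((∑ q : MulAction.orbitRel.Quotient G S, ‖adjoint (Y + Z) (e q.out)‖ ^ 2 /
        Nat.card (MulAction.stabilizer G q.out)) -
      ∑ q : MulAction.orbitRel.Quotient G S, ‖adjoint (Y - Z) (e q.out)‖ ^ 2 /
        Nat.card (MulAction.stabilizer G q.out)) / 4 := by
    rw [← Finset.sum_sub_distrib, Finset.sum_div]
    refine Finset.sum_congr rfl fun q _ => ?_
    rw [real_inner_comm, pol, map_add, map_sub]
    show _ = (‖adjoint Y (e q.out) + adjoint Z (e q.out)‖ ^ 2 / _ -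
      ‖adjoint Y (e q.out) - adjoint Z (e q.out)‖ ^ 2 / _) / 4
    ring
  rw [e1, e2, h1, h2]

/-! ### translations -/

lemma tr_eq {G : Type} [Group G] [MulAction G S] {g : G} {ε : S → ℝ} {U : l2 S ≃ₗᵢ[ℝ] l2 S}
    (hU : ∀ (a : l2 S) (s : S), U a (g • s) = ε s * a s) {a b : l2 S}
    (h : ∀ s, b (g • s) = ε s * a s) : b = U a := by
  apply lp.ext
  funext t
  have h1 := h (g⁻¹ • t)
  have h2 := hU a (g⁻¹ • t)
  rw [smul_inv_smul] at h1 h2
  rw [h1, h2]

lemma pr_comm (W : Submodule ℝ (l2 S)) [W.HasOrthogonalProjection] (U : l2 S ≃ₗᵢ[ℝ] l2 S)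
    (h : ∀ a, a ∈ W ↔ U a ∈ W) (a : l2 S) :
    W.starProjection (U a) = U (W.starProjection a) := by
  apply Submodule.eq_starProjection_of_mem_of_inner_eq_zero
  · exact (h _).1 (Submodule.starProjection_apply_mem _ _)
  · intro w hw
    have h1 : U.symm w ∈ W := by
      rw [h, U.apply_symm_apply]
      exact hw
    rw [← map_sub, ← U.apply_symm_apply w, U.inner_map_map]
    exact Submodule.starProjection_inner_eq_zero _ _ h1

lemma inv_iff {G : Type} [Group G] [MulAction G S] {g : G} {U : l2 S ≃ₗᵢ[ℝ] l2 S}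
    (hU : ∀ (a : l2 S) (s : S), U a (g • s) = 1 * a s) {W : Submodule ℝ (l2 S)}
    (hW : Inv G W) (a : l2 S) : a ∈ W ↔ U a ∈ W := by
  constructor
  · intro ha
    exact hW g a ha (U a) fun s => by rw [hU, one_mul]
  · intro ha
    refine hW g⁻¹ (U a) ha a fun s => ?_
    have h2 := hU a (g⁻¹ • s)
    rw [smul_inv_smul, one_mul] at h2
    exact h2.symm

lemma U_e {G : Type} [Group G] [MulAction G S] {g : G} {U : l2 S ≃ₗᵢ[ℝ] l2 S}
    (hU : ∀ (a : l2 S) (s : S), U a (g • s) = 1 * a s) (s : S) : U (e s) = e (g • s) := by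
  classical
  symm
  apply tr_eq hU
  intro t
  rw [one_mul, ← inner_e, ← inner_e]
  unfold e
  rw [lp.inner_single_right, lp.inner_single_right]
  by_cases h : t = s
  · subst h
    simp
  · have h2 : g • t ≠ g • s := fun h3 => h (MulAction.injective g h3)
    rw [lp.single_apply_ne _ _ _ h, lp.single_apply_ne _ _ _ h2]

lemma eqv_of_comm {G : Type} [Group G] [MulAction G S] {g : G} {ε : S → ℝ}
    {U U' : l2 S ≃ₗᵢ[ℝ] l2 S} (hU : ∀ (a : l2 S) (s : S), U a (g • s) = 1 * a s)
    (hU' : ∀ (a : l2 S) (s : S), U' a (g • s) = ε s * a s) {Y : l2 S →L[ℝ] l2 S}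
    (hY : ∀ a, Y (U a) = U' (Y a)) (s t : S) :
    inner ℝ (Y (e (g • s))) (e (g • t)) = ε t * inner ℝ (Y (e s)) (e t) := by
  rw [inner_e, inner_e, ← U_e hU s, hY, hU']

lemma adj_comm {U U' : l2 S ≃ₗᵢ[ℝ] l2 S} {Z : l2 S →L[ℝ] l2 S} (hZ : ∀ a, Z (U a) = U' (Z a))
    (a : l2 S) : adjoint Z (U' a) = U (adjoint Z a) := by
  refine ext_inner_right ℝ fun b => ?_
  have e1 : b = U (U.symm b) := (U.apply_symm_apply b).symm
  rw [adjoint_inner_left]
  conv_lhs => rw [e1]
  conv_rhs => rw [e1]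
  rw [hZ, U'.inner_map_map, U.inner_map_map, adjoint_inner_left]

lemma pow_comm_U {U' : l2 S ≃ₗᵢ[ℝ] l2 S} {C : l2 S →L[ℝ] l2 S} (hC : ∀ a, C (U' a) = U' (C a))
    (i : ℕ) : ∀ a, (C ^ i) (U' a) = U' ((C ^ i) a) := by
  induction i with
  | zero => intro a; simp
  | succ i ih =>
    intro a
    have e1 : ∀ b, (C ^ (i + 1)) b = (C ^ i) (C b) := fun b => by rw [pow_succ]; rfl
    rw [e1, e1, hC, ih]

end DIMaux

open DIMaux

theorem specDIM (hTRN : SpecTRN) (hTRC : SpecTRC) : SpecDIM := by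
  intro G S _ _ _ hst ε hε W V hW hV hInv T hT hTV hTinj
  have : Fintype (MulAction.orbitRel.Quotient G S) := Fintype.ofFinite _
  have hWc : W.topologicalClosure = W := hW.submodule_topologicalClosure_eq
  have hVc : V.topologicalClosure = V := hV.submodule_topologicalClosure_eq
  -- the contraction `Z = κ T P`
  set P : l2 S →L[ℝ] l2 S := W.topologicalClosure.starProjection with hP
  set κ : ℝ := (‖T * P‖ + 1)⁻¹ with hκ
  have hκ0 : 0 < κ := by positivity
  set Z : l2 S →L[ℝ] l2 S := κ • (T * P) with hZdef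
  have hZ1 : ‖Z‖ ≤ 1 := by
    rw [hZdef, norm_smul, Real.norm_eq_abs, abs_of_pos hκ0, hκ, inv_mul_le_iff₀ (by positivity)]
    linarith [norm_nonneg (T * P)]
  have hZa : ∀ x, Z x = κ • T (P x) := fun x => rfl
  have hPW : ∀ x, P x ∈ W := fun x =>
    hWc.le (Submodule.starProjection_apply_mem W.topologicalClosure x)
  -- equivariance
  have hcomm : ∀ (g : G) (U U' : l2 S ≃ₗᵢ[ℝ] l2 S), (∀ (a : l2 S) (s : S), U a (g • s) = 1 * a s) →
      (∀ (a : l2 S) (s : S), U' a (g • s) = ε g s * a s) → ∀ a, Z (U a) = U' (Z a) := by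
    intro g U U' hU hU' a
    have h1 : P (U a) = U (P a) := by
      apply pr_comm
      intro b
      rw [hWc]
      exact inv_iff hU hInv b
    have h2 : T (U (P a)) = U' (T (P a)) :=
      tr_eq hU' (hT g (P a) (U (P a)) fun s => by rw [hU, one_mul])
    rw [hZa, hZa, h1, h2, map_smul]
  have hY : ∀ i : ℕ, Eqv G ε (((1 : l2 S →L[ℝ] l2 S) - Z * adjoint Z) ^ i * Z) := by
    intro i g s t
    obtain ⟨U, hU⟩ := hTRN G S g (fun _ => 1) fun _ => Or.inl rfl
    obtain ⟨U', hU'⟩ := hTRN G S g (ε g) (hε g)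
    have h1 := hcomm g U U' hU hU'
    have h2 : ∀ a, ((1 : l2 S →L[ℝ] l2 S) - Z * adjoint Z) (U' a) =
        U' (((1 : l2 S →L[ℝ] l2 S) - Z * adjoint Z) a) := by
      intro a
      show U' a - Z (adjoint Z (U' a)) = U' (a - Z (adjoint Z a))
      rw [adj_comm h1, h1, map_sub]
    refine eqv_of_comm hU hU' (fun a => ?_) s t
    show (((1 : l2 S →L[ℝ] l2 S) - Z * adjoint Z) ^ i) (Z (U a)) =
      U' ((((1 : l2 S →L[ℝ] l2 S) - Z * adjoint Z) ^ i) (Z a))
    rw [h1, pow_comm_U h2]
  have hZe : Eqv G ε Z := by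
    have := hY 0
    rwa [pow_zero, one_mul] at this
  -- the traces agree
  have htr : ∀ j : ℕ, ∑ q : MulAction.orbitRel.Quotient G S,
      inner ℝ (((1 : l2 S →L[ℝ] l2 S) - (1 - adjoint Z * Z) ^ j) (e q.out)) (e q.out) /
        Nat.card (MulAction.stabilizer G q.out) =
      ∑ q : MulAction.orbitRel.Quotient G S,
      inner ℝ (((1 : l2 S →L[ℝ] l2 S) - (1 - Z * adjoint Z) ^ j) (e q.out)) (e q.out) /
        Nat.card (MulAction.stabilizer G q.out) := by
    intro j
    rw [geomA, geomB]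
    simp only [sum_apply, sum_inner, Finset.sum_div]
    rw [Finset.sum_comm]
    conv_rhs => rw [Finset.sum_comm]
    refine Finset.sum_congr rfl fun i _ => ?_
    have h1 := trace_comm hTRC hst ε hε _ Z (hY i) hZe
    simp only [inner1, inner2]
    exact h1
  -- the limit of the averages
  have hlim : Tendsto (fun n : ℕ => (n : ℝ)⁻¹ * ∑ j ∈ Finset.range n,
      ∑ q : MulAction.orbitRel.Quotient G S,
      inner ℝ (((1 : l2 S →L[ℝ] l2 S) - (1 - adjoint Z * Z) ^ j) (e q.out)) (e q.out) /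
        Nat.card (MulAction.stabilizer G q.out)) atTop (𝓝 (gdim G W)) := by
    unfold gdim
    rw [finsum_eq_sum_of_fintype]
    have h1 : Tendsto (fun n : ℕ => ∑ q : MulAction.orbitRel.Quotient G S,
        ((n : ℝ)⁻¹ * ∑ j ∈ Finset.range n,
          inner ℝ (((1 : l2 S →L[ℝ] l2 S) - (1 - adjoint Z * Z) ^ j) (e q.out)) (e q.out)) /
            Nat.card (MulAction.stabilizer G q.out)) atTop
        (𝓝 (∑ q : MulAction.orbitRel.Quotient G S,
          ‖pr W (e q.out)‖ ^ 2 / Nat.card (MulAction.stabilizer G q.out))) := by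
      refine tendsto_finsetSum _ fun q _ => ?_
      refine Tendsto.div_const ?_ _
      refine mean Z hZ1 W.topologicalClosure (fun x => ?_) (fun x hx => ?_) (e q.out)
      · rw [hZa]
        have : P (x - W.topologicalClosure.starProjection x) = 0 := by
          rw [map_sub]
          have h2 : P (W.topologicalClosure.starProjection x) = P x :=
            Submodule.starProjection_eq_self_iff.mpr (Submodule.starProjection_apply_mem _ _)
          rw [h2, sub_self]
        rw [this, map_zero, smul_zero]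
      · rw [hZa, smul_eq_zero] at hx
        exact hTinj _ (hPW x) (hx.resolve_left hκ0.ne')
    refine h1.congr fun n => ?_
    rw [Finset.sum_comm, Finset.mul_sum]
    refine Finset.sum_congr rfl fun q _ => ?_
    rw [← Finset.sum_div, mul_div_assoc]
  -- the upper bound
  refine le_of_tendsto hlim ?_
  filter_upwards [eventually_gt_atTop 0] with n hn
  have hn' : (0 : ℝ) < n := by exact_mod_cast hn
  rw [inv_mul_le_iff₀ hn']
  calc ∑ j ∈ Finset.range n, ∑ q : MulAction.orbitRel.Quotient G S,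
      inner ℝ (((1 : l2 S →L[ℝ] l2 S) - (1 - adjoint Z * Z) ^ j) (e q.out)) (e q.out) /
        Nat.card (MulAction.stabilizer G q.out) ≤ ∑ _j ∈ Finset.range n, gdim G V := by
        refine Finset.sum_le_sum fun j _ => ?_
        rw [htr j]
        unfold gdim
        rw [finsum_eq_sum_of_fintype]
        refine Finset.sum_le_sum fun q _ => ?_
        have h1 : inner ℝ (((1 : l2 S →L[ℝ] l2 S) - (1 - Z * adjoint Z) ^ j) (e q.out)) (e q.out) ≤
            ‖V.topologicalClosure.starProjection (e q.out)‖ ^ 2 := by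
          refine upper Z hZ1 V.topologicalClosure (fun x => ?_) j _
          rw [hVc, hZa]
          exact V.smul_mem _ (hTV _ (hPW x))
        unfold pr
        gcongr
    _ = n * gdim G V := by simp

end Pool.Agent.Lib.MPe14b75
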