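import Mathlib

/-!
# `L²`-homology of tidy pairs (MP_e14b75_gt): definitions

A `G`-manifold with a `G`-equivariant cell structure is given by the set `X` of its cells, ordered by
inclusion of their closures; the simplices of the barycentric subdivision are the chains
`x_0 < ⋯ < x_n` of `X` (`Ch X n`). An invariant subcomplex is given by an invariant subset of `X`.

* `face`, `fr`, `bk`: faces, front faces and back faces; `cob`, `bdy`: coboundary and boundary;
* `l2 (Ch X n)`: the square summable `n`-chains; `Harm m Y Z`: the harmonic `(m + 1)`-chains of the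
  pair `(Y, Y ∩ Z)` of subcomplexes;
* `gdim G W`: the von Neumann dimension of the closure of `W`;
* `Tidy G X m`: a tidy pair `(M, F)` of dimensions `2 m + 3`, `2 m + 2`.
-/

set_option autoImplicit false

noncomputable section

namespace Pool.Agent.Lib.MPe14b75

/-! ### simplices -/

section simplices

variable {X : Type} [PartialOrder X]

/-- The `n`-simplices: chains `x_0 < ⋯ < x_n`. -/
def Ch (X : Type) [PartialOrder X] (n : ℕ) : Type := {σ : Fin (n + 1) → X // StrictMono σ}

/-- The `i`-th face: omit `x_i`. -/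
def face {n : ℕ} (i : Fin (n + 2)) (σ : Ch X (n + 1)) : Ch X n :=
  ⟨fun j => σ.1 (i.succAbove j), σ.2.comp (Fin.strictMono_succAbove i)⟩

/-- The front face `x_0 < ⋯ < x_p`. -/
def fr {n : ℕ} (p : ℕ) (h : p ≤ n) (σ : Ch X n) : Ch X p :=
  ⟨fun j => σ.1 ⟨j.1, by omega⟩, fun i j hij => σ.2 (by
    rw [Fin.lt_def]
    exact hij)⟩

/-- The back face `x_(n-q) < ⋯ < x_n`. -/
def bk {n : ℕ} (q : ℕ) (h : q ≤ n) (σ : Ch X n) : Ch X q :=
  ⟨fun j => σ.1 ⟨n - q + j.1, by omega⟩, fun i j hij => σ.2 (by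
    rw [Fin.lt_def]
    have : i.1 < j.1 := hij
    show n - q + i.1 < n - q + j.1
    omega)⟩

/-- All vertices of `σ` are in `Y`. -/
def InS (Y : Set X) {n : ℕ} (σ : Ch X n) : Prop := ∀ i, σ.1 i ∈ Y

/-- `σ` is a simplex of `Y` and not a simplex of `Z`. -/
def Rel (Y Z : Set X) {n : ℕ} (σ : Ch X n) : Prop := InS Y σ ∧ ¬ InS Z σ

/-- The coboundary: `(δ a)(σ) = ∑ (-1)^i a(face i σ)`. -/
def cob {n : ℕ} (a : Ch X n → ℝ) (σ : Ch X (n + 1)) : ℝ :=
  ∑ i : Fin (n + 2), (-1 : ℝ) ^ (i : ℕ) * a (face i σ)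

/-- The boundary: `(∂ c)(τ) = ∑ (-1)^i c(σ)` over the pairs `(i, σ)` with `face i σ = τ`. -/
def bdy {n : ℕ} (c : Ch X (n + 1) → ℝ) (τ : Ch X n) : ℝ :=
  ∑' p : {p : Fin (n + 2) × Ch X (n + 1) // face p.1 p.2 = τ}, (-1 : ℝ) ^ (p.1.1 : ℕ) * c p.1.2

end simplices

/-! ### group actions -/

/-- `G` acts on `X` by automorphisms of the partially ordered set. -/
class OrdAct (G X : Type) [Group G] [PartialOrder X] [MulAction G X] : Prop where
  smul_lt : ∀ (g : G) {x y : X}, x < y → g • x < g • y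

instance {G X : Type} [Group G] [PartialOrder X] [MulAction G X] [OrdAct G X] (n : ℕ) :
    MulAction G (Ch X n) where
  smul g σ := ⟨fun i => g • σ.1 i, fun _ _ h => OrdAct.smul_lt g (σ.2 h)⟩
  one_smul σ := Subtype.ext (funext fun i => one_smul G (σ.1 i))
  mul_smul g h σ := Subtype.ext (funext fun i => mul_smul g h (σ.1 i))

/-- The complex is locally finite: every `x` is comparable with finitely many `y`. -/
class LocFin (X : Type) [PartialOrder X] : Prop where
  loc : ∀ x : X, {y : X | x ≤ y ∨ y ≤ x}.Finite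

/-- The action is proper and cocompact: there are finitely many orbits, and the stabilizers are
finite. -/
structure Geom (G X : Type) [Group G] [MulAction G X] : Prop where
  orb : ∃ S : Set X, S.Finite ∧ ∀ x : X, ∃ g : G, ∃ s ∈ S, g • s = x
  stab : ∀ x : X, Finite (MulAction.stabilizer G x)

/-! ### square summable functions on a `G`-set and the von Neumann dimension -/

/-- Square summable functions. -/
abbrev l2 (S : Type) : Type := lp (fun _ : S => ℝ) 2

open Classical in
/-- The basis vector `e_s`. -/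
def e {S : Type} (s : S) : l2 S := lp.single 2 s (1 : ℝ)

/-- The orthogonal projection onto the closure of `W`. -/
def pr {S : Type} (W : Submodule ℝ (l2 S)) : l2 S →L[ℝ] l2 S := W.topologicalClosure.starProjection

/-- The von Neumann dimension of the closure of the `G`-invariant subspace `W`: the sum of
`‖P e_s‖² / |G_s|` over representatives `s` of the orbits, `P` the orthogonal projection onto the
closure of `W`. -/
def gdim (G : Type) {S : Type} [Group G] [MulAction G S] (W : Submodule ℝ (l2 S)) : ℝ :=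
  ∑ᶠ q : MulAction.orbitRel.Quotient G S,
    ‖pr W (e q.out)‖ ^ 2 / Nat.card (MulAction.stabilizer G q.out)

/-! ### harmonic chains -/

section harmonic

variable {X : Type} [PartialOrder X]

theorem fiber_finite [LocFin X] {n : ℕ} (τ : Ch X n) :
    Finite {p : Fin (n + 2) × Ch X (n + 1) // face p.1 p.2 = τ} := by
  have h1 : Finite {y : X | τ.1 0 ≤ y ∨ y ≤ τ.1 0} := (LocFin.loc (τ.1 0)).to_subtype
  refine Finite.of_injective (β := Fin (n + 2) × (Fin (n + 2) → {y : X | τ.1 0 ≤ y ∨ y ≤ τ.1 0}))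
    (fun p => (p.1.1, fun j => ⟨p.1.2.1 j, by
      have h2 : p.1.2.1 (p.1.1.succAbove 0) = τ.1 0 := congrFun (congrArg Subtype.val p.2) 0
      rcases le_total (p.1.1.succAbove 0) j with h | h
      · left
        rw [← h2]
        exact p.1.2.2.monotone h
      · right
        rw [← h2]
        exact p.1.2.2.monotone h⟩)) ?_
  rintro ⟨⟨i, σ⟩, hp⟩ ⟨⟨i', σ'⟩, hp'⟩ h
  simp only [Prod.mk.injEq] at h
  obtain ⟨h3, h4⟩ := h
  have h5 : σ = σ' := Subtype.ext (funext fun j => congrArg Subtype.val (congrFun h4 j))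
  subst h3
  subst h5
  rfl

/-- The square summable relative cocycles of degree `m + 1` of the pair `(Y, Y ∩ Z)`. -/
def Cocy (m : ℕ) (Y Z : Set X) : Submodule ℝ (l2 (Ch X (m + 1))) where
  carrier := {a | (∀ σ, ¬ Rel Y Z σ → a σ = 0) ∧ ∀ σ, InS Y σ → cob a σ = 0}
  zero_mem' := ⟨fun _ _ => rfl, fun _ _ => by simp [cob]⟩
  add_mem' := by
    rintro a b ⟨h1, h2⟩ ⟨h3, h4⟩
    refine ⟨fun σ h => ?_, fun σ h => ?_⟩
    · show a σ + b σ = 0
      rw [h1 σ h, h3 σ h, add_zero]
    · have h5 := h2 σ h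
      have h6 := h4 σ h
      unfold cob at h5 h6 ⊢
      rw [← add_zero (0 : ℝ)]
      nth_rewrite 1 [← h5]
      rw [← h6, ← Finset.sum_add_distrib]
      refine Finset.sum_congr rfl fun i _ => ?_
      rw [← mul_add]
      rfl
  smul_mem' := by
    rintro r a ⟨h1, h2⟩
    refine ⟨fun σ h => ?_, fun σ h => ?_⟩
    · show r * a σ = 0
      rw [h1 σ h, mul_zero]
    · have h5 := h2 σ h
      unfold cob at h5 ⊢
      rw [← mul_zero r, ← h5, Finset.mul_sum]
      refine Finset.sum_congr rfl fun i _ => ?_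
      rw [mul_left_comm]
      rfl

/-- The harmonic square summable chains of degree `m + 1` of the pair `(Y, Y ∩ Z)`, that is,
`L²H_(m+1)(Y, Y ∩ Z)`. -/
def Harm [LocFin X] (m : ℕ) (Y Z : Set X) : Submodule ℝ (l2 (Ch X (m + 1))) where
  carrier := {a | a ∈ Cocy m Y Z ∧ ∀ τ, Rel Y Z τ → bdy a τ = 0}
  zero_mem' := ⟨Submodule.zero_mem _, fun _ _ => by simp [bdy]⟩
  add_mem' := by
    rintro a b ⟨h1, h2⟩ ⟨h3, h4⟩
    refine ⟨Submodule.add_mem _ h1 h3, fun τ h => ?_⟩
    have := fiber_finite τ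
    have h5 := h2 τ h
    have h6 := h4 τ h
    unfold bdy at h5 h6 ⊢
    rw [← add_zero (0 : ℝ)]
    nth_rewrite 1 [← h5]
    rw [← h6, ← Summable.tsum_add (Summable.of_finite) (Summable.of_finite)]
    refine tsum_congr fun i => ?_
    rw [← mul_add]
    rfl
  smul_mem' := by
    rintro r a ⟨h1, h2⟩
    refine ⟨Submodule.smul_mem _ _ h1, fun τ h => ?_⟩
    have h5 := h2 τ h
    unfold bdy at h5 ⊢
    rw [← mul_zero r, ← h5, ← tsum_mul_left]
    refine tsum_congr fun i => ?_
    rw [mul_left_comm]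
    rfl

end harmonic

/-! ### tidy pairs -/

/-- The cup product form: `∑ z(ρ) a(front face of ρ) b(back face of ρ)`. -/
def form {X : Type} [PartialOrder X] {m : ℕ} (z : Ch X (2 * m + 2) → ℝ)
    (a b : l2 (Ch X (m + 1))) : ℝ :=
  ∑' ρ, z ρ * (a (fr (m + 1) (by omega) ρ) * b (bk (m + 1) (by omega) ρ))

open Classical in
/-- A tidy pair `(M, F)`, `dim M = 2 m + 3`, `dim F = 2 m + 2`: `M` is given by `X`, `F` by `Y`, `∂M`
by `Z`. The components of `F` are `F_j = {x ∈ Y : comp x = j}`; `z` is the fundamental cycle of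
`(F, F ∩ ∂M)`, which `G` preserves up to signs `sg g j` on the components; and `c j` is the
fundamental chain of the part of `M` on one side of `F_j`, so its boundary is `F_j` up to simplices
of `∂M`. -/
structure Tidy (G X : Type) [Group G] [PartialOrder X] [MulAction G X] [OrdAct G X] (m : ℕ) where
  /-- the cells of `F` -/
  Y : Set X
  /-- the cells of the boundary of `M` -/
  Z : Set X
  hY : ∀ (g : G) (x : X), x ∈ Y → g • x ∈ Y
  hZ : ∀ (g : G) (x : X), x ∈ Z → g • x ∈ Z
  /-- the set of the components of `F` -/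
  J : Type
  /-- the component of a cell of `F` -/
  comp : X → J
  hcomp : ∀ x ∈ Y, ∀ y ∈ Y, x < y → comp x = comp y
  /-- the fundamental cycle of `F` -/
  z : Ch X (2 * m + 2) → ℝ
  zY : ∀ ρ, ¬ InS Y ρ → z ρ = 0
  zb : ∃ C : ℝ, ∀ ρ, |z ρ| ≤ C
  zcyc : ∀ π : Ch X (2 * m + 1), ¬ InS Z π → bdy z π = 0
  /-- the signs -/
  sg : G → J → ℝ
  hsg : ∀ g j, sg g j = 1 ∨ sg g j = -1
  zG : ∀ (g : G) (ρ : Ch X (2 * m + 2)), z (g • ρ) = sg g (comp (ρ.1 0)) * z ρ
  /-- the fundamental chain of one side of a component of `F` -/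
  c : J → Ch X (2 * m + 3) → ℝ
  cb : ∀ j, ∃ C : ℝ, ∀ σ, |c j σ| ≤ C
  cbdy : ∀ j ρ, ¬ InS Z ρ → bdy (c j) ρ = if comp (ρ.1 0) = j then z ρ else 0

end Pool.Agent.Lib.MPe14b75
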