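import Pool.Agent.Lib.MP_e14b75_gt.Spec

/-!
# Module FIN: finitely many orbits of simplices, finite stabilizers (helper52)
-/

set_option autoImplicit false

noncomputable section

namespace Pool.Agent.Lib.MPe14b75

namespace FINaux

variable {X : Type} [PartialOrder X] [LocFin X]

/-- There are finitely many simplices with first vertex in a finite set. -/
theorem finite_first (n : ℕ) (S : Set X) (hS : S.Finite) :
    Finite {σ : Ch X n // σ.1 0 ∈ S} := by
  have hU : (⋃ s ∈ S, {y : X | s ≤ y ∨ y ≤ s}).Finite := hS.biUnion fun s _ => LocFin.loc s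
  have := hU.to_subtype
  refine Finite.of_injective
    (β := Fin (n + 1) → ↥(⋃ s ∈ S, {y : X | s ≤ y ∨ y ≤ s}))
    (fun σ j => ⟨σ.1.1 j, Set.mem_biUnion σ.2 (Or.inl (σ.1.2.monotone (Fin.zero_le j)))⟩) ?_
  intro σ τ h
  refine Subtype.ext (Subtype.ext (funext fun j => ?_))
  exact congrArg Subtype.val (congrFun h j)

end FINaux

theorem specFIN : SpecFIN := by
  intro G X _ _ _ _ _ hG n
  constructor
  · obtain ⟨S, hS, hcov⟩ := hG.orb
    have := FINaux.finite_first n S hS
    refine Finite.of_surjective (α := {σ : Ch X n // σ.1 0 ∈ S})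
      (fun σ => (Quotient.mk (MulAction.orbitRel G (Ch X n)) σ.1)) ?_
    intro q
    induction q using Quotient.inductionOn with
    | h σ =>
      obtain ⟨g, s, hs, hgs⟩ := hcov (σ.1 0)
      have h1 : (g⁻¹ • σ).1 0 = s := by
        show g⁻¹ • σ.1 0 = s
        rw [← hgs, inv_smul_smul]
      refine ⟨⟨g⁻¹ • σ, by rw [h1]; exact hs⟩, ?_⟩
      refine Quotient.sound ?_
      exact ⟨g⁻¹, rfl⟩
  · intro σ
    have := hG.stab (σ.1 0)
    refine Finite.of_injective
      (β := MulAction.stabilizer G (σ.1 0))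
      (fun g => ⟨g.1, by
        have h : g.1 • σ = σ := g.2
        exact congrFun (congrArg Subtype.val h) 0⟩) ?_
    intro g h hgh
    have h2 := Subtype.mk.inj hgh
    exact Subtype.ext h2

end Pool.Agent.Lib.MPe14b75
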