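import Pool.Agent.Lib.MP_e14b75_gt.Spec

/-! # MP_e14b75_gt: the cup product form is given by a bounded operator (helper94) -/

set_option autoImplicit false

noncomputable section

namespace Pool.Agent.Lib.MPe14b75

namespace FRMaux

theorem sq_facts {S : Type} (a : l2 S) :
    (Summable fun s => (a s) ^ 2) ∧ ∑' s, (a s) ^ 2 = ‖a‖ ^ 2 := by
  have h1 := lp.summable_inner (𝕜 := ℝ) a a
  have h2 := lp.inner_eq_tsum (𝕜 := ℝ) a a
  have h3 : ∀ s, inner ℝ (a s) (a s) = (a s) ^ 2 := by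
    intro s
    rw [real_inner_self_eq_norm_sq, Real.norm_eq_abs, sq_abs]
  simp only [h3] at h1 h2
  refine ⟨h1, ?_⟩
  rw [← h2, real_inner_self_eq_norm_sq]

variable {X : Type} [PartialOrder X] {m : ℕ}

/-- the estimate of the terms -/
theorem term_le {C : ℝ} {z : Ch X (2 * m + 2) → ℝ} (hz : ∀ ρ, |z ρ| ≤ C)
    (a b : l2 (Ch X (m + 1))) (ρ : Ch X (2 * m + 2)) :
    |z ρ * (a (fr (m + 1) (by omega) ρ) * b (bk (m + 1) (by omega) ρ))| ≤
      |C| / 2 * (|a (fr (m + 1) (by omega) ρ) ^ 2| + |b (bk (m + 1) (by omega) ρ) ^ 2|) := by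
  obtain ⟨x, hx⟩ : ∃ x, x = a (fr (m + 1) (by omega) ρ) := ⟨_, rfl⟩
  obtain ⟨y, hy⟩ : ∃ y, y = b (bk (m + 1) (by omega) ρ) := ⟨_, rfl⟩
  rw [← hx, ← hy, abs_mul]
  have h1 : |z ρ| ≤ |C| := (hz ρ).trans (le_abs_self C)
  have h2 : |x * y| ≤ (|x ^ 2| + |y ^ 2|) / 2 := by
    rw [abs_of_nonneg (sq_nonneg x), abs_of_nonneg (sq_nonneg y), abs_mul]
    nlinarith [sq_nonneg (|x| - |y|), sq_abs x, sq_abs y]
  calc |z ρ| * |x * y| ≤ |C| * ((|x ^ 2| + |y ^ 2|) / 2) :=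
        mul_le_mul h1 h2 (abs_nonneg _) (abs_nonneg _)
    _ = _ := by ring

end FRMaux

open FRMaux in
/-- Module FRM. -/
theorem specFRM (hCNT : SpecCNT) (hSUM : SpecSUM) : SpecFRM := by
  intro G X _ _ _ _ _ hG m z C hz
  obtain ⟨D, -, hfr, hbk⟩ := hCNT G X hG (2 * m + 2)
  have hf := hSUM (Ch X (2 * m + 2)) (Ch X (m + 1)) (fr (m + 1) (by omega)) D
    (fun τ s hs => hfr (m + 1) (by omega) τ s hs)
  have hb := hSUM (Ch X (2 * m + 2)) (Ch X (m + 1)) (bk (m + 1) (by omega)) D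
    (fun τ s hs => hbk (m + 1) (by omega) τ s hs)
  -- the majorant
  have hmaj : ∀ a b : l2 (Ch X (m + 1)), (Summable fun ρ : Ch X (2 * m + 2) =>
      |C| / 2 * (|a (fr (m + 1) (by omega) ρ) ^ 2| + |b (bk (m + 1) (by omega) ρ) ^ 2|)) ∧
      ∑' ρ : Ch X (2 * m + 2),
        |C| / 2 * (|a (fr (m + 1) (by omega) ρ) ^ 2| + |b (bk (m + 1) (by omega) ρ) ^ 2|) ≤
        |C| / 2 * (D * ‖a‖ ^ 2 + D * ‖b‖ ^ 2) := by
    intro a b
    obtain ⟨a1, a2⟩ := sq_facts a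
    obtain ⟨b1, b2⟩ := sq_facts b
    obtain ⟨f1, f2⟩ := hf _ a1
    obtain ⟨g1, g2⟩ := hb _ b1
    have f3 := f1.abs
    have g3 := g1.abs
    refine ⟨(f3.add g3).mul_left _, ?_⟩
    rw [tsum_mul_left, f3.tsum_add g3]
    have f4 : ∑' b : Ch X (m + 1), |a b ^ 2| = ‖a‖ ^ 2 := by
      rw [← a2]
      exact tsum_congr fun s => abs_of_nonneg (sq_nonneg _)
    have g4 : ∑' s : Ch X (m + 1), |b s ^ 2| = ‖b‖ ^ 2 := by
      rw [← b2]
      exact tsum_congr fun s => abs_of_nonneg (sq_nonneg _)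
    rw [f4] at f2
    rw [g4] at g2
    gcongr
  have hsum : ∀ a b : l2 (Ch X (m + 1)), Summable fun ρ : Ch X (2 * m + 2) =>
      z ρ * (a (fr (m + 1) (by omega) ρ) * b (bk (m + 1) (by omega) ρ)) := fun a b =>
    Summable.of_norm_bounded (hmaj a b).1 (fun ρ => term_le hz a b ρ)
  have hbd : ∀ a b : l2 (Ch X (m + 1)), |form z a b| ≤ |C| / 2 * (D * ‖a‖ ^ 2 + D * ‖b‖ ^ 2) := by
    intro a b
    refine le_trans ?_ (hmaj a b).2
    unfold form
    have h1 := (hsum a b).norm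
    have h2 := norm_tsum_le_tsum_norm h1
    rw [← Real.norm_eq_abs]
    exact h2.trans (h1.tsum_le_tsum (fun ρ => term_le hz a b ρ) (hmaj a b).1)
  have hadd1 : ∀ a a' b : l2 (Ch X (m + 1)), form z (a + a') b = form z a b + form z a' b := by
    intro a a' b
    unfold form
    rw [← (hsum a b).tsum_add (hsum a' b)]
    refine tsum_congr fun ρ => ?_
    rw [lp.coeFn_add, Pi.add_apply]
    ring
  have hadd2 : ∀ a b b' : l2 (Ch X (m + 1)), form z a (b + b') = form z a b + form z a b' := by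
    intro a b b'
    unfold form
    rw [← (hsum a b).tsum_add (hsum a b')]
    refine tsum_congr fun ρ => ?_
    rw [lp.coeFn_add, Pi.add_apply]
    ring
  have hsm1 : ∀ (c : ℝ) (a b : l2 (Ch X (m + 1))), form z (c • a) b = c * form z a b := by
    intro c a b
    unfold form
    rw [← tsum_mul_left]
    refine tsum_congr fun ρ => ?_
    rw [lp.coeFn_smul, Pi.smul_apply, smul_eq_mul]
    ring
  have hsm2 : ∀ (c : ℝ) (a b : l2 (Ch X (m + 1))), form z a (c • b) = c * form z a b := by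
    intro c a b
    unfold form
    rw [← tsum_mul_left]
    refine tsum_congr fun ρ => ?_
    rw [lp.coeFn_smul, Pi.smul_apply, smul_eq_mul]
    ring
  -- the estimate by the product of the norms
  have hprod : ∀ a b : l2 (Ch X (m + 1)), ‖form z a b‖ ≤ |C| * D * ‖a‖ * ‖b‖ := by
    intro a b
    rcases eq_or_ne a 0 with rfl | ha
    · have h := hsm1 0 0 b
      rw [zero_smul, zero_mul] at h
      rw [h]
      simp
    rcases eq_or_ne b 0 with rfl | hb'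
    · have h := hsm2 0 a 0
      rw [zero_smul, zero_mul] at h
      rw [h]
      simp
    have na : 0 < ‖a‖ := norm_pos_iff.2 ha
    have nb : 0 < ‖b‖ := norm_pos_iff.2 hb'
    have h1 := hbd (‖a‖⁻¹ • a) (‖b‖⁻¹ • b)
    rw [hsm1, hsm2, norm_smul, norm_smul, norm_inv, norm_inv, norm_norm, norm_norm,
      inv_mul_cancel₀ na.ne', inv_mul_cancel₀ nb.ne', abs_mul, abs_mul,
      abs_of_pos (inv_pos.2 na), abs_of_pos (inv_pos.2 nb)] at h1
    have h2 : |form z a b| = ‖a‖ * ‖b‖ * (‖a‖⁻¹ * (‖b‖⁻¹ * |form z a b|)) := by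
      field_simp
    rw [Real.norm_eq_abs, h2]
    calc ‖a‖ * ‖b‖ * (‖a‖⁻¹ * (‖b‖⁻¹ * |form z a b|))
        ≤ ‖a‖ * ‖b‖ * (|C| / 2 * (D * 1 ^ 2 + D * 1 ^ 2)) := by gcongr
      _ = |C| * D * ‖a‖ * ‖b‖ := by ring
  let B0 : l2 (Ch X (m + 1)) →ₗ[ℝ] l2 (Ch X (m + 1)) →ₗ[ℝ] ℝ :=
    LinearMap.mk₂ ℝ (form z) hadd1 (fun c a b => hsm1 c a b) hadd2 (fun c a b => hsm2 c a b)
  let B : l2 (Ch X (m + 1)) →L[ℝ] l2 (Ch X (m + 1)) →L[ℝ] ℝ :=
    B0.mkContinuous₂ (|C| * D) hprod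
  refine ⟨InnerProductSpace.continuousLinearMapOfBilin (𝕜 := ℝ) B, fun a b => ⟨hsum a b, ?_⟩⟩
  rw [InnerProductSpace.continuousLinearMapOfBilin_apply]
  rfl

end Pool.Agent.Lib.MPe14b75
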