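import Pool.Agent.Lib.MP_e14b75_gt.Spec

/-! Module HDG (MP_e14b75_gt): the form on cocycles only depends on the harmonic parts. -/

set_option autoImplicit false

noncomputable section

namespace Pool.Agent.Lib.MPe14b75

theorem specHDG (hFRM : SpecFRM) (hDCB : SpecDCB) (hVAN : SpecVAN) (hCLS : SpecCLS) : SpecHDG := by
  intro G X _ _ _ _ _ hG m P a ha b hb
  obtain ⟨C, hC⟩ := P.zb
  obtain ⟨T, hT⟩ := hFRM G X hG m P.z C hC
  obtain ⟨hclC, hclH⟩ := hCLS X m P.Y P.Z
  have hd : ∀ τ : {τ : Ch X m // Rel P.Y P.Z τ}, ∃ d : l2 (Ch X (m + 1)), d ∈ Cocy m P.Y P.Z ∧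
      (∀ σ, Rel P.Y P.Z σ → d σ = cob (ind τ.1) σ) ∧
      ∀ a : l2 (Ch X (m + 1)), (∀ σ, ¬ Rel P.Y P.Z σ → a σ = 0) → inner ℝ a d = bdy a τ.1 :=
    fun τ => hDCB X m P.Y P.Z τ.1 τ.2
  choose d hd1 hd2 hd3 using hd
  let E : Submodule ℝ (l2 (Ch X (m + 1))) := Submodule.span ℝ (Set.range d)
  have hE : E ≤ Cocy m P.Y P.Z := Submodule.span_le.2 (by rintro _ ⟨τ, rfl⟩; exact hd1 τ)
  have hD : E.topologicalClosure ≤ Cocy m P.Y P.Z := Submodule.topologicalClosure_minimal _ hE hclC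
  -- the harmonic space is orthogonal to `E`
  have hHE : ∀ h ∈ Harm m P.Y P.Z, ∀ u ∈ E, inner ℝ h u = 0 := by
    intro h hh u hu
    have : E ≤ LinearMap.ker (innerSL ℝ h : l2 (Ch X (m + 1)) →L[ℝ] ℝ).toLinearMap := by
      refine Submodule.span_le.2 ?_
      rintro _ ⟨τ, rfl⟩
      show inner ℝ h (d τ) = 0
      rw [hd3 τ h hh.1.1]
      exact hh.2 τ.1 τ.2
    exact this hu
  -- Hodge decomposition
  have key : ∀ a ∈ Cocy m P.Y P.Z, a - pr (Harm m P.Y P.Z) a ∈ E.topologicalClosure ∧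
      pr (Harm m P.Y P.Z) a ∈ Cocy m P.Y P.Z := by
    intro a ha
    set u := E.topologicalClosure.starProjection a with hu
    have huD : u ∈ E.topologicalClosure := Submodule.starProjection_apply_mem _ _
    have hrD : a - u ∈ (E.topologicalClosure)ᗮ := Submodule.sub_starProjection_mem_orthogonal _
    have hrC : a - u ∈ Cocy m P.Y P.Z := Submodule.sub_mem _ ha (hD huD)
    have hrH : a - u ∈ Harm m P.Y P.Z := by
      refine ⟨hrC, fun τ hτ => ?_⟩
      rw [← hd3 ⟨τ, hτ⟩ (a - u) hrC.1]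
      exact (Submodule.mem_orthogonal' _ _).1 hrD _
        (Submodule.le_topologicalClosure _ (Submodule.subset_span ⟨⟨τ, hτ⟩, rfl⟩))
    have hpr : pr (Harm m P.Y P.Z) a = a - u := by
      unfold pr
      refine Submodule.eq_starProjection_of_mem_orthogonal (Submodule.le_topologicalClosure _ hrH) ?_
      rw [Submodule.orthogonal_closure, sub_sub_cancel]
      have : E.topologicalClosure ≤ (Harm m P.Y P.Z)ᗮ := by
        refine Submodule.topologicalClosure_minimal _ ?_ (Submodule.isClosed_orthogonal _)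
        intro v hv
        rw [Submodule.mem_orthogonal]
        intro h hh
        exact hHE h hh v hv
      exact this huD
    rw [hpr, sub_sub_cancel]
    exact ⟨huD, hrC⟩
  -- the form vanishes on `E`
  have v1 : ∀ b ∈ Cocy m P.Y P.Z, ∀ u ∈ E.topologicalClosure, inner ℝ (T u) b = 0 := by
    intro b hb u hu
    have h1 : E.topologicalClosure ≤ LinearMap.ker ((innerSL ℝ b : l2 (Ch X (m + 1)) →L[ℝ] ℝ).comp T).toLinearMap := by
      refine Submodule.topologicalClosure_minimal _ (Submodule.span_le.2 ?_)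
        (ContinuousLinearMap.isClosed_ker _)
      rintro _ ⟨τ, rfl⟩
      show inner ℝ b (T (d τ)) = 0
      rw [real_inner_comm, (hT _ _).2]
      exact (hVAN G X hG m P τ.1 τ.2 (d τ) (hd1 τ) (hd2 τ) b hb).1
    have h2 : inner ℝ b (T u) = 0 := h1 hu
    rw [real_inner_comm]
    exact h2
  have v2 : ∀ r ∈ Cocy m P.Y P.Z, ∀ u ∈ E.topologicalClosure, inner ℝ (T r) u = 0 := by
    intro r hr u hu
    have h1 : E.topologicalClosure ≤ LinearMap.ker (innerSL ℝ (T r) : l2 (Ch X (m + 1)) →L[ℝ] ℝ).toLinearMap := by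
      refine Submodule.topologicalClosure_minimal _ (Submodule.span_le.2 ?_)
        (ContinuousLinearMap.isClosed_ker _)
      rintro _ ⟨τ, rfl⟩
      show inner ℝ (T r) (d τ) = 0
      rw [(hT _ _).2]
      exact (hVAN G X hG m P τ.1 τ.2 (d τ) (hd1 τ) (hd2 τ) r hr).2
    exact h1 hu
  obtain ⟨ka1, ka2⟩ := key a ha
  obtain ⟨kb1, kb2⟩ := key b hb
  rw [← (hT _ _).2, ← (hT _ _).2]
  have e1 : inner ℝ (T a) b - inner ℝ (T (pr (Harm m P.Y P.Z) a)) b = 0 := by
    rw [← inner_sub_left, ← map_sub]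
    exact v1 b hb _ ka1
  have e2 : inner ℝ (T (pr (Harm m P.Y P.Z) a)) b -
      inner ℝ (T (pr (Harm m P.Y P.Z) a)) (pr (Harm m P.Y P.Z) b) = 0 := by
    rw [← inner_sub_right]
    exact v2 _ ka2 _ kb1
  linarith

end Pool.Agent.Lib.MPe14b75
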