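import Pool.Agent.Lib.MP_e14b75_gt.Spec

/-!
# HIN: the harmonic spaces are invariant
-/

set_option autoImplicit false

noncomputable section

namespace Pool.Agent.Lib.MPe14b75

namespace HINM

section act

variable {G X : Type} [Group G] [PartialOrder X] [MulAction G X] [OrdAct G X]

theorem face_smul {n : ℕ} (i : Fin (n + 2)) (g : G) (σ : Ch X (n + 1)) :
    face i (g • σ) = g • face i σ := rfl

theorem smul_val {n : ℕ} (g : G) (σ : Ch X n) (i : Fin (n + 1)) : (g • σ).1 i = g • σ.1 i := rfl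

theorem inS_smul {Y : Set X} (hY : ∀ (g : G) (x : X), x ∈ Y → g • x ∈ Y) {n : ℕ} (g : G)
    (σ : Ch X n) : InS Y (g • σ) ↔ InS Y σ := by
  constructor
  · intro h i
    have := hY g⁻¹ _ (h i)
    rwa [smul_val, inv_smul_smul] at this
  · intro h i
    exact hY g _ (h i)

theorem rel_smul {Y Z : Set X} (hY : ∀ (g : G) (x : X), x ∈ Y → g • x ∈ Y)
    (hZ : ∀ (g : G) (x : X), x ∈ Z → g • x ∈ Z) {n : ℕ} (g : G) (σ : Ch X n) :
    Rel Y Z (g • σ) ↔ Rel Y Z σ := by
  unfold Rel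
  rw [inS_smul hY, inS_smul hZ]

theorem cob_smul {n : ℕ} (g : G) {a b : Ch X n → ℝ} (h : ∀ s, b (g • s) = a s) (σ : Ch X (n + 1)) :
    cob b (g • σ) = cob a σ := by
  unfold cob
  refine Finset.sum_congr rfl fun i _ => ?_
  rw [face_smul, h]

/-- translation of the fibres of the faces -/
def fib {n : ℕ} (g : G) (τ : Ch X n) :
    {p : Fin (n + 2) × Ch X (n + 1) // face p.1 p.2 = τ} ≃
      {p : Fin (n + 2) × Ch X (n + 1) // face p.1 p.2 = g • τ} where
  toFun p := ⟨(p.1.1, g • p.1.2), by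
    show face p.1.1 (g • p.1.2) = g • τ
    rw [face_smul, p.2]⟩
  invFun p := ⟨(p.1.1, g⁻¹ • p.1.2), by
    show face p.1.1 (g⁻¹ • p.1.2) = τ
    rw [face_smul, p.2, inv_smul_smul]⟩
  left_inv p := by
    apply Subtype.ext
    show (p.1.1, g⁻¹ • g • p.1.2) = p.1
    rw [inv_smul_smul]
  right_inv p := by
    apply Subtype.ext
    show (p.1.1, g • g⁻¹ • p.1.2) = p.1
    rw [smul_inv_smul]

theorem bdy_smul {n : ℕ} (g : G) {a b : Ch X (n + 1) → ℝ} (h : ∀ s, b (g • s) = a s)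
    (τ : Ch X n) : bdy b (g • τ) = bdy a τ := by
  unfold bdy
  rw [← (fib g τ).tsum_eq]
  refine tsum_congr fun p => ?_
  show (-1 : ℝ) ^ (p.1.1 : ℕ) * b (g • p.1.2) = _
  rw [h]

end act

section comp

variable {X : Type} [PartialOrder X] {J : Type} {Y : Set X} {comp : X → J}

theorem comp_eq (hc : ∀ x ∈ Y, ∀ y ∈ Y, x < y → comp x = comp y) {n : ℕ} {σ : Ch X n}
    (hσ : InS Y σ) (i j : Fin (n + 1)) : comp (σ.1 i) = comp (σ.1 j) := by
  rcases lt_trichotomy i j with h | h | h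
  · exact hc _ (hσ i) _ (hσ j) (σ.2 h)
  · rw [h]
  · exact (hc _ (hσ j) _ (hσ i) (σ.2 h)).symm

theorem inS_face {n : ℕ} {σ : Ch X (n + 1)} (hσ : InS Y σ) (i : Fin (n + 2)) :
    InS Y (face i σ) := fun j => hσ (i.succAbove j)

end comp

end HINM

open HINM in
theorem specHIN : SpecHIN := by
  intro G X _ _ _ _ _ m Y Z hY hZ
  constructor
  · intro g a ha b h
    obtain ⟨⟨h1, h2⟩, h3⟩ := ha
    have key : ∀ {n : ℕ} (σ : Ch X n), g • g⁻¹ • σ = σ := fun σ => smul_inv_smul g σ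
    refine ⟨⟨fun σ hσ => ?_, fun σ hσ => ?_⟩, fun τ hτ => ?_⟩
    · rw [← key σ, h]
      apply h1
      rwa [← key σ, rel_smul hY hZ] at hσ
    · rw [← key σ, cob_smul g h]
      apply h2
      rwa [← key σ, inS_smul hY] at hσ
    · rw [← key τ, bdy_smul g h]
      apply h3
      rwa [← key τ, rel_smul hY hZ] at hτ
  · intro J comp hc η hη a ha b hb
    obtain ⟨⟨h1, h2⟩, h3⟩ := ha
    refine ⟨⟨fun σ hσ => ?_, fun σ hσ => ?_⟩, fun τ hτ => ?_⟩
    · rw [hb, h1 σ hσ, mul_zero]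
    · have e1 : cob b σ = η (comp (σ.1 0)) * cob a σ := by
        unfold cob
        rw [Finset.mul_sum]
        refine Finset.sum_congr rfl fun i _ => ?_
        rw [hb]
        have e2 : comp ((face i σ).1 0) = comp (σ.1 0) := comp_eq hc hσ _ _
        rw [e2]
        ring
      rw [e1, h2 σ hσ, mul_zero]
    · have e1 : bdy b τ = η (comp (τ.1 0)) * bdy a τ := by
        unfold bdy
        rw [← tsum_mul_left]
        refine tsum_congr fun p => ?_
        obtain ⟨⟨i, σ⟩, hp⟩ := p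
        show (-1 : ℝ) ^ (i : ℕ) * b σ = η (comp (τ.1 0)) * ((-1 : ℝ) ^ (i : ℕ) * a σ)
        by_cases hσ : InS Y σ
        · rw [hb]
          have e2 : comp (σ.1 0) = comp (τ.1 0) := by
            rw [← hp]
            exact comp_eq hc hσ _ _
          rw [e2]
          ring
        · have e3 : a σ = 0 := h1 σ (fun h => hσ h.1)
          rw [hb, e3]
          ring
      rw [e1, h3 τ hτ, mul_zero]

end Pool.Agent.Lib.MPe14b75
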