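import Pool.Agent.Lib.MP_e14b75_gt.Spec

set_option autoImplicit false

noncomputable section

namespace Pool.Agent.Lib.MPe14b75

namespace LEIaux

open Finset

variable {X : Type} [PartialOrder X]

theorem sa {n : ℕ} (i : Fin (n + 2)) (j : Fin (n + 1)) :
    (i.succAbove j : ℕ) = if (j : ℕ) < i then (j : ℕ) else j + 1 := by
  rw [Fin.succAbove]
  split_ifs with h1 h2 h2
  · rfl
  · exact absurd h1 (by rw [Fin.lt_def]; exact h2)
  · exact absurd (by rw [Fin.lt_def]; exact h2) h1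
  · rfl

theorem f1 {n p : ℕ} (hp : p ≤ n) (σ : Ch X (n + 1)) (i : ℕ) (h1 : i < n + 2) (h2 : i < p + 2) :
    fr p hp (face ⟨i, h1⟩ σ) = face ⟨i, h2⟩ (fr (p + 1) (by omega) σ) := by
  refine Subtype.ext (funext fun j => congrArg σ.1 (Fin.ext ?_))
  simp only [sa]

theorem f2 {n p q : ℕ} (h : p + q = n) (σ : Ch X (n + 1)) (i : ℕ) (h1 : i < n + 2) (h2 : i ≤ p) :
    bk q (by omega) (face ⟨i, h1⟩ σ) = bk q (by omega) σ := by
  refine Subtype.ext (funext fun j => congrArg σ.1 (Fin.ext ?_))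
  simp only [sa]
  split_ifs with h3 <;> omega

theorem f3 {n p : ℕ} (hp : p ≤ n) (σ : Ch X (n + 1)) (i : ℕ) (h1 : i < n + 2) (h2 : p < i) :
    fr p hp (face ⟨i, h1⟩ σ) = fr p (by omega) σ := by
  refine Subtype.ext (funext fun j => congrArg σ.1 (Fin.ext ?_))
  simp only [sa]
  split_ifs with h3 <;> omega

theorem f4 {n p q : ℕ} (h : p + q = n) (σ : Ch X (n + 1)) (i j : ℕ) (h1 : i < n + 2)
    (h2 : j < q + 2) (h3 : i = p + j) :
    bk q (by omega) (face ⟨i, h1⟩ σ) = face ⟨j, h2⟩ (bk (q + 1) (by omega) σ) := by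
  refine Subtype.ext (funext fun j' => congrArg σ.1 (Fin.ext ?_))
  simp only [sa]
  split_ifs with h3 <;> omega

theorem f5 {n p : ℕ} (hp : p ≤ n) (σ : Ch X (n + 1)) (h2 : p + 1 < p + 2) :
    face ⟨p + 1, h2⟩ (fr (p + 1) (by omega) σ) = fr p (by omega) σ := by
  refine Subtype.ext (funext fun j => congrArg σ.1 (Fin.ext ?_))
  simp only [sa]
  split_ifs with h3 <;> omega

theorem f6 {n q : ℕ} (hq : q ≤ n) (σ : Ch X (n + 1)) (h2 : 0 < q + 2) :
    face ⟨0, h2⟩ (bk (q + 1) (by omega) σ) = bk q (by omega) σ := by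
  refine Subtype.ext (funext fun j => congrArg σ.1 (Fin.ext ?_))
  simp only [sa]
  split_ifs with h3 <;> omega

end LEIaux

open LEIaux in
theorem specLEI : SpecLEI := by
  intro X _ p q n h α β σ
  unfold cob
  rw [Finset.sum_fin_eq_sum_range, Finset.sum_fin_eq_sum_range, Finset.sum_fin_eq_sum_range]
  have h0 : n + 2 = (p + 1) + (q + 1) := by omega
  have hsplit : ∀ f : ℕ → ℝ, ∑ i ∈ Finset.range (n + 2), f i
      = ∑ i ∈ Finset.range (p + 1), f i + ∑ i ∈ Finset.range (q + 1), f (p + 1 + i) := by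
    intro f
    rw [h0, Finset.sum_range_add]
  rw [hsplit, Finset.sum_range_succ (n := p + 1), Finset.sum_range_succ' (n := q + 1)]
  have e1 : ∀ i ∈ Finset.range (p + 1), (if h1 : i < n + 2 then
      (-1 : ℝ) ^ ((⟨i, h1⟩ : Fin (n + 2)) : ℕ) * (α (fr p (by omega) (face ⟨i, h1⟩ σ)) *
        β (bk q (by omega) (face ⟨i, h1⟩ σ))) else 0)
      = (if h1 : i < p + 1 + 1 then (-1 : ℝ) ^ ((⟨i, h1⟩ : Fin (p + 1 + 1)) : ℕ) *
        α (face ⟨i, h1⟩ (fr (p + 1) (by omega) σ)) else 0) * β (bk q (by omega) σ) := by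
    intro i hi
    rw [Finset.mem_range] at hi
    rw [dif_pos (by omega), dif_pos (by omega), f1 (by omega) σ i (by omega) (by omega),
      f2 h σ i (by omega) (by omega)]
    ring
  have e2 : ∀ i ∈ Finset.range (q + 1), (if h1 : p + 1 + i < n + 2 then
      (-1 : ℝ) ^ ((⟨p + 1 + i, h1⟩ : Fin (n + 2)) : ℕ) *
        (α (fr p (by omega) (face ⟨p + 1 + i, h1⟩ σ)) *
        β (bk q (by omega) (face ⟨p + 1 + i, h1⟩ σ))) else 0)
      = (-1) ^ p * α (fr p (by omega) σ) * (if h1 : i + 1 < q + 1 + 1 then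
        (-1 : ℝ) ^ ((⟨i + 1, h1⟩ : Fin (q + 1 + 1)) : ℕ) *
        β (face ⟨i + 1, h1⟩ (bk (q + 1) (by omega) σ)) else 0) := by
    intro i hi
    rw [Finset.mem_range] at hi
    rw [dif_pos (by omega), dif_pos (by omega), f3 (by omega) σ (p + 1 + i) (by omega) (by omega),
      f4 h σ (p + 1 + i) (i + 1) (by omega) (by omega) (by omega)]
    show (-1 : ℝ) ^ (p + 1 + i) * _ = (-1) ^ p * α (fr p (by omega) σ) * ((-1) ^ (i + 1) * _)
    ring
  have h3 : p + 1 < p + 1 + 1 := by omega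
  have h4 : 0 < q + 1 + 1 := by omega
  rw [Finset.sum_congr rfl e1, Finset.sum_congr rfl e2, ← Finset.sum_mul, ← Finset.mul_sum,
    dif_pos h3, dif_pos h4, f5 (by omega) σ, f6 (by omega) σ]
  show _ = (_ + (-1 : ℝ) ^ (p + 1) * _) * _ + _ * (_ + (-1) ^ 0 * _)
  ring

end Pool.Agent.Lib.MPe14b75
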