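import Pool.Agent.Lib.MP_e14b75_gt.Spec

/-!
# Module PEQ: projections commute with signed translations
-/

set_option autoImplicit false

noncomputable section

namespace Pool.Agent.Lib.MPe14b75

namespace PEQM

variable {S : Type}

lemma pr_comm (W : Submodule ℝ (l2 S)) (U : l2 S ≃ₗᵢ[ℝ] l2 S)
    (h : ∀ a, a ∈ W.topologicalClosure ↔ U a ∈ W.topologicalClosure) (a : l2 S) :
    pr W (U a) = U (pr W a) := by
  unfold pr
  apply Submodule.eq_starProjection_of_mem_of_inner_eq_zero
  · exact (h _).1 (Submodule.starProjection_apply_mem _ _)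
  · intro w hw
    have h1 : U.symm w ∈ W.topologicalClosure := by
      rw [h, U.apply_symm_apply]
      exact hw
    rw [← map_sub, ← U.apply_symm_apply w, U.inner_map_map]
    exact Submodule.starProjection_inner_eq_zero _ _ h1

lemma tr_eq {G : Type} [Group G] [MulAction G S] {g : G} {ε : S → ℝ} {U : l2 S ≃ₗᵢ[ℝ] l2 S}
    (hU : ∀ (a : l2 S) (s : S), U a (g • s) = ε s * a s) {a b : l2 S}
    (h : ∀ s, b (g • s) = ε s * a s) : b = U a := by
  apply lp.ext
  funext t
  have h1 := h (g⁻¹ • t)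
  have h2 := hU a (g⁻¹ • t)
  rw [smul_inv_smul] at h1 h2
  rw [h1, h2]

lemma inv_iff {G : Type} [Group G] [MulAction G S] {g : G} {U : l2 S ≃ₗᵢ[ℝ] l2 S}
    (hU : ∀ (a : l2 S) (s : S), U a (g • s) = 1 * a s) {W : Submodule ℝ (l2 S)}
    (hW : Inv G W) (a : l2 S) : a ∈ W ↔ U a ∈ W := by
  constructor
  · intro ha
    exact hW g a ha (U a) fun s => by rw [hU, one_mul]
  · intro ha
    refine hW g⁻¹ (U a) ha a fun s => ?_
    have h2 := hU a (g⁻¹ • s)
    rw [smul_inv_smul, one_mul] at h2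
    exact h2.symm

lemma closure_iff (W : Submodule ℝ (l2 S)) (U : l2 S ≃ₗᵢ[ℝ] l2 S)
    (h : ∀ a, a ∈ W ↔ U a ∈ W) (a : l2 S) :
    a ∈ W.topologicalClosure ↔ U a ∈ W.topologicalClosure := by
  constructor
  · intro ha
    exact map_mem_closure U.continuous ha fun x hx => (h x).1 hx
  · intro ha
    have h1 : U.symm (U a) ∈ W.topologicalClosure :=
      map_mem_closure U.symm.continuous ha fun x hx => by
        show U.symm x ∈ W
        rw [h, U.apply_symm_apply]
        exact hx
    rwa [U.symm_apply_apply] at h1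

end PEQM

open PEQM

theorem specPEQ (hTRN : SpecTRN) : SpecPEQ := by
  intro G S _ _
  refine ⟨?_, ?_, ?_, ?_⟩
  · intro g ε hε W hW hinv a b hab s
    obtain ⟨U, hU⟩ := hTRN G S g ε hε
    have h1 : b = U a := tr_eq hU hab
    have h2 : ∀ a, a ∈ W ↔ U a ∈ W := fun a => hinv a (U a) (hU a)
    rw [h1, pr_comm W U (closure_iff W U h2), hU]
  · intro W hW g a ha b hab
    obtain ⟨U, hU⟩ := hTRN G S g (fun _ => 1) fun _ => Or.inl rfl
    have h1 : b = U a := tr_eq hU fun s => by rw [hab, one_mul]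
    rw [h1, Submodule.mem_orthogonal]
    intro w hw
    have h2 : U.symm w ∈ W := by
      rw [inv_iff hU hW, U.apply_symm_apply]
      exact hw
    rw [← U.apply_symm_apply w, U.inner_map_map]
    exact (Submodule.mem_orthogonal _ _).1 ha _ h2
  · intro W V hW hV g a ha b hab
    exact ⟨hW g a ha.1 b hab, hV g a ha.2 b hab⟩
  · intro W V _ hW hV g a ha b hab
    obtain ⟨U, hU⟩ := hTRN G S g (fun _ => 1) fun _ => Or.inl rfl
    have h1 : b = U a := tr_eq hU fun s => by rw [hab, one_mul]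
    rw [h1]
    refine map_mem_closure U.continuous ha fun x hx => ?_
    obtain ⟨w, hw, rfl⟩ := hx
    refine ⟨U w, (inv_iff hU hW w).1 hw, ?_⟩
    exact pr_comm V U (closure_iff V U (inv_iff hU hV)) w

end Pool.Agent.Lib.MPe14b75
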