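import Pool.Agent.Lib.MP_e14b75_gt.Spec

/-! Module RES (MP_e14b75_gt): restriction of cocycles from `M` to `F`. -/

set_option autoImplicit false

noncomputable section

namespace Pool.Agent.Lib.MPe14b75

namespace RESaux

open Classical in
/-- The restriction of a square summable function to a set. -/
theorem exists_restrict {S : Type} (h : l2 S) (A : Set S) :
    ∃ r : l2 S, ∀ s, r s = if s ∈ A then h s else 0 := by
  have hm : Memℓp (fun s => if s ∈ A then h s else 0 : S → ℝ) 2 := by
    refine memℓp_gen ?_
    have h1 : Summable fun s => ‖h s‖ ^ (2 : ENNReal).toReal := (lp.memℓp h).summable (by norm_num)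
    refine Summable.of_nonneg_of_le (fun s => by positivity) (fun s => ?_) h1
    by_cases hs : s ∈ A
    · simp [hs]
    · simp only [hs, if_false, norm_zero]
      rw [Real.zero_rpow (by norm_num)]
      positivity
  exact ⟨⟨_, hm⟩, fun s => rfl⟩

end RESaux

theorem specRES (hCLS : SpecCLS) : SpecRES := by
  intro X _ _ m Y Z h hh
  classical
  obtain ⟨r, hr⟩ := RESaux.exists_restrict h {σ : Ch X (m + 1) | InS Y σ}
  have hrY : ∀ σ, InS Y σ → r σ = h σ := fun σ hσ => by
    rw [hr σ, if_pos (show σ ∈ {σ : Ch X (m + 1) | InS Y σ} from hσ)]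
  have hrN : ∀ σ, ¬ InS Y σ → r σ = 0 := fun σ hσ => by
    rw [hr σ, if_neg (show ¬ σ ∈ {σ : Ch X (m + 1) | InS Y σ} from hσ)]
  refine ⟨r, ⟨?_, ?_⟩, hrY, ?_⟩
  · intro σ hσ
    by_cases hY : InS Y σ
    · rw [hrY σ hY]
      refine hh.1 σ ?_
      rintro ⟨-, h2⟩
      exact hσ ⟨hY, h2⟩
    · exact hrN σ hY
  · intro σ hσ
    have : cob r σ = cob h σ := by
      unfold cob
      refine Finset.sum_congr rfl fun i _ => ?_
      rw [hrY (face i σ) (fun j => hσ _)]
    rw [this]
    exact hh.2 σ (fun _ => Set.mem_univ _)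
  · have key : h - r ∈ (Harm m Y Z)ᗮ := by
      rw [Submodule.mem_orthogonal']
      intro w hw
      rw [lp.inner_eq_tsum]
      have : ∀ σ, inner ℝ ((h - r : l2 (Ch X (m + 1))) σ) (w σ) = 0 := by
        intro σ
        by_cases hσ : InS Y σ
        · have : (h - r : l2 (Ch X (m + 1))) σ = 0 := by
            show h σ - r σ = 0
            rw [hrY σ hσ, sub_self]
          rw [this, inner_zero_left]
        · have : w σ = 0 := hw.1.1 σ (fun hR => hσ hR.1)
          rw [this, inner_zero_right]
      simp only [this, tsum_zero]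
    have h2 : pr (Harm m Y Z) (h - r) = 0 := by
      unfold pr
      rw [Submodule.starProjection_apply_eq_zero_iff, Submodule.orthogonal_closure]
      exact key
    rw [map_sub, sub_eq_zero] at h2
    exact h2

end Pool.Agent.Lib.MPe14b75
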