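import Pool.Agent.Lib.MP_e14b75_gt.Spec

/-! Module STK (MP_e14b75_gt): Stokes. -/

set_option autoImplicit false

noncomputable section

namespace Pool.Agent.Lib.MPe14b75

theorem specSTK (hCNT : SpecCNT) (hSUM : SpecSUM) : SpecSTK := by
  intro G X _ _ _ _ _ hG n c C hc f hf
  obtain ⟨D, hD, -, -⟩ := hCNT G X hG n
  obtain ⟨h1, -⟩ := hSUM (Fin (n + 2) × Ch X (n + 1)) (Ch X n) (fun p => face p.1 p.2) D
    (fun τ s hs => hD τ s hs) f hf
  let F : Fin (n + 2) × Ch X (n + 1) → ℝ := fun p => (-1 : ℝ) ^ (p.1 : ℕ) * c p.2 * f (face p.1 p.2)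
  have hF : Summable F := by
    refine Summable.of_norm_bounded (g := fun p => C * |f (face p.1 p.2)|) (h1.abs.mul_left C) ?_
    intro p
    show ‖(-1 : ℝ) ^ (p.1 : ℕ) * c p.2 * f (face p.1 p.2)‖ ≤ C * |f (face p.1 p.2)|
    rw [Real.norm_eq_abs, abs_mul, abs_mul, abs_pow, abs_neg, abs_one, one_pow, one_mul]
    exact mul_le_mul_of_nonneg_right (hc p.2) (abs_nonneg _)
  have hF' : Summable fun p : Ch X (n + 1) × Fin (n + 2) => F p.swap := hF.prod_symm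
  have e1 : ∀ σ : Ch X (n + 1), ∑' i, F (Prod.swap (σ, i)) = c σ * cob f σ := by
    intro σ
    rw [tsum_fintype]
    unfold cob
    rw [Finset.mul_sum]
    refine Finset.sum_congr rfl fun i _ => ?_
    show (-1 : ℝ) ^ (i : ℕ) * c σ * f (face i σ) = c σ * ((-1 : ℝ) ^ (i : ℕ) * f (face i σ))
    ring
  have e2 : ∀ ρ : Ch X n, ∑' p : (fun p : Fin (n + 2) × Ch X (n + 1) => face p.1 p.2) ⁻¹' {ρ}, F p = bdy c ρ * f ρ := by
    intro ρ
    unfold bdy
    rw [← tsum_mul_right]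
    refine tsum_congr fun p => ?_
    show (-1 : ℝ) ^ (p.1.1 : ℕ) * c p.1.2 * f (face p.1.1 p.1.2) = (-1 : ℝ) ^ (p.1.1 : ℕ) * c p.1.2 * f ρ
    have : face p.1.1 p.1.2 = ρ := p.2
    rw [this]
  have h2 := hF.hasSum.tsum_fiberwise (fun p : Fin (n + 2) × Ch X (n + 1) => face p.1 p.2)
  simp only [e2] at h2
  have h3 := hF'.prod
  simp only [e1] at h3
  refine ⟨h3, h2.summable, ?_⟩
  rw [h2.tsum_eq, ← tsum_congr e1, ← hF'.tsum_prod]
  exact (Equiv.prodComm (Ch X (n + 1)) (Fin (n + 2))).tsum_eq F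

end Pool.Agent.Lib.MPe14b75
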