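import Pool.Agent.Lib.MP_e14b75_gt.Spec

/-!
# SUM: composition with a map with bounded fibres
-/

set_option autoImplicit false

noncomputable section

namespace Pool.Agent.Lib.MPe14b75

theorem specSUM : SpecSUM := by
  classical
  intro α β g D hD f hf
  have hf' : Summable fun b => |f b| := hf.abs
  have key : ∀ s : Finset α, ∑ a ∈ s, |f (g a)| ≤ D * ∑' b, |f b| := by
    intro s
    rw [Finset.sum_comp (fun b => |f b|) g]
    calc ∑ b ∈ s.image g, (s.filter fun a => g a = b).card • |f b|
        ≤ ∑ b ∈ s.image g, (D : ℝ) * |f b| := by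
          apply Finset.sum_le_sum
          intro b _
          rw [nsmul_eq_mul]
          apply mul_le_mul_of_nonneg_right _ (abs_nonneg _)
          have : (s.filter fun a => g a = b).card ≤ D :=
            hD b _ fun a ha => (Finset.mem_filter.1 ha).2
          exact_mod_cast this
      _ = (D : ℝ) * ∑ b ∈ s.image g, |f b| := by rw [Finset.mul_sum]
      _ ≤ D * ∑' b, |f b| := by
          apply mul_le_mul_of_nonneg_left _ (Nat.cast_nonneg D)
          exact hf'.sum_le_tsum _ fun b _ => abs_nonneg _
  have hs : Summable fun a => |f (g a)| :=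
    summable_of_sum_le (fun a => abs_nonneg _) key
  exact ⟨summable_abs_iff.1 hs, hs.tsum_le_of_sum_le key⟩

end Pool.Agent.Lib.MPe14b75
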