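import Pool.Agent.Lib.MP_e14b75_gt.Spec

set_option autoImplicit false

noncomputable section

namespace Pool.Agent.Lib.MPe14b75

namespace TRCaux

open ContinuousLinearMap

section

variable {G S : Type} [Group G] [MulAction G S]

theorem mk_out (g : G) (q : MulAction.orbitRel.Quotient G S) :
    (Quotient.mk (MulAction.orbitRel G S) (g • q.out)) = q := by
  conv_rhs => rw [← Quotient.out_eq q]
  exact Quotient.sound (s := MulAction.orbitRel G S) ⟨g, rfl⟩

theorem exists_smul (s : S) :
    ∃ g : G, g • (Quotient.mk (MulAction.orbitRel G S) s).out = s := by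
  have h : (MulAction.orbitRel G S) s (Quotient.mk (MulAction.orbitRel G S) s).out :=
    Setoid.symm' _ (Quotient.mk_out (s := MulAction.orbitRel G S) s)
  obtain ⟨g, hg⟩ := h
  exact ⟨g, hg⟩

open Classical in
theorem orb (hfin : ∀ s : S, Finite (MulAction.stabilizer G s)) (f : S → ENNReal) :
    ∑' s, f s = ∑' q : MulAction.orbitRel.Quotient G S, ∑' g : G,
      f (g • q.out) / (Nat.card (MulAction.stabilizer G q.out) : ENNReal) := by
  have h1 : ∀ (q : MulAction.orbitRel.Quotient G S) (g : G),
      f (g • q.out) / (Nat.card (MulAction.stabilizer G q.out) : ENNReal) =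
        ∑' s, if s = g • q.out then f s / (Nat.card (MulAction.stabilizer G q.out) : ENNReal)
          else 0 := by
    intro q g
    rw [tsum_ite_eq]
  have h2 : ∀ (s : S) (g : G), (∑' q : MulAction.orbitRel.Quotient G S,
      if s = g • q.out then f s / (Nat.card (MulAction.stabilizer G q.out) : ENNReal) else 0) =
        if s = g • (Quotient.mk (MulAction.orbitRel G S) s).out then
          f s / (Nat.card (MulAction.stabilizer G
            (Quotient.mk (MulAction.orbitRel G S) s).out) : ENNReal) else 0 := by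
    intro s g
    refine tsum_eq_single (Quotient.mk (MulAction.orbitRel G S) s) fun q hq => if_neg fun h => hq ?_
    rw [h, mk_out]
  have h3 : ∀ s : S, (∑' g : G, if s = g • (Quotient.mk (MulAction.orbitRel G S) s).out then
          f s / (Nat.card (MulAction.stabilizer G
            (Quotient.mk (MulAction.orbitRel G S) s).out) : ENNReal) else 0) = f s := by
    intro s
    set x := (Quotient.mk (MulAction.orbitRel G S) s).out with hx
    obtain ⟨g0, hg0⟩ := exists_smul (G := G) s
    rw [← hx] at hg0
    have h4 : {g : G | s = g • x} ≃ MulAction.stabilizer G x :=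
      { toFun := fun g => ⟨g0⁻¹ * g.1, by
          rw [MulAction.mem_stabilizer_iff, mul_smul, ← (show s = g.1 • x from g.2), inv_smul_eq_iff,
            hg0]⟩
        invFun := fun h => ⟨g0 * h.1, by
          show s = (g0 * h.1) • x
          rw [mul_smul, MulAction.mem_stabilizer_iff.mp h.2, hg0]⟩
        left_inv := fun g => Subtype.ext (by simp)
        right_inv := fun h => Subtype.ext (by simp) }
    have := hfin x
    have h5 : Finite {g : G | s = g • x} := Finite.of_equiv _ h4.symm
    have : Fintype {g : G | s = g • x} := Fintype.ofFinite _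
    have h6 : (∑' g : G, if s = g • x then
        f s / (Nat.card (MulAction.stabilizer G x) : ENNReal) else 0) =
        ∑' g : {g : G | s = g • x}, f s / (Nat.card (MulAction.stabilizer G x) : ENNReal) := by
      rw [tsum_subtype {g : G | s = g • x}
        (fun _ => f s / (Nat.card (MulAction.stabilizer G x) : ENNReal))]
      rfl
    rw [h6, tsum_fintype, Finset.sum_const, Finset.card_univ, ← Nat.card_eq_fintype_card,
      Nat.card_congr h4, nsmul_eq_mul]
    refine ENNReal.mul_div_cancel ?_ (ENNReal.natCast_ne_top _)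
    exact_mod_cast Nat.card_pos.ne'
  simp_rw [h1]
  rw [ENNReal.tsum_comm]
  simp_rw [ENNReal.tsum_comm (α := MulAction.orbitRel.Quotient G S)]
  rw [ENNReal.tsum_comm]
  simp_rw [h2, h3]

end

theorem norm_sq_eq {S : Type} (a : l2 S) :
    ENNReal.ofReal (‖a‖ ^ 2) = ∑' t, ENNReal.ofReal ((inner ℝ a (e t)) ^ 2) := by
  classical
  have h1 : ∀ t, inner ℝ a (e t) = a t := by
    intro t
    unfold e
    rw [lp.inner_single_right]
    simp
  have h2 := lp.hasSum_inner (𝕜 := ℝ) a a
  rw [real_inner_self_eq_norm_sq] at h2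
  rw [← h2.tsum_eq, ENNReal.ofReal_tsum_of_nonneg (fun t => real_inner_self_nonneg) h2.summable]
  refine tsum_congr fun t => ?_
  rw [h1, real_inner_self_eq_norm_sq, Real.norm_eq_abs, sq_abs]

theorem tr2_eq {G S : Type} [Group G] [MulAction G S] [Finite (MulAction.orbitRel.Quotient G S)]
    (hfin : ∀ s : S, Finite (MulAction.stabilizer G s)) (X : l2 S →L[ℝ] l2 S) :
    0 ≤ tr2 G X ∧ ENNReal.ofReal (tr2 G X) = ∑' q : MulAction.orbitRel.Quotient G S,
      (∑' t, ENNReal.ofReal ((inner ℝ (X (e q.out)) (e t)) ^ 2)) /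
        (Nat.card (MulAction.stabilizer G q.out) : ENNReal) := by
  have : Fintype (MulAction.orbitRel.Quotient G S) := Fintype.ofFinite _
  unfold tr2
  rw [finsum_eq_sum_of_fintype]
  refine ⟨Finset.sum_nonneg fun q _ => by positivity, ?_⟩
  rw [ENNReal.ofReal_sum_of_nonneg fun q _ => by positivity, tsum_fintype]
  refine Finset.sum_congr rfl fun q _ => ?_
  have := hfin q.out
  rw [ENNReal.ofReal_div_of_pos (by exact_mod_cast Nat.card_pos), ENNReal.ofReal_natCast,
    norm_sq_eq]

end TRCaux

open TRCaux ContinuousLinearMap in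
theorem specTRC : SpecTRC := by
  intro G S _ _ _ hfin ε hε X hX
  obtain ⟨h1, h2⟩ := tr2_eq (G := G) hfin X
  obtain ⟨h3, h4⟩ := tr2_eq (G := G) hfin (adjoint X)
  rw [← ENNReal.ofReal_eq_ofReal_iff h1 h3, h2, h4]
  set m : S → S → ENNReal := fun s t => ENNReal.ofReal ((inner ℝ (X (e s)) (e t)) ^ 2) with hm
  have hmG : ∀ (g : G) (s t : S), m (g • s) (g • t) = m s t := by
    intro g s t
    rw [hm]
    simp only
    rw [hX, mul_pow]
    rcases hε g t with h | h <;> rw [h] <;> simp
  have h5 : ∀ s t : S, ENNReal.ofReal ((inner ℝ ((adjoint X) (e s)) (e t)) ^ 2) = m t s := by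
    intro s t
    rw [adjoint_inner_left, real_inner_comm]
  have h6 : ∀ q : MulAction.orbitRel.Quotient G S,
      (∑' t, ENNReal.ofReal ((inner ℝ (X (e q.out)) (e t)) ^ 2)) =
      ∑' q' : MulAction.orbitRel.Quotient G S, ∑' g : G,
        m q.out (g • q'.out) / (Nat.card (MulAction.stabilizer G q'.out) : ENNReal) := fun q =>
    orb hfin (fun t => m q.out t)
  have h7 : ∀ q' : MulAction.orbitRel.Quotient G S,
      (∑' t, ENNReal.ofReal ((inner ℝ ((adjoint X) (e q'.out)) (e t)) ^ 2)) =
      ∑' q : MulAction.orbitRel.Quotient G S, ∑' g : G,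
        m q.out (g • q'.out) / (Nat.card (MulAction.stabilizer G q.out) : ENNReal) := by
    intro q'
    rw [tsum_congr fun t => h5 _ t, orb hfin (fun t => m t q'.out)]
    refine tsum_congr fun q => ?_
    rw [← (Equiv.inv G).tsum_eq]
    refine tsum_congr fun g => ?_
    rw [← hmG g]
    simp
  simp_rw [h6, h7, div_eq_mul_inv, ← ENNReal.tsum_mul_right]
  rw [ENNReal.tsum_comm]
  refine tsum_congr fun q => tsum_congr fun q' => tsum_congr fun g => ?_
  rw [mul_assoc, mul_assoc, mul_comm (Nat.cast _)⁻¹]

end Pool.Agent.Lib.MPe14b75
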