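import Pool.Agent.Lib.MP_e14b75_gt.Spec

/-!
# Signed translations on square summable functions (module TRN of MP_e14b75_gt)

For a permutation `φ` of `S` and signs `η` the map `a ↦ (t ↦ η t * a (φ t))` is a linear isometry of
`l2 S`; the signed translation by `g` is the one for `φ = g⁻¹`, and its inverse the one for `φ = g`.
-/

set_option autoImplicit false

noncomputable section

namespace Pool.Agent.Lib.MPe14b75

namespace TRNaux

variable {S : Type}

theorem norm_term (φ : Equiv.Perm S) (η : S → ℝ) (hη : ∀ s, η s = 1 ∨ η s = -1) (a : S → ℝ) (t : S) :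
    ‖η t * a (φ t)‖ = ‖a (φ t)‖ := by
  rcases hη t with h | h <;> simp [h]

theorem mem_term (φ : Equiv.Perm S) (η : S → ℝ) (hη : ∀ s, η s = 1 ∨ η s = -1) (a : l2 S) :
    Memℓp (fun t => η t * a (φ t)) 2 := by
  have h0 : (0 : ℝ) < (2 : ENNReal).toReal := by simp
  refine (memℓp_gen_iff h0).2 ?_
  have h1 : Summable fun s => ‖a s‖ ^ (2 : ENNReal).toReal := (memℓp_gen_iff h0).1 (lp.memℓp a)
  have h2 := (Equiv.summable_iff φ).2 h1
  refine h2.congr fun t => ?_
  simp only [Function.comp_apply]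
  rw [norm_term φ η hη]

/-- The map `a ↦ (t ↦ η t * a (φ t))`. -/
def L (φ : Equiv.Perm S) (η : S → ℝ) (hη : ∀ s, η s = 1 ∨ η s = -1) : l2 S →ₗ[ℝ] l2 S where
  toFun a := ⟨fun t => η t * a (φ t), mem_term φ η hη a⟩
  map_add' a b := by
    refine Subtype.ext (funext fun t => ?_)
    show η t * (a (φ t) + b (φ t)) = η t * a (φ t) + η t * b (φ t)
    ring
  map_smul' r a := by
    refine Subtype.ext (funext fun t => ?_)
    show η t * (r * a (φ t)) = r * (η t * a (φ t))
    ring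

theorem L_apply (φ : Equiv.Perm S) (η : S → ℝ) (hη : ∀ s, η s = 1 ∨ η s = -1) (a : l2 S) (t : S) :
    L φ η hη a t = η t * a (φ t) := rfl

theorem norm_L (φ : Equiv.Perm S) (η : S → ℝ) (hη : ∀ s, η s = 1 ∨ η s = -1) (a : l2 S) :
    ‖L φ η hη a‖ = ‖a‖ := by
  have h0 : (0 : ℝ) < (2 : ENNReal).toReal := by simp
  rw [lp.norm_eq_tsum_rpow h0, lp.norm_eq_tsum_rpow h0]
  congr 1
  rw [← Equiv.tsum_eq φ (fun s => ‖a s‖ ^ (2 : ENNReal).toReal)]
  refine tsum_congr fun t => ?_
  rw [L_apply, norm_term φ η hη]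

end TRNaux

open TRNaux in
/-- Signed translations are surjective linear isometries. -/
theorem specTRN : SpecTRN := by
  intro G S _ _ g ε hε
  have hε' : ∀ t : S, ε (g⁻¹ • t) = 1 ∨ ε (g⁻¹ • t) = -1 := fun t => hε _
  have hsq : ∀ s, ε s * ε s = 1 := fun s => by
    rcases hε s with h | h <;> rw [h] <;> norm_num
  have hfg : (L (MulAction.toPerm g⁻¹) (fun t => ε (g⁻¹ • t)) hε').comp
      (L (MulAction.toPerm g) ε hε) = LinearMap.id := by
    refine LinearMap.ext fun b => Subtype.ext (funext fun t => ?_)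
    show ε (g⁻¹ • t) * (ε (g⁻¹ • t) * b (g • (g⁻¹ • t))) = b t
    rw [← mul_assoc, hsq, one_mul, smul_inv_smul]
  have hgf : (L (MulAction.toPerm g) ε hε).comp
      (L (MulAction.toPerm g⁻¹) (fun t => ε (g⁻¹ • t)) hε') = LinearMap.id := by
    refine LinearMap.ext fun b => Subtype.ext (funext fun t => ?_)
    show ε t * (ε (g⁻¹ • (g • t)) * b (g⁻¹ • (g • t))) = b t
    rw [inv_smul_smul, ← mul_assoc, hsq, one_mul]
  refine ⟨⟨LinearEquiv.ofLinearMap _ _ hfg hgf, fun a => norm_L _ _ hε' a⟩, fun a s => ?_⟩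
  show ε (g⁻¹ • (g • s)) * a (g⁻¹ • (g • s)) = ε s * a s
  rw [inv_smul_smul]

end Pool.Agent.Lib.MPe14b75
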