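import Pool.Agent.Lib.MP_e14b75_gt.Spec

set_option autoImplicit false

noncomputable section

namespace Pool.Agent.Lib.MPe14b75

namespace TWIaux

theorem e_apply {S : Type} (s t : S) : (e s : l2 S) t = ind s t := by
  classical
  unfold e ind
  rw [lp.single_apply]
  by_cases h : t = s
  · subst h
    simp
  · simp [h]

theorem inner_e {S : Type} (a : l2 S) (s : S) : inner ℝ a (e s) = a s := by
  classical
  unfold e
  rw [lp.inner_single_right]
  simp

theorem fr_smul {G X : Type} [Group G] [PartialOrder X] [MulAction G X] [OrdAct G X] {n : ℕ}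
    (p : ℕ) (h : p ≤ n) (g : G) (ρ : Ch X n) : fr p h (g • ρ) = g • fr p h ρ := rfl

theorem bk_smul {G X : Type} [Group G] [PartialOrder X] [MulAction G X] [OrdAct G X] {n : ℕ}
    (p : ℕ) (h : p ≤ n) (g : G) (ρ : Ch X n) : bk p h (g • ρ) = g • bk p h ρ := rfl

end TWIaux

open TWIaux in
theorem specTWI : SpecTWI := by
  intro G X _ _ _ _ m P T hT g a b hab s
  have h1 : T b (g • s) = form P.z b (e (g • s)) := by rw [← hT, inner_e]
  have h2 : T a s = form P.z a (e s) := by rw [← hT, inner_e]
  rw [h1, h2]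
  unfold form
  rw [← tsum_mul_left, ← (MulAction.toPerm g : Equiv.Perm (Ch X (2 * m + 2))).tsum_eq]
  refine tsum_congr fun ρ => ?_
  rw [MulAction.toPerm_apply, fr_smul, bk_smul, hab, P.zG, e_apply, e_apply]
  unfold ind
  by_cases hs : bk (m + 1) (by omega) ρ = s
  · rw [hs, if_pos rfl, if_pos rfl]
    by_cases hz : P.z ρ = 0
    · rw [hz]
      ring
    · have hin : InS P.Y ρ := by
        by_contra hcon
        exact hz (P.zY ρ hcon)
      have hlt : ρ.1 0 < s.1 0 := by
        rw [← hs]
        apply ρ.2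
        rw [Fin.lt_def]
        show 0 < 2 * m + 2 - (m + 1) + 0
        omega
      have hs0 : s.1 0 ∈ P.Y := by
        rw [← hs]
        exact hin _
      rw [P.hcomp _ (hin 0) _ hs0 hlt]
      ring
  · have hs' : ¬ g • bk (m + 1) (by omega) ρ = g • s := fun h => hs (smul_left_cancel g h)
    rw [if_neg hs, if_neg hs']
    ring

end Pool.Agent.Lib.MPe14b75
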