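import Pool.Agent.Lib.MP_e14b75_gt.Spec

/-!
# Coboundaries are in the kernel of the form (module VAN of MP_e14b75_gt)
-/

set_option autoImplicit false

noncomputable section

namespace Pool.Agent.Lib.MPe14b75

namespace VANaux

variable {X : Type} [PartialOrder X]

theorem inS_fr {Y : Set X} {n : ℕ} (p : ℕ) (h : p ≤ n) {σ : Ch X n} (hs : InS Y σ) :
    InS Y (fr p h σ) :=
  fun j => hs ⟨j.1, by omega⟩

theorem inS_bk {Y : Set X} {n : ℕ} (q : ℕ) (h : q ≤ n) {σ : Ch X n} (hs : InS Y σ) :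
    InS Y (bk q h σ) :=
  fun j => hs ⟨n - q + j.1, by omega⟩

theorem inS_face {Y : Set X} {n : ℕ} (i : Fin (n + 2)) {σ : Ch X (n + 1)} (hs : InS Y σ) :
    InS Y (face i σ) :=
  fun j => hs (i.succAbove j)

theorem ind_ne {S : Type} {τ s : S} (h : s ≠ τ) : ind τ s = 0 := by
  unfold ind
  exact if_neg h

theorem ind_zero {Z : Set X} {n : ℕ} {τ s : Ch X n} (h : ¬ InS Z τ) (hs : InS Z s) :
    ind τ s = 0 :=
  ind_ne fun h' => h (h' ▸ hs)

/-- On the simplices of `Y`, `d = cob (ind τ)`. -/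
theorem d_eq {m : ℕ} {Y Z : Set X} {τ : Ch X m} (hτ : Rel Y Z τ) {d : l2 (Ch X (m + 1))}
    (hd : d ∈ Cocy m Y Z) (hd' : ∀ σ, Rel Y Z σ → d σ = cob (ind τ) σ) {σ : Ch X (m + 1)}
    (hσ : InS Y σ) : d σ = cob (ind τ) σ := by
  by_cases hz : InS Z σ
  · rw [hd.1 σ (fun h => h.2 hz)]
    unfold cob
    symm
    refine Finset.sum_eq_zero fun i _ => ?_
    rw [ind_zero hτ.2 (inS_face i hz), mul_zero]
  · exact hd' σ ⟨hσ, hz⟩

theorem finite_of_card_le {α : Type} {s : Set α} {D : ℕ}
    (h : ∀ t : Finset α, (∀ a ∈ t, a ∈ s) → t.card ≤ D) : s.Finite := by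
  by_contra hs
  obtain ⟨t, ht, hc⟩ := Set.Infinite.exists_subset_card_eq hs (D + 1)
  have := h t (fun a ha => ht ha)
  omega

theorem key {G : Type} [Group G] [MulAction G X] [OrdAct G X] [LocFin X] (hSTK : SpecSTK)
    (hG : Geom G X) {m : ℕ} (P : Tidy G X m) (f : Ch X (2 * m + 1) → ℝ)
    (hf : (Function.support f).Finite) (hfz : ∀ π, InS P.Z π → f π = 0) :
    ∑' ρ, P.z ρ * cob f ρ = 0 := by
  obtain ⟨C, hC⟩ := P.zb
  obtain ⟨_, _, h3⟩ := hSTK G X hG (2 * m + 1) P.z C hC f (summable_of_hasFiniteSupport hf)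
  refine h3.trans ?_
  have h4 : ∀ π, bdy P.z π * f π = 0 := by
    intro π
    by_cases hz : InS P.Z π
    · rw [hfz π hz, mul_zero]
    · rw [P.zcyc π hz, zero_mul]
  simp only [h4, tsum_zero]

end VANaux

open VANaux in
theorem specVAN (hCNT : SpecCNT) (hLEI : SpecLEI) (hSTK : SpecSTK) (_hFRM : SpecFRM) :
    SpecVAN := by
  intro G X _ _ _ _ _ hG m P τ hτ d hd hd' b hb
  obtain ⟨D, -, hD1, hD2⟩ := hCNT G X hG (2 * m + 1)
  constructor
  · have h1 := key hSTK hG P
      (fun π : Ch X (2 * m + 1) => ind τ (fr m (by omega) π) * b (bk (m + 1) (by omega) π))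
      (by
        refine Set.Finite.subset (finite_of_card_le (D := D)
          (s := {π : Ch X (2 * m + 1) | fr m (by omega) π = τ}) fun t ht =>
            hD1 m (by omega) τ t ht) ?_
        intro π hπ
        by_contra hne
        exact hπ (by
          show ind τ (fr m (by omega) π) * b (bk (m + 1) (by omega) π) = 0
          rw [ind_ne hne, zero_mul]))
      (fun π hπ => by
        show ind τ (fr m (by omega) π) * b (bk (m + 1) (by omega) π) = 0
        rw [ind_zero hτ.2 (inS_fr m _ hπ), zero_mul])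
    rw [← h1]
    refine tsum_congr fun ρ => ?_
    by_cases hρ : InS P.Y ρ
    · have h2 := hLEI X m (m + 1) (2 * m + 1) (by omega) (ind τ) b ρ
      have h3 : cob (b : Ch X (m + 1) → ℝ) (bk (m + 1 + 1) (by omega) ρ) = 0 :=
        hb.2 _ (inS_bk _ _ hρ)
      rw [h3, mul_zero, add_zero] at h2
      rw [h2, d_eq hτ hd hd' (inS_fr _ _ hρ)]
    · rw [P.zY ρ hρ, zero_mul, zero_mul]
  · have h1 := key hSTK hG P
      (fun π : Ch X (2 * m + 1) => b (fr (m + 1) (by omega) π) * ind τ (bk m (by omega) π))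
      (by
        refine Set.Finite.subset (finite_of_card_le (D := D)
          (s := {π : Ch X (2 * m + 1) | bk m (by omega) π = τ}) fun t ht =>
            hD2 m (by omega) τ t ht) ?_
        intro π hπ
        by_contra hne
        exact hπ (by
          show b (fr (m + 1) (by omega) π) * ind τ (bk m (by omega) π) = 0
          rw [ind_ne hne, mul_zero]))
      (fun π hπ => by
        show b (fr (m + 1) (by omega) π) * ind τ (bk m (by omega) π) = 0
        rw [ind_zero hτ.2 (inS_bk m _ hπ), mul_zero])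
    have h5 : form P.z b d = (-1 : ℝ) ^ (m + 1) * ∑' ρ, P.z ρ *
        cob (fun π : Ch X (2 * m + 1) =>
          b (fr (m + 1) (by omega) π) * ind τ (bk m (by omega) π)) ρ := by
      rw [← tsum_mul_left]
      refine tsum_congr fun ρ => ?_
      by_cases hρ : InS P.Y ρ
      · have h2 := hLEI X (m + 1) m (2 * m + 1) (by omega) b (ind τ) ρ
        have h3 : cob (b : Ch X (m + 1) → ℝ) (fr (m + 1 + 1) (by omega) ρ) = 0 :=
          hb.2 _ (inS_fr _ _ hρ)
        rw [h3, zero_mul, zero_add] at h2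
        rw [h2, d_eq hτ hd hd' (inS_bk _ _ hρ)]
        have h6 : (-1 : ℝ) ^ (m + 1) * (-1 : ℝ) ^ (m + 1) = 1 := by
          rw [← mul_pow]
          norm_num
        linear_combination (-(P.z ρ * (b (fr (m + 1) (by omega) ρ) *
          cob (ind τ) (bk (m + 1) (by omega) ρ)))) * h6
      · rw [P.zY ρ hρ, zero_mul, zero_mul, mul_zero]
    rw [h5, h1, mul_zero]

end Pool.Agent.Lib.MPe14b75
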