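import Pool.Agent.Lib.MP_e14b75_gt.MA2
import Pool.Agent.Lib.MP_e14b75_gt.CLS
import Pool.Agent.Lib.MP_e14b75_gt.CNT
import Pool.Agent.Lib.MP_e14b75_gt.DAD
import Pool.Agent.Lib.MP_e14b75_gt.DCB
import Pool.Agent.Lib.MP_e14b75_gt.DDZ
import Pool.Agent.Lib.MP_e14b75_gt.DIM
import Pool.Agent.Lib.MP_e14b75_gt.FIN
import Pool.Agent.Lib.MP_e14b75_gt.FRM
import Pool.Agent.Lib.MP_e14b75_gt.HDG
import Pool.Agent.Lib.MP_e14b75_gt.HIN
import Pool.Agent.Lib.MP_e14b75_gt.ISO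
import Pool.Agent.Lib.MP_e14b75_gt.LEI
import Pool.Agent.Lib.MP_e14b75_gt.PEQ
import Pool.Agent.Lib.MP_e14b75_gt.RES
import Pool.Agent.Lib.MP_e14b75_gt.STK
import Pool.Agent.Lib.MP_e14b75_gt.SUM
import Pool.Agent.Lib.MP_e14b75_gt.TRC
import Pool.Agent.Lib.MP_e14b75_gt.TRN
import Pool.Agent.Lib.MP_e14b75_gt.TWI
import Pool.Agent.Lib.MP_e14b75_gt.VAN

/-!
# `L²`-homology of tidy pairs (MP_e14b75_gt): the final theorem
-/

set_option autoImplicit false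

noncomputable section

namespace Pool.Agent.Lib.MPe14b75

theorem stk : SpecSTK := specSTK specCNT specSUM

theorem frm : SpecFRM := specFRM specCNT specSUM

theorem iso : SpecISO := specISO specLEI stk frm

theorem dcb : SpecDCB := specDCB specDDZ

theorem van : SpecVAN := specVAN specCNT specLEI stk frm

theorem hdg : SpecHDG := specHDG frm dcb van specCLS

theorem res : SpecRES := specRES specCLS

theorem dim : SpecDIM := specDIM specTRN specTRC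

theorem peq : SpecPEQ := specPEQ specTRN

/-- The final theorem, see `Results/MP_e14b75_gt/HalfRank.lean`. -/
theorem final (G X : Type) [Group G] [PartialOrder X] [MulAction G X] [OrdAct G X] [LocFin X]
    (hG : Geom G X) (m : ℕ) (P : Tidy G X m) (Z' : Set X)
    (hZ' : ∀ (g : G) (x : X), x ∈ Z' → g • x ∈ Z') :
    (∀ h ∈ Harm m Set.univ P.Z, ∀ h' ∈ Harm m Set.univ Z',
      form P.z (pr (Harm m P.Y P.Z) h) (pr (Harm m P.Y Z') h') = 0) ∧
    (∀ R : Submodule ℝ (l2 (Ch X (m + 1))), IsClosed (R : Set (l2 (Ch X (m + 1)))) → Inv G R →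
      (∀ a ∈ Harm m P.Y P.Z, (∀ b ∈ Harm m P.Y Z', form P.z a b = 0) → a ∈ R) →
      gdim G ((Harm m P.Y P.Z).map
          (pr (Harm m Set.univ P.Z) : l2 (Ch X (m + 1)) →ₗ[ℝ] l2 (Ch X (m + 1)))) +
        gdim G ((Harm m P.Y Z').map
          (pr (Harm m Set.univ Z') : l2 (Ch X (m + 1)) →ₗ[ℝ] l2 (Ch X (m + 1)))) ≤
            gdim G (Harm m P.Y Z') + gdim G R) ∧
    ((∀ a ∈ Harm m P.Y P.Z, (∀ b ∈ Harm m P.Y Z', form P.z a b = 0) → a = 0) →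
      gdim G ((Harm m P.Y P.Z).map
          (pr (Harm m Set.univ P.Z) : l2 (Ch X (m + 1)) →ₗ[ℝ] l2 (Ch X (m + 1)))) +
        gdim G ((Harm m P.Y Z').map
          (pr (Harm m Set.univ Z') : l2 (Ch X (m + 1)) →ₗ[ℝ] l2 (Ch X (m + 1)))) ≤
            gdim G (Harm m P.Y Z')) ∧
    (∀ N : Submodule ℝ (l2 (Ch X (m + 1))), IsClosed (N : Set (l2 (Ch X (m + 1)))) → Inv G N →
      (∀ a ∈ Harm m P.Y P.Z, (∀ b ∈ N, inner ℝ a b = 0) → form P.z a a = 0 → a = 0) →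
      gdim G ((Harm m P.Y P.Z).map
          (pr (Harm m Set.univ P.Z) : l2 (Ch X (m + 1)) →ₗ[ℝ] l2 (Ch X (m + 1)))) ≤ gdim G N) ∧
    ((∀ a ∈ Harm m P.Y P.Z, form P.z a a = 0 → a = 0) →
      ∀ a ∈ Harm m P.Y P.Z, pr (Harm m Set.univ P.Z) a = 0) ∧
    (gdim G ((Harm m P.Y P.Z).map
        (pr (Harm m Set.univ P.Z) : l2 (Ch X (m + 1)) →ₗ[ℝ] l2 (Ch X (m + 1)))) = 0 →
      ∀ a ∈ Harm m P.Y P.Z, pr (Harm m Set.univ P.Z) a = 0) := by
  obtain ⟨h1, h2, h3⟩ := main2 specCNT specLEI stk frm dcb iso specCLS res specTRN dim specDAD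
    specFIN specHIN specTWI peq G X hG m P Z' hZ' _ _ _ _ rfl rfl rfl rfl
  obtain ⟨-, -, -, h4, h5, h6⟩ := main frm iso specCLS hdg res specTRN dim specDAD
    specFIN specHIN specTWI peq G X hG m P _ _ _ rfl rfl rfl
  exact ⟨h1, h2, h3, h4, h5, h6⟩

end Pool.Agent.Lib.MPe14b75
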