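import Pool.Agent.Lib.MP_e14b75_gt.Spec

set_option autoImplicit false

noncomputable section

namespace Pool.Agent.Lib.MPe14b75

/-- **ISO**: the cup product form of two cocycles on `M`, the first of which vanishes on `∂M`,
is `0`. -/
theorem specISO (hLEI : SpecLEI) (hSTK : SpecSTK) (hFRM : SpecFRM) : SpecISO := by
  classical
  intro G X _ _ _ _ _ hG m P a b ha hca hcb
  set f : Ch X (2 * m + 2) → ℝ := fun ρ =>
    a (fr (m + 1) (by omega) ρ) * b (bk (m + 1) (by omega) ρ) with hf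
  have hfs : Summable f := by
    obtain ⟨T, hT⟩ := hFRM G X hG m (fun _ => 1) 1 (fun _ => by simp)
    have h := (hT a b).1
    simp only [one_mul] at h
    exact h
  have hcobf : ∀ σ : Ch X (2 * m + 2 + 1), cob f σ = 0 := by
    intro σ
    have h := hLEI X (m + 1) (m + 1) (2 * m + 2) (by omega) (fun τ => a τ) (fun τ => b τ) σ
    rw [hf, h]
    have h1 := hca (fr (m + 1 + 1) (by omega) σ)
    have h2 := hcb (bk (m + 1 + 1) (by omega) σ)
    rw [h1, h2]
    ring
  -- the sum over the component `j` is `0`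
  have hj : ∀ j : P.J, ∑' ρ : Ch X (2 * m + 2),
      (if P.comp (ρ.1 0) = j then P.z ρ * f ρ else 0) = 0 := by
    intro j
    obtain ⟨C, hC⟩ := P.cb j
    obtain ⟨-, -, h3⟩ := hSTK G X hG (2 * m + 2) (P.c j) C hC f hfs
    have h4 : ∀ ρ : Ch X (2 * m + 2), bdy (P.c j) ρ * f ρ =
        if P.comp (ρ.1 0) = j then P.z ρ * f ρ else 0 := by
      intro ρ
      by_cases hρ : InS P.Z ρ
      · have h5 : f ρ = 0 := by
          rw [hf]
          have h6 : a (fr (m + 1) (by omega) ρ) = 0 := ha _ (fun i => hρ _)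
          simp only [h6, zero_mul]
        simp [h5]
      · rw [P.cbdy j ρ hρ]
        split_ifs <;> simp
    rw [← tsum_congr h4, ← h3]
    simp [hcobf]
  obtain ⟨C, hC⟩ := P.zb
  obtain ⟨T, hT⟩ := hFRM G X hG m P.z C hC
  have hs : Summable fun ρ => P.z ρ * f ρ := (hT a b).1
  have h7 := hs.hasSum.tsum_fiberwise (fun ρ : Ch X (2 * m + 2) => P.comp (ρ.1 0))
  have h8 : (fun j : P.J => ∑' ρ : (fun ρ : Ch X (2 * m + 2) => P.comp (ρ.1 0)) ⁻¹' {j},
      P.z ρ * f ρ) = fun _ => 0 := by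
    funext j
    rw [tsum_subtype ((fun ρ : Ch X (2 * m + 2) => P.comp (ρ.1 0)) ⁻¹' {j})
      (fun ρ => P.z ρ * f ρ), ← hj j]
    refine tsum_congr fun ρ => ?_
    simp only [Set.indicator, Set.mem_preimage, Set.mem_singleton_iff]
  rw [h8] at h7
  exact (hasSum_zero.unique h7).symm

end Pool.Agent.Lib.MPe14b75
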