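import Pool.Agent.Lib.MP_e14b75_gt.VAN

/-!
# Coboundaries are in the kernel of the form, mixed boundary conditions (MP_e14b75_gt)

`VAN.lean` (helper49) with a second set `Z'` in the second argument of the form.
-/

set_option autoImplicit false

noncomputable section

namespace Pool.Agent.Lib.MPe14b75

namespace VA2aux

open VANaux

variable {X : Type} [PartialOrder X]

theorem first (hCNT : SpecCNT) (hLEI : SpecLEI) (hSTK : SpecSTK) {G : Type} [Group G]
    [MulAction G X] [OrdAct G X] [LocFin X] (hG : Geom G X) {m : ℕ} (P : Tidy G X m) (τ : Ch X m)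
    (hτ : Rel P.Y P.Z τ) (d : l2 (Ch X (m + 1))) (hd : d ∈ Cocy m P.Y P.Z)
    (hd' : ∀ σ, Rel P.Y P.Z σ → d σ = cob (ind τ) σ) (b : l2 (Ch X (m + 1)))
    (hb : ∀ σ, InS P.Y σ → cob b σ = 0) : form P.z d b = 0 := by
  obtain ⟨D, -, hD1, hD2⟩ := hCNT G X hG (2 * m + 1)
  have h1 := key hSTK hG P
    (fun π : Ch X (2 * m + 1) => ind τ (fr m (by omega) π) * b (bk (m + 1) (by omega) π))
    (by
      refine Set.Finite.subset (finite_of_card_le (D := D)
        (s := {π : Ch X (2 * m + 1) | fr m (by omega) π = τ}) fun t ht =>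
          hD1 m (by omega) τ t ht) ?_
      intro π hπ
      by_contra hne
      exact hπ (by
        show ind τ (fr m (by omega) π) * b (bk (m + 1) (by omega) π) = 0
        rw [ind_ne hne, zero_mul]))
    (fun π hπ => by
      show ind τ (fr m (by omega) π) * b (bk (m + 1) (by omega) π) = 0
      rw [ind_zero hτ.2 (inS_fr m _ hπ), zero_mul])
  rw [← h1]
  refine tsum_congr fun ρ => ?_
  by_cases hρ : InS P.Y ρ
  · have h2 := hLEI X m (m + 1) (2 * m + 1) (by omega) (ind τ) b ρ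
    have h3 : cob (b : Ch X (m + 1) → ℝ) (bk (m + 1 + 1) (by omega) ρ) = 0 :=
      hb _ (inS_bk _ _ hρ)
    rw [h3, mul_zero, add_zero] at h2
    rw [h2, d_eq hτ hd hd' (inS_fr _ _ hρ)]
  · rw [P.zY ρ hρ, zero_mul, zero_mul]

theorem second (hCNT : SpecCNT) (hLEI : SpecLEI) (hSTK : SpecSTK) {G : Type} [Group G]
    [MulAction G X] [OrdAct G X] [LocFin X] (hG : Geom G X) {m : ℕ} (P : Tidy G X m) (Z' : Set X)
    (τ : Ch X m) (hτ : Rel P.Y Z' τ) (d : l2 (Ch X (m + 1))) (hd : d ∈ Cocy m P.Y Z')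
    (hd' : ∀ σ, Rel P.Y Z' σ → d σ = cob (ind τ) σ) (b : l2 (Ch X (m + 1)))
    (hb : b ∈ Cocy m P.Y P.Z) : form P.z b d = 0 := by
  obtain ⟨D, -, hD1, hD2⟩ := hCNT G X hG (2 * m + 1)
  have h1 := key hSTK hG P
    (fun π : Ch X (2 * m + 1) => b (fr (m + 1) (by omega) π) * ind τ (bk m (by omega) π))
    (by
      refine Set.Finite.subset (finite_of_card_le (D := D)
        (s := {π : Ch X (2 * m + 1) | bk m (by omega) π = τ}) fun t ht =>
          hD2 m (by omega) τ t ht) ?_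
      intro π hπ
      by_contra hne
      exact hπ (by
        show b (fr (m + 1) (by omega) π) * ind τ (bk m (by omega) π) = 0
        rw [ind_ne hne, mul_zero]))
    (fun π hπ => by
      show b (fr (m + 1) (by omega) π) * ind τ (bk m (by omega) π) = 0
      rw [hb.1 _ (fun h => h.2 (inS_fr (m + 1) _ hπ)), zero_mul])
  have h5 : form P.z b d = (-1 : ℝ) ^ (m + 1) * ∑' ρ, P.z ρ *
      cob (fun π : Ch X (2 * m + 1) =>
        b (fr (m + 1) (by omega) π) * ind τ (bk m (by omega) π)) ρ := by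
    rw [← tsum_mul_left]
    refine tsum_congr fun ρ => ?_
    by_cases hρ : InS P.Y ρ
    · have h2 := hLEI X (m + 1) m (2 * m + 1) (by omega) b (ind τ) ρ
      have h3 : cob (b : Ch X (m + 1) → ℝ) (fr (m + 1 + 1) (by omega) ρ) = 0 :=
        hb.2 _ (inS_fr _ _ hρ)
      rw [h3, zero_mul, zero_add] at h2
      rw [h2, d_eq hτ hd hd' (inS_bk _ _ hρ)]
      have h6 : (-1 : ℝ) ^ (m + 1) * (-1 : ℝ) ^ (m + 1) = 1 := by
        rw [← mul_pow]
        norm_num
      linear_combination (-(P.z ρ * (b (fr (m + 1) (by omega) ρ) *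
        cob (ind τ) (bk (m + 1) (by omega) ρ)))) * h6
    · rw [P.zY ρ hρ, zero_mul, zero_mul, mul_zero]
  rw [h5, h1, mul_zero]

end VA2aux

namespace HD2aux

/-- Hodge decomposition: the coboundaries `d τ` and the harmonic part. -/
theorem decomp (hDCB : SpecDCB) (hCLS : SpecCLS) {X : Type} [PartialOrder X] [LocFin X] (m : ℕ)
    (Y Z : Set X) : ∃ E : Submodule ℝ (l2 (Ch X (m + 1))),
      (∀ B : Submodule ℝ (l2 (Ch X (m + 1))), IsClosed (B : Set (l2 (Ch X (m + 1)))) →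
        (∀ τ, Rel Y Z τ → ∀ d ∈ Cocy m Y Z, (∀ σ, Rel Y Z σ → d σ = cob (ind τ) σ) → d ∈ B) →
          E ≤ B) ∧
      ∀ a ∈ Cocy m Y Z, a - pr (Harm m Y Z) a ∈ E ∧ pr (Harm m Y Z) a ∈ Cocy m Y Z := by
  obtain ⟨hclC, hclH⟩ := hCLS X m Y Z
  have hd : ∀ τ : {τ : Ch X m // Rel Y Z τ}, ∃ d : l2 (Ch X (m + 1)), d ∈ Cocy m Y Z ∧
      (∀ σ, Rel Y Z σ → d σ = cob (ind τ.1) σ) ∧
      ∀ a : l2 (Ch X (m + 1)), (∀ σ, ¬ Rel Y Z σ → a σ = 0) → inner ℝ a d = bdy a τ.1 :=
    fun τ => hDCB X m Y Z τ.1 τ.2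
  choose d hd1 hd2 hd3 using hd
  let E : Submodule ℝ (l2 (Ch X (m + 1))) := Submodule.span ℝ (Set.range d)
  have hE : E ≤ Cocy m Y Z := Submodule.span_le.2 (by rintro _ ⟨τ, rfl⟩; exact hd1 τ)
  have hD : E.topologicalClosure ≤ Cocy m Y Z := Submodule.topologicalClosure_minimal _ hE hclC
  have hHE : ∀ h ∈ Harm m Y Z, ∀ u ∈ E, inner ℝ h u = 0 := by
    intro h hh u hu
    have : E ≤ LinearMap.ker (innerSL ℝ h : l2 (Ch X (m + 1)) →L[ℝ] ℝ).toLinearMap := by
      refine Submodule.span_le.2 ?_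
      rintro _ ⟨τ, rfl⟩
      show inner ℝ h (d τ) = 0
      rw [hd3 τ h hh.1.1]
      exact hh.2 τ.1 τ.2
    exact this hu
  refine ⟨E.topologicalClosure, ?_, ?_⟩
  · intro B hB h
    refine Submodule.topologicalClosure_minimal _ (Submodule.span_le.2 ?_) hB
    rintro _ ⟨τ, rfl⟩
    exact h τ.1 τ.2 (d τ) (hd1 τ) (hd2 τ)
  intro a ha
  set u := E.topologicalClosure.starProjection a with hu
  have huD : u ∈ E.topologicalClosure := Submodule.starProjection_apply_mem _ _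
  have hrD : a - u ∈ (E.topologicalClosure)ᗮ := Submodule.sub_starProjection_mem_orthogonal _
  have hrC : a - u ∈ Cocy m Y Z := Submodule.sub_mem _ ha (hD huD)
  have hrH : a - u ∈ Harm m Y Z := by
    refine ⟨hrC, fun τ hτ => ?_⟩
    rw [← hd3 ⟨τ, hτ⟩ (a - u) hrC.1]
    exact (Submodule.mem_orthogonal' _ _).1 hrD _
      (Submodule.le_topologicalClosure _ (Submodule.subset_span ⟨⟨τ, hτ⟩, rfl⟩))
  have hpr : pr (Harm m Y Z) a = a - u := by
    unfold pr
    refine Submodule.eq_starProjection_of_mem_orthogonal (Submodule.le_topologicalClosure _ hrH) ?_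
    rw [Submodule.orthogonal_closure, sub_sub_cancel]
    have : E.topologicalClosure ≤ (Harm m Y Z)ᗮ := by
      refine Submodule.topologicalClosure_minimal _ ?_ (Submodule.isClosed_orthogonal _)
      intro v hv
      rw [Submodule.mem_orthogonal]
      intro h hh
      exact hHE h hh v hv
    exact this huD
  rw [hpr, sub_sub_cancel]
  exact ⟨huD, hrC⟩

end HD2aux

/-- The form on cocycles only depends on the harmonic parts; mixed boundary conditions. -/
theorem hdg2 (hCNT : SpecCNT) (hLEI : SpecLEI) (hSTK : SpecSTK) (hFRM : SpecFRM)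
    (hDCB : SpecDCB) (hCLS : SpecCLS)
    (G X : Type) [Group G] [PartialOrder X] [MulAction G X] [OrdAct G X] [LocFin X]
    (hG : Geom G X) (m : ℕ) (P : Tidy G X m) (Z' : Set X) (a : l2 (Ch X (m + 1)))
    (ha : a ∈ Cocy m P.Y P.Z) (b : l2 (Ch X (m + 1))) (hb : b ∈ Cocy m P.Y Z') :
    form P.z (pr (Harm m P.Y P.Z) a) (pr (Harm m P.Y Z') b) = form P.z a b := by
  obtain ⟨C, hC⟩ := P.zb
  obtain ⟨T, hT⟩ := hFRM G X hG m P.z C hC
  obtain ⟨E, hE1, hE2⟩ := HD2aux.decomp hDCB hCLS m P.Y P.Z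
  obtain ⟨E', hE1', hE2'⟩ := HD2aux.decomp hDCB hCLS m P.Y Z'
  obtain ⟨ka1, ka2⟩ := hE2 a ha
  obtain ⟨kb1, kb2⟩ := hE2' b hb
  have v1 : ∀ u ∈ E, inner ℝ (T u) b = (0 : ℝ) := by
    intro u hu
    have h1 : E ≤ LinearMap.ker
        ((innerSL ℝ b : l2 (Ch X (m + 1)) →L[ℝ] ℝ).comp T).toLinearMap := by
      refine hE1 _ (ContinuousLinearMap.isClosed_ker _) ?_
      intro τ hτ d hd hd'
      show inner ℝ b (T d) = 0
      rw [real_inner_comm, (hT _ _).2]
      exact VA2aux.first hCNT hLEI hSTK hG P τ hτ d hd hd' b hb.2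
    have h2 : inner ℝ b (T u) = 0 := h1 hu
    rw [real_inner_comm]
    exact h2
  have v2 : ∀ r ∈ Cocy m P.Y P.Z, ∀ u ∈ E', inner ℝ (T r) u = (0 : ℝ) := by
    intro r hr u hu
    have h1 : E' ≤ LinearMap.ker
        (innerSL ℝ (T r) : l2 (Ch X (m + 1)) →L[ℝ] ℝ).toLinearMap := by
      refine hE1' _ (ContinuousLinearMap.isClosed_ker _) ?_
      intro τ hτ d hd hd'
      show inner ℝ (T r) d = 0
      rw [(hT _ _).2]
      exact VA2aux.second hCNT hLEI hSTK hG P Z' τ hτ d hd hd' r hr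
    exact h1 hu
  rw [← (hT _ _).2, ← (hT _ _).2]
  have e1 : inner ℝ (T a) b - inner ℝ (T (pr (Harm m P.Y P.Z) a)) b = (0 : ℝ) := by
    rw [← inner_sub_left, ← map_sub]
    exact v1 _ ka1
  have e2 : inner ℝ (T (pr (Harm m P.Y P.Z) a)) b -
      inner ℝ (T (pr (Harm m P.Y P.Z) a)) (pr (Harm m P.Y Z') b) = (0 : ℝ) := by
    rw [← inner_sub_right]
    exact v2 _ ka2 _ kb1
  linarith

end Pool.Agent.Lib.MPe14b75
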