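import Pool.Agent.Lib.MP_e14b75_gt.MAIN
import Pool.Agent.Lib.MP_e14b75_gt.VA2

/-!
# `L²`-homology of tidy pairs (MP_e14b75_gt): assembly, two boundary conditions
-/

set_option autoImplicit false

noncomputable section

namespace Pool.Agent.Lib.MPe14b75

open MAINaux

namespace MA2aux

variable {S : Type}

/-- The image of `i_* = pr M` has at most the dimension of the image of its adjoint `pr F`. -/
theorem rank_le (hDIM : SpecDIM) (hPEQ : SpecPEQ) (G : Type) [Group G] [MulAction G S]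
    [Finite (MulAction.orbitRel.Quotient G S)] (hst : ∀ s : S, Finite (MulAction.stabilizer G s))
    {F M : Submodule ℝ (l2 S)} (hcF : IsClosed (F : Set (l2 S))) (hcM : IsClosed (M : Set (l2 S)))
    (hiF : Inv G F) (hiM : Inv G M) :
    gdim G (F.map (pr M : l2 S →ₗ[ℝ] l2 S)) ≤
      gdim G (M.map (pr F : l2 S →ₗ[ℝ] l2 S)).topologicalClosure := by
  set I := F.map (pr M : l2 S →ₗ[ℝ] l2 S) with hI
  have hIM : I.topologicalClosure ≤ M := by
    refine Submodule.topologicalClosure_minimal _ ?_ hcM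
    rw [hI]
    rintro _ ⟨h, -, rfl⟩
    exact pr_mem hcM h
  rw [← gdim_closure G I]
  refine hDIM G S hst (fun _ _ => 1) (fun _ _ => Or.inl rfl) _ _
    (Submodule.isClosed_topologicalClosure _) (Submodule.isClosed_topologicalClosure _) ?_ (pr F)
    ?_ ?_ ?_
  · exact (hPEQ G S).2.2.2 F M hcM hiF hiM
  · intro g a b hab s
    exact pr_equiv hPEQ G hcF hiF g a b hab s
  · intro w hw
    exact Submodule.le_topologicalClosure _ ⟨w, hIM hw, rfl⟩
  · intro w hw h0
    have h1 : ∀ i ∈ I, inner ℝ w i = (0 : ℝ) := by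
      rw [hI]
      rintro _ ⟨a, ha, rfl⟩
      show inner ℝ w (pr M a) = (0 : ℝ)
      rw [real_inner_comm, pr_inner' M a w (hIM hw), real_inner_comm, ← pr_inner' F w a ha, h0,
        inner_zero_left]
    have h2 : (I.topologicalClosure : Set (l2 S)) ⊆ {i | inner ℝ w i = (0 : ℝ)} := by
      rw [Submodule.topologicalClosure_coe]
      exact closure_minimal (fun i hi => h1 i hi) (isClosed_eq (by fun_prop) continuous_const)
    exact eq_zero_of_inner (h2 hw)

end MA2aux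

open MA2aux

/-- Two boundary conditions: `F = L²H_k(F, ∂)`, `M = L²H_k(M, ∂)`, and `F'`, `M'` are the spaces for
the set `Z'` in place of the boundary. -/
theorem main2 (hCNT : SpecCNT) (hLEI : SpecLEI) (hSTK : SpecSTK) (hFRM : SpecFRM)
    (hDCB : SpecDCB) (hISO : SpecISO) (hCLS : SpecCLS) (hRES : SpecRES)
    (hTRN : SpecTRN) (hDIM : SpecDIM) (hDAD : SpecDAD) (hFIN : SpecFIN) (hHIN : SpecHIN)
    (hTWI : SpecTWI) (hPEQ : SpecPEQ)
    (G X : Type) [Group G] [PartialOrder X] [MulAction G X] [OrdAct G X] [LocFin X]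
    (hG : Geom G X) (m : ℕ) (P : Tidy G X m) (Z' : Set X)
    (hZ' : ∀ (g : G) (x : X), x ∈ Z' → g • x ∈ Z')
    (F M F' M' : Submodule ℝ (l2 (Ch X (m + 1)))) (hF : F = Harm m P.Y P.Z)
    (hM : M = Harm m Set.univ P.Z) (hF' : F' = Harm m P.Y Z') (hM' : M' = Harm m Set.univ Z') :
    (∀ h ∈ M, ∀ h' ∈ M', form P.z (pr F h) (pr F' h') = 0) ∧
    (∀ R : Submodule ℝ (l2 (Ch X (m + 1))), IsClosed (R : Set (l2 (Ch X (m + 1)))) → Inv G R →
      (∀ a ∈ F, (∀ b ∈ F', form P.z a b = 0) → a ∈ R) →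
      gdim G (F.map (pr M : l2 (Ch X (m + 1)) →ₗ[ℝ] l2 (Ch X (m + 1)))) +
        gdim G (F'.map (pr M' : l2 (Ch X (m + 1)) →ₗ[ℝ] l2 (Ch X (m + 1)))) ≤
          gdim G F' + gdim G R) ∧
    ((∀ a ∈ F, (∀ b ∈ F', form P.z a b = 0) → a = 0) →
      gdim G (F.map (pr M : l2 (Ch X (m + 1)) →ₗ[ℝ] l2 (Ch X (m + 1)))) +
        gdim G (F'.map (pr M' : l2 (Ch X (m + 1)) →ₗ[ℝ] l2 (Ch X (m + 1)))) ≤ gdim G F') := by
  classical
  obtain ⟨C, hC⟩ := P.zb
  obtain ⟨T, hT⟩ := hFRM G X hG m P.z C hC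
  have hTf : ∀ a b, inner ℝ (T a) b = form P.z a b := fun a b => (hT a b).2
  obtain ⟨hfin, hstab⟩ := hFIN G X hG (m + 1)
  have hcF : IsClosed (F : Set (l2 (Ch X (m + 1)))) := by
    rw [hF]
    exact (hCLS X m P.Y P.Z).2
  have hcM : IsClosed (M : Set (l2 (Ch X (m + 1)))) := by
    rw [hM]
    exact (hCLS X m Set.univ P.Z).2
  have hcF' : IsClosed (F' : Set (l2 (Ch X (m + 1)))) := by
    rw [hF']
    exact (hCLS X m P.Y Z').2
  have hcM' : IsClosed (M' : Set (l2 (Ch X (m + 1)))) := by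
    rw [hM']
    exact (hCLS X m Set.univ Z').2
  have hiF : Inv G F := by
    rw [hF]
    exact (hHIN G X m P.Y P.Z P.hY P.hZ).1
  have hiM : Inv G M := by
    rw [hM]
    exact (hHIN G X m Set.univ P.Z (fun _ _ _ => Set.mem_univ _) P.hZ).1
  have hiF' : Inv G F' := by
    rw [hF']
    exact (hHIN G X m P.Y Z' P.hY hZ').1
  have hiM' : Inv G M' := by
    rw [hM']
    exact (hHIN G X m Set.univ Z' (fun _ _ _ => Set.mem_univ _) hZ').1
  -- isotropy
  have iso : ∀ h ∈ M, ∀ h' ∈ M', form P.z (pr F h) (pr F' h') = 0 := by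
    intro h hh h' hh'
    rw [hM] at hh
    rw [hM'] at hh'
    obtain ⟨r, hr, hr1, hr2⟩ := hRES X m P.Y P.Z h hh.1
    obtain ⟨r', hr', hr1', hr2'⟩ := hRES X m P.Y Z' h' hh'.1
    rw [hF, hF', hr2, hr2', hdg2 hCNT hLEI hSTK hFRM hDCB hCLS G X hG m P Z' r hr r' hr']
    have h1 : form P.z r r' = form P.z h h' := by
      unfold form
      refine tsum_congr fun ρ => ?_
      by_cases hρ : InS P.Y ρ
      · rw [hr1 _ fun i => hρ _, hr1' _ fun i => hρ _]
      · rw [P.zY ρ hρ, zero_mul, zero_mul]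
    rw [h1]
    exact hISO G X hG m P h h' (fun σ hσ => hh.1.1 σ fun h2 => h2.2 hσ)
      (fun σ => hh.1.2 σ fun _ => Set.mem_univ _) (fun σ => hh'.1.2 σ fun _ => Set.mem_univ _)
  set W : Submodule ℝ (l2 (Ch X (m + 1))) :=
    (M.map (pr F : l2 (Ch X (m + 1)) →ₗ[ℝ] l2 (Ch X (m + 1)))).topologicalClosure with hW
  set W' : Submodule ℝ (l2 (Ch X (m + 1))) :=
    (M'.map (pr F' : l2 (Ch X (m + 1)) →ₗ[ℝ] l2 (Ch X (m + 1)))).topologicalClosure with hW'
  have hcW : IsClosed (W : Set (l2 (Ch X (m + 1)))) := Submodule.isClosed_topologicalClosure _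
  have hcW' : IsClosed (W' : Set (l2 (Ch X (m + 1)))) := Submodule.isClosed_topologicalClosure _
  have hWF : W ≤ F := by
    refine Submodule.topologicalClosure_minimal _ ?_ hcF
    rintro _ ⟨h, -, rfl⟩
    exact pr_mem hcF h
  have hWF' : W' ≤ F' := by
    refine Submodule.topologicalClosure_minimal _ ?_ hcF'
    rintro _ ⟨h, -, rfl⟩
    exact pr_mem hcF' h
  have hiW : Inv G W := (hPEQ G (Ch X (m + 1))).2.2.2 M F hcF hiM hiF
  have isoW : ∀ w ∈ W, ∀ w' ∈ W', inner ℝ (T w) w' = (0 : ℝ) := by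
    have h1 : ∀ w ∈ W, ∀ h' ∈ M', inner ℝ (T w) (pr F' h') = (0 : ℝ) := by
      intro w hw h' hh'
      have h2 : (W : Set (l2 (Ch X (m + 1)))) ⊆ {w | inner ℝ (T w) (pr F' h') = (0 : ℝ)} := by
        rw [hW, Submodule.topologicalClosure_coe]
        refine closure_minimal ?_ (isClosed_eq (by fun_prop) continuous_const)
        rintro _ ⟨h, hh, rfl⟩
        show inner ℝ (T (pr F h)) (pr F' h') = (0 : ℝ)
        rw [hTf]
        exact iso h hh h' hh'
      exact h2 hw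
    intro w hw w' hw'
    have h2 : (W' : Set (l2 (Ch X (m + 1)))) ⊆ {w' | inner ℝ (T w) w' = (0 : ℝ)} := by
      rw [hW', Submodule.topologicalClosure_coe]
      refine closure_minimal ?_ (isClosed_eq (by fun_prop) continuous_const)
      rintro _ ⟨h, hh, rfl⟩
      exact h1 w hw h hh
    exact h2 hw'
  have hIW := rank_le hDIM hPEQ G hstab hcF hcM hiF hiM
  have hIW' := rank_le hDIM hPEQ G hstab hcF' hcM' hiF' hiM'
  have two : ∀ R : Submodule ℝ (l2 (Ch X (m + 1))), IsClosed (R : Set (l2 (Ch X (m + 1)))) →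
      Inv G R → (∀ a ∈ F, (∀ b ∈ F', form P.z a b = 0) → a ∈ R) →
      gdim G (F.map (pr M : l2 (Ch X (m + 1)) →ₗ[ℝ] l2 (Ch X (m + 1)))) +
        gdim G (F'.map (pr M' : l2 (Ch X (m + 1)) →ₗ[ℝ] l2 (Ch X (m + 1)))) ≤
          gdim G F' + gdim G R := by
    intro R hcR hiR hR
    have hcV : IsClosed ((W ⊓ R : Submodule ℝ (l2 (Ch X (m + 1)))) : Set (l2 (Ch X (m + 1)))) :=
      closed_inf hcW hcR
    have hiV : Inv G (W ⊓ R) := (hPEQ G (Ch X (m + 1))).2.2.1 W R hiW hiR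
    have d1 := hDAD G (Ch X (m + 1)) (W ⊓ R) W hcV hcW inf_le_left
    have d2 := hDAD G (Ch X (m + 1)) W' F' hcW' hcF' hWF'
    have d3 := hDAD G (Ch X (m + 1)) (W ⊓ R) R hcV hcR inf_le_right
    have hc1 : IsClosed ((W ⊓ (W ⊓ R)ᗮ : Submodule ℝ (l2 (Ch X (m + 1)))) :
        Set (l2 (Ch X (m + 1)))) := closed_inf hcW (Submodule.isClosed_orthogonal _)
    have hcU : IsClosed ((F' ⊓ W'ᗮ : Submodule ℝ (l2 (Ch X (m + 1)))) : Set (l2 (Ch X (m + 1)))) :=
      closed_inf hcF' (Submodule.isClosed_orthogonal _)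
    have hi1 : Inv G (W ⊓ (W ⊓ R)ᗮ) := (hPEQ G (Ch X (m + 1))).2.2.1 _ _ hiW
      ((hPEQ G (Ch X (m + 1))).2.1 _ hiV)
    have hsgn : ∀ (g : G) (s : Ch X (m + 1)), P.sg g (P.comp (s.1 0)) = 1 ∨
        P.sg g (P.comp (s.1 0)) = -1 := fun g s => P.hsg g _
    have key : gdim G (W ⊓ (W ⊓ R)ᗮ : Submodule ℝ (l2 (Ch X (m + 1)))) ≤
        gdim G (F' ⊓ W'ᗮ : Submodule ℝ (l2 (Ch X (m + 1)))) := by
      refine hDIM G (Ch X (m + 1)) hstab (fun g s => P.sg g (P.comp (s.1 0))) hsgn _ _ hc1 hcU hi1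
        ((pr F').comp T) ?_ ?_ ?_
      · intro g a b hab s
        have h1 := hTWI G X m P T hTf g a b hab
        refine (hPEQ G (Ch X (m + 1))).1 g (fun s => P.sg g (P.comp (s.1 0))) (hsgn g) F' hcF' ?_
          (T a) (T b) h1 s
        intro a b hab
        obtain ⟨U, hU⟩ := hTRN G (Ch X (m + 1)) g⁻¹ (fun _ => 1) (fun _ => Or.inl rfl)
        have hUb : ∀ s, U b s = b (g • s) := by
          intro s
          have := hU b (g • s)
          rwa [inv_smul_smul, one_mul] at this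
        have hsq : ∀ s : Ch X (m + 1), P.sg g (P.comp (s.1 0)) * P.sg g (P.comp (s.1 0)) = 1 := by
          intro s
          rcases hsgn g s with h | h <;> rw [h] <;> norm_num
        have hsign : ∀ a ∈ F', ∀ b : l2 (Ch X (m + 1)),
            (∀ s, b s = P.sg g (P.comp (s.1 0)) * a s) → b ∈ F' := by
          rw [hF']
          exact (hHIN G X m P.Y Z' P.hY hZ').2 P.J P.comp P.hcomp (P.sg g) (P.hsg g)
        constructor
        · intro ha
          have h2 : U b ∈ F' := hsign a ha (U b) fun s => by rw [hUb, hab]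
          exact hiF' g (U b) h2 b fun s => (hUb s).symm
        · intro hb
          have h2 : U b ∈ F' := hiF' g⁻¹ b hb (U b) fun s => by rw [hUb, smul_inv_smul]
          refine hsign (U b) h2 a fun s => ?_
          rw [hUb, hab, ← mul_assoc, hsq, one_mul]
      · intro w hw
        refine ⟨pr_mem hcF' _, ?_⟩
        rw [SetLike.mem_coe, Submodule.mem_orthogonal']
        intro w' hw'
        show inner ℝ (pr F' (T w)) w' = (0 : ℝ)
        rw [pr_inner' F' _ w' (hWF' hw')]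
        exact isoW w hw.1 w' hw'
      · intro w hw h0
        have h1 : w ∈ R := by
          refine hR w (hWF hw.1) fun b hb => ?_
          rw [← hTf, ← pr_inner' F' (T w) b hb]
          have h2 : pr F' (T w) = 0 := h0
          rw [h2, inner_zero_left]
        have h2 : w ∈ (W ⊓ R)ᗮ := hw.2
        rw [Submodule.mem_orthogonal] at h2
        exact eq_zero_of_inner (h2 w ⟨hw.1, h1⟩)
    linarith [d1.1, d2.1, d3.1, d3.2.1, hIW, hIW', key]
  refine ⟨iso, two, ?_⟩
  intro hnd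
  have h1 := two ⊥ (by
    rw [Submodule.bot_coe]
    exact isClosed_singleton) (by
      intro g a ha b hb
      rw [Submodule.mem_bot] at ha ⊢
      ext s
      have h2 := hb (g⁻¹ • s)
      rw [smul_inv_smul, ha] at h2
      exact h2) (fun a ha h => by rw [Submodule.mem_bot]; exact hnd a ha h)
  rw [gdim_bot, add_zero] at h1
  exact h1

end Pool.Agent.Lib.MPe14b75
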