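import Pool.Agent.Lib.MP_e14b75_gt.Spec

/-!
# `L²`-homology of tidy pairs (MP_e14b75_gt): assembly
-/

set_option autoImplicit false

noncomputable section

namespace Pool.Agent.Lib.MPe14b75

namespace MAINaux

variable {S : Type}

theorem pr_mem_closure (W : Submodule ℝ (l2 S)) (a : l2 S) : pr W a ∈ W.topologicalClosure :=
  Submodule.starProjection_apply_mem _ a

theorem pr_inner (W : Submodule ℝ (l2 S)) (a w : l2 S) (hw : w ∈ W.topologicalClosure) :
    inner ℝ (pr W a) w = inner ℝ a w := by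
  have h := Submodule.starProjection_inner_eq_zero (K := W.topologicalClosure) a w hw
  rw [inner_sub_left, sub_eq_zero] at h
  exact h.symm

theorem pr_inner' (W : Submodule ℝ (l2 S)) (a w : l2 S) (hw : w ∈ W) :
    inner ℝ (pr W a) w = inner ℝ a w := pr_inner W a w (W.le_topologicalClosure hw)

theorem pr_mem {W : Submodule ℝ (l2 S)} (hW : IsClosed (W : Set (l2 S))) (a : l2 S) :
    pr W a ∈ W := by
  have h := pr_mem_closure W a
  rwa [hW.submodule_topologicalClosure_eq] at h

theorem eq_zero_of_inner {a : l2 S} (h : inner ℝ a a = 0) : a = 0 :=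
  inner_self_eq_zero.1 h

theorem pr_closure (W : Submodule ℝ (l2 S)) : pr W.topologicalClosure = pr W := by
  ext1 x
  have hc : IsClosed (W.topologicalClosure : Set (l2 S)) := W.isClosed_topologicalClosure
  have h1 : pr W.topologicalClosure x ∈ W.topologicalClosure := pr_mem hc x
  have h2 : pr W x ∈ W.topologicalClosure := pr_mem_closure W x
  have h3 : pr W.topologicalClosure x - pr W x ∈ W.topologicalClosure := Submodule.sub_mem _ h1 h2
  have h4 := pr_inner' W.topologicalClosure x _ h3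
  have h5 := pr_inner W x _ h3
  have h6 : inner ℝ (pr W.topologicalClosure x - pr W x) (pr W.topologicalClosure x - pr W x) =
      (0 : ℝ) := by
    rw [inner_sub_left, h4, h5, sub_self]
  exact sub_eq_zero.1 (eq_zero_of_inner h6)

theorem gdim_closure (G : Type) [Group G] [MulAction G S] (W : Submodule ℝ (l2 S)) :
    gdim G W.topologicalClosure = gdim G W := by
  unfold gdim
  rw [pr_closure]

theorem pr_bot : pr (⊥ : Submodule ℝ (l2 S)) = 0 := by
  ext1 x
  have h1 : pr (⊥ : Submodule ℝ (l2 S)) x ∈ (⊥ : Submodule ℝ (l2 S)) := pr_mem (by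
    rw [Submodule.bot_coe]
    exact isClosed_singleton) x
  rw [Submodule.mem_bot] at h1
  rw [h1]
  rfl

theorem gdim_bot (G : Type) [Group G] [MulAction G S] : gdim G (⊥ : Submodule ℝ (l2 S)) = 0 := by
  unfold gdim
  rw [pr_bot]
  simp

theorem closed_inf {A B : Submodule ℝ (l2 S)} (hA : IsClosed (A : Set (l2 S)))
    (hB : IsClosed (B : Set (l2 S))) : IsClosed ((A ⊓ B : Submodule ℝ (l2 S)) : Set (l2 S)) := by
  rw [Submodule.coe_inf]
  exact hA.inter hB

/-- untwisted equivariance of the projection onto a closed invariant subspace -/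
theorem pr_equiv (hPEQ : SpecPEQ) (G : Type) [Group G] [MulAction G S] {W : Submodule ℝ (l2 S)}
    (hW : IsClosed (W : Set (l2 S))) (hI : Inv G W) (g : G) (a b : l2 S)
    (h : ∀ s, b (g • s) = a s) (s : S) : pr W b (g • s) = 1 * pr W a s := by
  refine (hPEQ G S).1 g (fun _ => 1) (fun _ => Or.inl rfl) W hW ?_ a b (fun s => ?_) s
  · intro a b hab
    constructor
    · intro ha
      exact hI g a ha b fun s => by rw [hab, one_mul]
    · intro hb
      refine hI g⁻¹ b hb a fun s => ?_
      have := hab (g⁻¹ • s)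
      rw [smul_inv_smul, one_mul] at this
      exact this.symm
  · rw [h, one_mul]

/-- the dimension is faithful -/
theorem eq_zero_of_gdim (hPEQ : SpecPEQ) (G : Type) [Group G] [MulAction G S]
    [Finite (MulAction.orbitRel.Quotient G S)] (hst : ∀ s : S, Finite (MulAction.stabilizer G s))
    {W : Submodule ℝ (l2 S)} (hW : IsClosed (W : Set (l2 S))) (hI : Inv G W)
    (h0 : gdim G W = 0) : ∀ w ∈ W, w = 0 := by
  classical
  cases nonempty_fintype (MulAction.orbitRel.Quotient G S)
  have h1 : ∀ q : MulAction.orbitRel.Quotient G S, pr W (e q.out) = 0 := by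
    unfold gdim at h0
    rw [finsum_eq_sum_of_fintype, Finset.sum_eq_zero_iff_of_nonneg fun q _ => by positivity] at h0
    intro q
    have h2 := h0 q (Finset.mem_univ q)
    have h3 : (0 : ℝ) < Nat.card (MulAction.stabilizer G q.out) := by
      have := hst q.out
      exact_mod_cast Nat.card_pos
    rw [div_eq_zero_iff, or_iff_left h3.ne', sq_eq_zero_iff, norm_eq_zero] at h2
    exact h2
  have h4 : ∀ s : S, pr W (e s) = 0 := by
    intro s
    set q : MulAction.orbitRel.Quotient G S := Quotient.mk'' s with hq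
    have h5 : s ∈ MulAction.orbit G q.out := by
      have h6 : (Quotient.mk'' q.out : MulAction.orbitRel.Quotient G S) = Quotient.mk'' s := by
        rw [← hq]
        exact Quotient.out_eq' q
      have h7 := (Quotient.exact h6.symm : (MulAction.orbitRel G S) s q.out)
      exact MulAction.orbitRel_apply.1 h7
    obtain ⟨g, hg⟩ := h5
    ext t
    have h8 := pr_equiv hPEQ G hW hI g (e q.out) (e s) (fun t => by
      have hg' : g • q.out = s := hg
      rw [← hg']
      simp only [e, lp.single_apply, Pi.single_apply]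
      simp) (g⁻¹ • t)
    rw [smul_inv_smul, h1] at h8
    rw [h8]
    simp
  intro w hw
  ext s
  have h9 : w s = inner ℝ (e s) w := by
    unfold e
    rw [lp.inner_single_left]
    simp
  rw [h9, ← pr_inner' W (e s) w hw, h4, inner_zero_left]
  rfl

end MAINaux

open MAINaux

/-- **Theorem.** Let `(M, F)` be a tidy pair, `dim M = 2 m + 3`, `F = L²H_(m+1)(F, ∂)`,
`M = L²H_(m+1)(M, ∂)`, and let `i_* = pr M` be the map induced by the inclusion; `I` is its image. -/
theorem main (hFRM : SpecFRM) (hISO : SpecISO) (hCLS : SpecCLS) (hHDG : SpecHDG) (hRES : SpecRES)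
    (hTRN : SpecTRN) (hDIM : SpecDIM) (hDAD : SpecDAD) (hFIN : SpecFIN) (hHIN : SpecHIN)
    (hTWI : SpecTWI) (hPEQ : SpecPEQ)
    (G X : Type) [Group G] [PartialOrder X] [MulAction G X] [OrdAct G X] [LocFin X]
    (hG : Geom G X) (m : ℕ) (P : Tidy G X m)
    (F M I : Submodule ℝ (l2 (Ch X (m + 1)))) (hF : F = Harm m P.Y P.Z)
    (hM : M = Harm m Set.univ P.Z)
    (hI : I = F.map (pr M : l2 (Ch X (m + 1)) →ₗ[ℝ] l2 (Ch X (m + 1)))) :
    (∀ h ∈ M, ∀ h' ∈ M, form P.z (pr F h) (pr F h') = 0) ∧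
    (∀ R : Submodule ℝ (l2 (Ch X (m + 1))), IsClosed (R : Set (l2 (Ch X (m + 1)))) → Inv G R →
      (∀ a ∈ F, (∀ b ∈ F, form P.z a b = 0) → a ∈ R) →
      2 * gdim G I ≤ gdim G F + gdim G R) ∧
    ((∀ a ∈ F, (∀ b ∈ F, form P.z a b = 0) → a = 0) → 2 * gdim G I ≤ gdim G F) ∧
    (∀ N : Submodule ℝ (l2 (Ch X (m + 1))), IsClosed (N : Set (l2 (Ch X (m + 1)))) → Inv G N →
      (∀ a ∈ F, (∀ b ∈ N, inner ℝ a b = 0) → form P.z a a = 0 → a = 0) →
      gdim G I ≤ gdim G N) ∧
    ((∀ a ∈ F, form P.z a a = 0 → a = 0) → ∀ a ∈ F, pr M a = 0) ∧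
    (gdim G I = 0 → ∀ a ∈ F, pr M a = 0) := by
  classical
  obtain ⟨C, hC⟩ := P.zb
  obtain ⟨T, hT⟩ := hFRM G X hG m P.z C hC
  have hTf : ∀ a b, inner ℝ (T a) b = form P.z a b := fun a b => (hT a b).2
  obtain ⟨hfin, hstab⟩ := hFIN G X hG (m + 1)
  have hcF : IsClosed (F : Set (l2 (Ch X (m + 1)))) := by
    rw [hF]
    exact (hCLS X m P.Y P.Z).2
  have hcM : IsClosed (M : Set (l2 (Ch X (m + 1)))) := by
    rw [hM]
    exact (hCLS X m Set.univ P.Z).2
  have hiF : Inv G F := by
    rw [hF]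
    exact (hHIN G X m P.Y P.Z P.hY P.hZ).1
  have hiM : Inv G M := by
    rw [hM]
    exact (hHIN G X m Set.univ P.Z (fun _ _ _ => Set.mem_univ _) P.hZ).1
  -- isotropy
  have iso : ∀ h ∈ M, ∀ h' ∈ M, form P.z (pr F h) (pr F h') = 0 := by
    intro h hh h' hh'
    rw [hM] at hh hh'
    obtain ⟨r, hr, hr1, hr2⟩ := hRES X m P.Y P.Z h hh.1
    obtain ⟨r', hr', hr1', hr2'⟩ := hRES X m P.Y P.Z h' hh'.1
    rw [hF, hr2, hr2', hHDG G X hG m P r hr r' hr']
    have h1 : form P.z r r' = form P.z h h' := by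
      unfold form
      refine tsum_congr fun ρ => ?_
      by_cases hρ : InS P.Y ρ
      · rw [hr1 _ fun i => hρ _, hr1' _ fun i => hρ _]
      · rw [P.zY ρ hρ, zero_mul, zero_mul]
    rw [h1]
    refine hISO G X hG m P h h' (fun σ hσ => hh.1.1 σ fun h2 => h2.2 hσ)
      (fun σ => hh.1.2 σ fun _ => Set.mem_univ _) (fun σ => hh'.1.2 σ fun _ => Set.mem_univ _)
  -- the closure `W` of the image of the restriction map
  set W : Submodule ℝ (l2 (Ch X (m + 1))) :=
    (M.map (pr F : l2 (Ch X (m + 1)) →ₗ[ℝ] l2 (Ch X (m + 1)))).topologicalClosure with hW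
  have hcW : IsClosed (W : Set (l2 (Ch X (m + 1)))) := Submodule.isClosed_topologicalClosure _
  have hWF : W ≤ F := by
    refine Submodule.topologicalClosure_minimal _ ?_ hcF
    rintro _ ⟨h, -, rfl⟩
    exact pr_mem hcF h
  have hiW : Inv G W := (hPEQ G (Ch X (m + 1))).2.2.2 M F hcF hiM hiF
  have isoW : ∀ w ∈ W, ∀ w' ∈ W, inner ℝ (T w) w' = (0 : ℝ) := by
    have h1 : ∀ w ∈ W, ∀ h' ∈ M, inner ℝ (T w) (pr F h') = (0 : ℝ) := by
      intro w hw h' hh'
      have h2 : (W : Set (l2 (Ch X (m + 1)))) ⊆ {w | inner ℝ (T w) (pr F h') = (0 : ℝ)} := by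
        rw [hW, Submodule.topologicalClosure_coe]
        refine closure_minimal ?_ (isClosed_eq (by fun_prop) continuous_const)
        rintro _ ⟨h, hh, rfl⟩
        show inner ℝ (T (pr F h)) (pr F h') = (0 : ℝ)
        rw [hTf]
        exact iso h hh h' hh'
      exact h2 hw
    intro w hw w' hw'
    have h2 : (W : Set (l2 (Ch X (m + 1)))) ⊆ {w' | inner ℝ (T w) w' = (0 : ℝ)} := by
      rw [hW, Submodule.topologicalClosure_coe]
      refine closure_minimal ?_ (isClosed_eq (by fun_prop) continuous_const)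
      rintro _ ⟨h, hh, rfl⟩
      exact h1 w hw h hh
    exact h2 hw'
  have hIM : I.topologicalClosure ≤ M := by
    refine Submodule.topologicalClosure_minimal _ ?_ hcM
    rw [hI]
    rintro _ ⟨h, -, rfl⟩
    exact pr_mem hcM h
  -- `gdim I ≤ gdim W`
  have hIW : gdim G I ≤ gdim G W := by
    rw [← gdim_closure G I]
    refine hDIM G (Ch X (m + 1)) hstab (fun _ _ => 1) (fun _ _ => Or.inl rfl) _ W
      (Submodule.isClosed_topologicalClosure _) hcW ?_ (pr F) ?_ ?_ ?_
    · rw [hI]
      exact (hPEQ G (Ch X (m + 1))).2.2.2 F M hcM hiF hiM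
    · intro g a b hab s
      exact pr_equiv hPEQ G hcF hiF g a b hab s
    · intro w hw
      exact Submodule.le_topologicalClosure _ ⟨w, hIM hw, rfl⟩
    · intro w hw h0
      have h1 : ∀ i ∈ I, inner ℝ w i = (0 : ℝ) := by
        rw [hI]
        rintro _ ⟨a, ha, rfl⟩
        show inner ℝ w (pr M a) = (0 : ℝ)
        rw [real_inner_comm, pr_inner' M a w (hIM hw), real_inner_comm, ← pr_inner' F w a ha, h0,
          inner_zero_left]
      have h2 : (I.topologicalClosure : Set (l2 (Ch X (m + 1)))) ⊆ {i | inner ℝ w i = (0 : ℝ)} := by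
        rw [Submodule.topologicalClosure_coe]
        exact closure_minimal (fun i hi => h1 i hi) (isClosed_eq (by fun_prop) continuous_const)
      exact eq_zero_of_inner (h2 hw)
  have two : ∀ R : Submodule ℝ (l2 (Ch X (m + 1))), IsClosed (R : Set (l2 (Ch X (m + 1)))) →
      Inv G R → (∀ a ∈ F, (∀ b ∈ F, form P.z a b = 0) → a ∈ R) →
      2 * gdim G I ≤ gdim G F + gdim G R := by
    intro R hcR hiR hR
    have hcV : IsClosed ((W ⊓ R : Submodule ℝ (l2 (Ch X (m + 1)))) : Set (l2 (Ch X (m + 1)))) :=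
      closed_inf hcW hcR
    have hiV : Inv G (W ⊓ R) := (hPEQ G (Ch X (m + 1))).2.2.1 W R hiW hiR
    have d1 := hDAD G (Ch X (m + 1)) (W ⊓ R) W hcV hcW inf_le_left
    have d2 := hDAD G (Ch X (m + 1)) W F hcW hcF hWF
    have d3 := hDAD G (Ch X (m + 1)) (W ⊓ R) R hcV hcR inf_le_right
    have hc1 : IsClosed ((W ⊓ (W ⊓ R)ᗮ : Submodule ℝ (l2 (Ch X (m + 1)))) :
        Set (l2 (Ch X (m + 1)))) := closed_inf hcW (Submodule.isClosed_orthogonal _)
    have hcU : IsClosed ((F ⊓ Wᗮ : Submodule ℝ (l2 (Ch X (m + 1)))) : Set (l2 (Ch X (m + 1)))) :=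
      closed_inf hcF (Submodule.isClosed_orthogonal _)
    have hi1 : Inv G (W ⊓ (W ⊓ R)ᗮ) := (hPEQ G (Ch X (m + 1))).2.2.1 _ _ hiW
      ((hPEQ G (Ch X (m + 1))).2.1 _ hiV)
    have hsgn : ∀ (g : G) (s : Ch X (m + 1)), P.sg g (P.comp (s.1 0)) = 1 ∨
        P.sg g (P.comp (s.1 0)) = -1 := fun g s => P.hsg g _
    have key : gdim G (W ⊓ (W ⊓ R)ᗮ : Submodule ℝ (l2 (Ch X (m + 1)))) ≤
        gdim G (F ⊓ Wᗮ : Submodule ℝ (l2 (Ch X (m + 1)))) := by
      refine hDIM G (Ch X (m + 1)) hstab (fun g s => P.sg g (P.comp (s.1 0))) hsgn _ _ hc1 hcU hi1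
        ((pr F).comp T) ?_ ?_ ?_
      · intro g a b hab s
        have h1 := hTWI G X m P T hTf g a b hab
        refine (hPEQ G (Ch X (m + 1))).1 g (fun s => P.sg g (P.comp (s.1 0))) (hsgn g) F hcF ?_
          (T a) (T b) h1 s
        intro a b hab
        obtain ⟨U, hU⟩ := hTRN G (Ch X (m + 1)) g⁻¹ (fun _ => 1) (fun _ => Or.inl rfl)
        have hUb : ∀ s, U b s = b (g • s) := by
          intro s
          have := hU b (g • s)
          rwa [inv_smul_smul, one_mul] at this
        have hsq : ∀ s : Ch X (m + 1), P.sg g (P.comp (s.1 0)) * P.sg g (P.comp (s.1 0)) = 1 := by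
          intro s
          rcases hsgn g s with h | h <;> rw [h] <;> norm_num
        have hsign : ∀ a ∈ F, ∀ b : l2 (Ch X (m + 1)),
            (∀ s, b s = P.sg g (P.comp (s.1 0)) * a s) → b ∈ F := by
          rw [hF]
          exact (hHIN G X m P.Y P.Z P.hY P.hZ).2 P.J P.comp P.hcomp (P.sg g) (P.hsg g)
        constructor
        · intro ha
          have h2 : U b ∈ F := hsign a ha (U b) fun s => by rw [hUb, hab]
          exact hiF g (U b) h2 b fun s => (hUb s).symm
        · intro hb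
          have h2 : U b ∈ F := hiF g⁻¹ b hb (U b) fun s => by rw [hUb, smul_inv_smul]
          refine hsign (U b) h2 a fun s => ?_
          rw [hUb, hab, ← mul_assoc, hsq, one_mul]
      · intro w hw
        refine ⟨pr_mem hcF _, ?_⟩
        rw [SetLike.mem_coe, Submodule.mem_orthogonal']
        intro w' hw'
        show inner ℝ (pr F (T w)) w' = (0 : ℝ)
        rw [pr_inner' F _ w' (hWF hw')]
        exact isoW w hw.1 w' hw'
      · intro w hw h0
        have h1 : w ∈ R := by
          refine hR w (hWF hw.1) fun b hb => ?_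
          rw [← hTf, ← pr_inner' F (T w) b hb]
          have h2 : pr F (T w) = 0 := h0
          rw [h2, inner_zero_left]
        have h2 : w ∈ (W ⊓ R)ᗮ := hw.2
        rw [Submodule.mem_orthogonal] at h2
        exact eq_zero_of_inner (h2 w ⟨hw.1, h1⟩)
    linarith [d1.1, d2.1, d3.1, d3.2.1, hIW, key]
  refine ⟨iso, two, ?_, ?_, ?_, ?_⟩
  · intro hnd
    have h1 := two ⊥ (by
      rw [Submodule.bot_coe]
      exact isClosed_singleton) (by
        intro g a ha b hb
        rw [Submodule.mem_bot] at ha ⊢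
        ext s
        have h2 := hb (g⁻¹ • s)
        rw [smul_inv_smul, ha] at h2
        exact h2) (fun a ha h => by rw [Submodule.mem_bot]; exact hnd a ha h)
    rw [gdim_bot, add_zero] at h1
    exact h1
  · intro N hcN hiN hN
    refine hIW.trans (hDIM G (Ch X (m + 1)) hstab (fun _ _ => 1) (fun _ _ => Or.inl rfl) W N hcW hcN
      hiW (pr N) ?_ ?_ ?_)
    · intro g a b hab s
      exact pr_equiv hPEQ G hcN hiN g a b hab s
    · intro w _
      exact pr_mem hcN w
    · intro w hw h0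
      refine hN w (hWF hw) (fun b hb => ?_) ?_
      · rw [← pr_inner' N w b hb, h0, inner_zero_left]
      · rw [← hTf]
        exact isoW w hw w hw
  · intro hdef a ha
    have h1 : ∀ h ∈ M, inner ℝ a h = (0 : ℝ) := by
      intro h hh
      have h2 : pr F h = 0 := hdef _ (pr_mem hcF h) (iso h hh h hh)
      rw [real_inner_comm, ← pr_inner' F h a ha, h2, inner_zero_left]
    refine eq_zero_of_inner ?_
    rw [pr_inner' M a _ (pr_mem hcM a)]
    exact h1 _ (pr_mem hcM a)
  · intro h0 a ha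
    rw [← gdim_closure] at h0
    refine eq_zero_of_gdim hPEQ G hstab (Submodule.isClosed_topologicalClosure _) ?_ h0 _
      (Submodule.le_topologicalClosure _ ?_)
    · rw [hI]
      exact (hPEQ G (Ch X (m + 1))).2.2.2 F M hcM hiF hiM
    · rw [hI]
      exact ⟨a, ha, rfl⟩

end Pool.Agent.Lib.MPe14b75
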