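import Pool.Agent.Lib.MP_e14b75_gt.Defs

/-!
# `L²`-homology of tidy pairs (MP_e14b75_gt): specification of the modules (helper25)

Every module `XXX` is a file `Pool/Agent/Lib/MP_e14b75_gt/XXX.lean` which imports this file and proves
`theorem specXXX (hypotheses = deps, in the order given) : SpecXXX` in the namespace
`Pool.Agent.Lib.MPe14b75`, with its auxiliary declarations in the namespace `XXXaux`.
-/

set_option autoImplicit false

noncomputable section

namespace Pool.Agent.Lib.MPe14b75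

open Classical in
/-- The indicator function of `τ`. -/
def ind {S : Type} (τ : S) : S → ℝ := fun s => if s = τ then 1 else 0

/-- `W` is invariant. -/
def Inv (G : Type) {S : Type} [Group G] [MulAction G S] (W : Submodule ℝ (l2 S)) : Prop :=
  ∀ (g : G), ∀ a ∈ W, ∀ b : l2 S, (∀ s, b (g • s) = a s) → b ∈ W

/-- `‖X e_s‖² / |G_s|`, summed over representatives of the orbits. -/
def tr2 (G : Type) {S : Type} [Group G] [MulAction G S] (X : l2 S →L[ℝ] l2 S) : ℝ :=
  ∑ᶠ q : MulAction.orbitRel.Quotient G S,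
    ‖X (e q.out)‖ ^ 2 / Nat.card (MulAction.stabilizer G q.out)

/-- **CNT** (size 80, no deps): uniform bounds for the number of simplices with a given face.

PROOF. For `x : X` let `A_x = {y | x ≤ y ∨ y ≤ x}`, a finite set. If `σ : Ch X n` contains `x`, all its
vertices are in `A_x`, so `N_n(x) = #{σ : Ch X n | x ∈ σ}` is finite (injection into `Fin (n+1) → A_x`).
`N_n(g • x) = N_n(x)` (`σ ↦ g • σ` is a bijection), so `N_n` is bounded by its maximum on the finite
set `S` of `Geom.orb`. The sets in the statement consist of simplices which contain the first vertex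
of `τ` (`fr`, `bk`; times `n + 2` for `face`, and use `N_(n+1)`). -/
def SpecCNT : Prop :=
  ∀ (G X : Type) [Group G] [PartialOrder X] [MulAction G X] [OrdAct G X] [LocFin X], Geom G X →
    ∀ n : ℕ, ∃ D : ℕ,
      (∀ (τ : Ch X n) (s : Finset (Fin (n + 2) × Ch X (n + 1))), (∀ p ∈ s, face p.1 p.2 = τ) →
        s.card ≤ D) ∧
      (∀ (p : ℕ) (h : p ≤ n) (τ : Ch X p) (s : Finset (Ch X n)), (∀ ρ ∈ s, fr p h ρ = τ) →
        s.card ≤ D) ∧
      ∀ (q : ℕ) (h : q ≤ n) (τ : Ch X q) (s : Finset (Ch X n)), (∀ ρ ∈ s, bk q h ρ = τ) →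
        s.card ≤ D

/-- **SUM** (size 40, no deps): composition with a map with bounded fibres.

PROOF. For a finite set `s` of `α`, `∑_(a ∈ s) |f (g a)| = ∑_(b ∈ image) #(s ∩ fibre) |f b| ≤ D ∑' |f b|`
(`Finset.sum_comp`, `Summable.sum_le_tsum`); `summable_of_sum_le`, `Real.tsum_le_of_sum_le`. -/
def SpecSUM : Prop :=
  ∀ (α β : Type) (g : α → β) (D : ℕ), (∀ (b : β) (s : Finset α), (∀ a ∈ s, g a = b) → s.card ≤ D) →
    ∀ f : β → ℝ, Summable f →
      (Summable fun a => f (g a)) ∧ ∑' a, |f (g a)| ≤ D * ∑' b, |f b|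

/-- **LEI** (size 100, no deps): the Leibniz rule for the cup product
`(α ∪ β)(ρ) = α(front ρ) β(back ρ)`.

PROOF. `i ≤ p`: `fr p (face i σ) = face i (fr (p+1) σ)`, `bk q (face i σ) = bk q σ`. `i ≥ p + 1`:
`fr p (face i σ) = fr p σ`, `bk q (face i σ) = face (i - p) (bk (q+1) σ)`. Besides
`face (p+1) (fr (p+1) σ) = fr p σ` and `face 0 (bk (q+1) σ) = bk q σ`: the two missing terms
`(-1)^(p+1) α(fr p σ) β(bk q σ)` and `(-1)^p α(fr p σ) β(bk q σ)` cancel. (Convert the sums over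
`Fin` to sums over `Finset.range` with a `dite`, or use `Fin.sum_univ_add` after a cast.) -/
def SpecLEI : Prop :=
  ∀ (X : Type) [PartialOrder X] (p q n : ℕ) (h : p + q = n) (α : Ch X p → ℝ) (β : Ch X q → ℝ)
    (σ : Ch X (n + 1)),
    cob (fun ρ : Ch X n => α (fr p (by omega) ρ) * β (bk q (by omega) ρ)) σ =
      cob α (fr (p + 1) (by omega) σ) * β (bk q (by omega) σ) +
        (-1) ^ p * α (fr p (by omega) σ) * cob β (bk (q + 1) (by omega) σ)

/-- **DDZ** (size 60, no deps): `δ δ = 0`.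

PROOF. The usual one: `∑_(i, j) (-1)^(i+j) f(face j (face i σ))`, the pairs `j < i` and `j ≥ i` cancel by
`face j (face i σ) = face (i - 1) (face j σ)` for `j < i` (`Fin.succAbove` identities, e.g.
`Fin.succAbove_succAbove_succAbove_predAbove`, or compare with the proof of
`AlgebraicTopology.AlternatingFaceMapComplex.d_squared`). -/
def SpecDDZ : Prop :=
  ∀ (X : Type) [PartialOrder X] (n : ℕ) (f : Ch X n → ℝ) (σ : Ch X (n + 2)), cob (cob f) σ = 0

/-- **STK** (size 80, deps CNT, SUM): Stokes.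

PROOF. `F(i, σ) = (-1)^i c(σ) f(face i σ)` on `Fin (n+2) × Ch X (n+1)`: `|F| ≤ C |f(face i σ)|`, so `F` is
summable (CNT, SUM for `g = face`). `∑' F` is the sum over `σ` of `c σ * cob f σ`
(`Summable.tsum_prod'`/`tsum_comm`, `tsum_fintype`), and over the fibres of `face` it is the sum of
`bdy c ρ * f ρ` (`HasSum.tsum_fiberwise`). -/
def SpecSTK : Prop :=
  ∀ (G X : Type) [Group G] [PartialOrder X] [MulAction G X] [OrdAct G X] [LocFin X], Geom G X →
    ∀ (n : ℕ) (c : Ch X (n + 1) → ℝ) (C : ℝ), (∀ σ, |c σ| ≤ C) → ∀ f : Ch X n → ℝ, Summable f →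
      (Summable fun σ => c σ * cob f σ) ∧ (Summable fun ρ => bdy c ρ * f ρ) ∧
        ∑' σ, c σ * cob f σ = ∑' ρ, bdy c ρ * f ρ

/-- **FRM** (size 120, deps CNT, SUM): the cup product form is given by a bounded operator.

PROOF. `|z a(fr) b(bk)| ≤ C (a(fr)² + b(bk)²) / 2`; `a²` is summable (`lp.summable_inner` or
`memℓp_gen_iff`), and CNT, SUM with `g = fr`, `g = bk`. So `|form z a b| ≤ C D (‖a‖² + ‖b‖²) / 2`, and by
scaling (`form` is bilinear) `|form z a b| ≤ C D ‖a‖ ‖b‖`. `LinearMap.mkContinuous₂`, and Riesz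
(`InnerProductSpace.toDual`). -/
def SpecFRM : Prop :=
  ∀ (G X : Type) [Group G] [PartialOrder X] [MulAction G X] [OrdAct G X] [LocFin X], Geom G X →
    ∀ (m : ℕ) (z : Ch X (2 * m + 2) → ℝ) (C : ℝ), (∀ ρ, |z ρ| ≤ C) →
      ∃ T : l2 (Ch X (m + 1)) →L[ℝ] l2 (Ch X (m + 1)), ∀ a b : l2 (Ch X (m + 1)),
        (Summable fun ρ => z ρ * (a (fr (m + 1) (by omega) ρ) * b (bk (m + 1) (by omega) ρ))) ∧
          inner ℝ (T a) b = form z a b

/-- **ISO** (size 80, deps LEI, STK, FRM): cocycles on `M`.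

PROOF. `f(ρ) = a(fr ρ) b(bk ρ)` is summable (FRM for `z = 1`), `cob f = 0` (LEI, `p = q = m + 1`). For every
`j`: `∑' bdy (c j) ρ * f ρ = ∑' c j σ * cob f σ = 0` (STK). If `ρ` is in `Z` then so is `fr ρ` and
`f ρ = 0`; otherwise `bdy (c j) ρ` is `z ρ` if `comp (ρ 0) = j` and `0` if not. So the sum of
`z ρ * f ρ` over each fibre of `ρ ↦ comp (ρ 0)` is `0`, and so is the whole sum
(`HasSum.tsum_fiberwise`). -/
def SpecISO : Prop :=
  ∀ (G X : Type) [Group G] [PartialOrder X] [MulAction G X] [OrdAct G X] [LocFin X], Geom G X →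
    ∀ (m : ℕ) (P : Tidy G X m) (a b : l2 (Ch X (m + 1))), (∀ σ, InS P.Z σ → a σ = 0) →
      (∀ σ, cob a σ = 0) → (∀ σ, cob b σ = 0) → form P.z a b = 0

/-- **DCB** (size 80, deps DDZ): the coboundary of the basis vector `τ`, on the pair `(Y, Y ∩ Z)`.

PROOF. `d σ = cob (ind τ) σ` if `Rel Y Z σ`, and `0` otherwise. Its support is finite
(`fiber_finite τ`), so it is in `l2`. `d` is a cocycle: let `σ` be in `Y`; for a face `face i σ` in `Z`
both `d` and `cob (ind τ)` vanish (the faces of `face i σ` are in `Z`, and `τ` is not), so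
`cob d σ = cob (cob (ind τ)) σ = 0`. `⟪a, d⟫ = ∑' a σ * cob (ind τ) σ`, which is the sum of
`(-1)^i a(σ)` over the `(i, σ)` with `face i σ = τ`. -/
def SpecDCB : Prop :=
  ∀ (X : Type) [PartialOrder X] [LocFin X] (m : ℕ) (Y Z : Set X) (τ : Ch X m), Rel Y Z τ →
    ∃ d : l2 (Ch X (m + 1)), d ∈ Cocy m Y Z ∧ (∀ σ, Rel Y Z σ → d σ = cob (ind τ) σ) ∧
      ∀ a : l2 (Ch X (m + 1)), (∀ σ, ¬ Rel Y Z σ → a σ = 0) → inner ℝ a d = bdy a τ

/-- **VAN** (size 110, deps CNT, LEI, STK, FRM): coboundaries are in the kernel of the form.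

PROOF. `z` is supported in `Y`. For `ρ` in `Y`, `d (fr ρ) = cob (ind τ) (fr ρ)` (if `fr ρ` is in `Z` both are
`0`, because `τ` is not in `Z`), the same for `bk`. First form: `f(π) = ind τ (fr m π) * b (bk (m+1) π)` on
`Ch X (2 m + 1)`; it has finite support (CNT). LEI (`p = m`, `q = m + 1`): for `ρ` in `Y`,
`cob f ρ = cob (ind τ) (fr (m+1) ρ) * b (bk (m+1) ρ)`, because `cob b = 0` on simplices in `Y`. So
`form z d b = ∑' z ρ * cob f ρ = ∑' bdy z π * f π` (STK), and each term is `0`: if `π` is not in `Z` then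
`bdy z π = 0`, if `π` is in `Z` then `fr m π` is in `Z`, so it is not `τ`. Second form: the same with
`f(π) = b (fr (m+1) π) * ind τ (bk m π)`. -/
def SpecVAN : Prop :=
  ∀ (G X : Type) [Group G] [PartialOrder X] [MulAction G X] [OrdAct G X] [LocFin X], Geom G X →
    ∀ (m : ℕ) (P : Tidy G X m) (τ : Ch X m), Rel P.Y P.Z τ → ∀ d ∈ Cocy m P.Y P.Z,
      (∀ σ, Rel P.Y P.Z σ → d σ = cob (ind τ) σ) → ∀ b ∈ Cocy m P.Y P.Z,
        form P.z d b = 0 ∧ form P.z b d = 0

/-- **CLS** (size 50, no deps): the spaces are closed.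

PROOF. `a ↦ a σ` is continuous on `l2`, so `a ↦ cob a σ` and `a ↦ bdy a τ` (finite sums, `fiber_finite`)
are continuous. -/
def SpecCLS : Prop :=
  ∀ (X : Type) [PartialOrder X] [LocFin X] (m : ℕ) (Y Z : Set X),
    IsClosed (Cocy m Y Z : Set (l2 (Ch X (m + 1)))) ∧
      IsClosed (Harm m Y Z : Set (l2 (Ch X (m + 1))))

/-- **HDG** (size 100, deps FRM, DCB, VAN, CLS): the form on cocycles only depends on the harmonic
parts.

PROOF. Let `D` be the closure of the span of the `d` of DCB, `τ` with `Rel Y Z τ`; `D ≤ Cocy` (CLS). For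
a cocycle `a`, `a = u + r`, `u ∈ D`, `r ⊥ D`; `r` is a cocycle and `bdy r τ = ⟪r, d⟫ = 0`, so `r ∈ Harm`; and
`Harm ⊥ D` (DCB). So `pr Harm a = r` (`Harm` is closed). The form is continuous in each argument
(FRM), so `form z u b = 0 = form z b u` for all cocycles `b` (VAN), and
`form z a b = form z r b = form z r r'`. -/
def SpecHDG : Prop :=
  ∀ (G X : Type) [Group G] [PartialOrder X] [MulAction G X] [OrdAct G X] [LocFin X], Geom G X →
    ∀ (m : ℕ) (P : Tidy G X m), ∀ a ∈ Cocy m P.Y P.Z, ∀ b ∈ Cocy m P.Y P.Z,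
      form P.z (pr (Harm m P.Y P.Z) a) (pr (Harm m P.Y P.Z) b) = form P.z a b

/-- **RES** (size 50, deps CLS): restriction of cocycles from `M` to `F`.

PROOF. `r σ = h σ` if `σ` is in `Y` and `0` otherwise; the faces of a simplex in `Y` are in `Y`. `h - r`
vanishes on the simplices in `Y`, so it is orthogonal to `Harm m Y Z`, which is closed. -/
def SpecRES : Prop :=
  ∀ (X : Type) [PartialOrder X] [LocFin X] (m : ℕ) (Y Z : Set X), ∀ h ∈ Cocy m Set.univ Z,
    ∃ r ∈ Cocy m Y Z, (∀ σ, InS Y σ → r σ = h σ) ∧ pr (Harm m Y Z) h = pr (Harm m Y Z) r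

/-- **TRN** (size 60, no deps): signed translations.

PROOF. `(U a)(t) = ε(g⁻¹ t) a(g⁻¹ t)`; the norm is preserved (`Equiv.tsum_eq` for `MulAction.toPerm`,
`ε² = 1`). -/
def SpecTRN : Prop :=
  ∀ (G S : Type) [Group G] [MulAction G S] (g : G) (ε : S → ℝ), (∀ s, ε s = 1 ∨ ε s = -1) →
    ∃ U : l2 S ≃ₗᵢ[ℝ] l2 S, ∀ (a : l2 S) (s : S), U a (g • s) = ε s * a s

/-- **TRC** (size 150, no deps): the trace property `tr(X* X) = tr(X X*)`.

PROOF. All sums of nonnegative terms in `ℝ≥0∞`. (1) For `f : S → ℝ≥0∞`: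
`∑' t, f t = ∑' q, (∑' g : G, f (g • q.out)) / |G_q|` (sum over the orbits, `ENNReal.tsum_fiberwise` for the
quotient map; the fibres of `g ↦ g • x` onto the orbit of `x` are the cosets of the stabilizer).
(2) `m(s, t) = ⟪X e_s, e_t⟫²` satisfies `m(g s, g t) = m(s, t)`; `‖X e_s‖² = ∑' t, m(s, t)`,
`‖X* e_t‖² = ∑' s, m(s, t)` (`(X e_s) t = ⟪X e_s, e_t⟫`). (3) Left side
`= ∑ q, ∑ q', ∑' g, m(q, g q') / (|G_q| |G_q'|) = ∑ q, ∑ q', ∑' g, m(g⁻¹ q, q') / (|G_q| |G_q'|)` = right side.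
Both sides of the statement are finite sums over the finite set of orbits. -/
def SpecTRC : Prop :=
  ∀ (G S : Type) [Group G] [MulAction G S] [Finite (MulAction.orbitRel.Quotient G S)],
    (∀ s : S, Finite (MulAction.stabilizer G s)) → ∀ ε : G → S → ℝ,
      (∀ g s, ε g s = 1 ∨ ε g s = -1) → ∀ X : l2 S →L[ℝ] l2 S,
        (∀ (g : G) (s t : S), inner ℝ (X (e (g • s))) (e (g • t)) = ε g t * inner ℝ (X (e s)) (e t)) →
          tr2 G X = tr2 G (ContinuousLinearMap.adjoint X)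

/-- **DIM** (size 180, deps TRN, TRC): an injective equivariant map does not lower the dimension.

PROOF. `P` = projection onto `W`, `Z = κ T P`, `κ > 0` with `‖Z‖ ≤ 1`; `A = Z* Z`, `B = Z Z*`, `0 ≤ A, B ≤ 1`.
For operators `Y` put `τ(Y) = ∑ q, ⟪Y e_q, e_q⟫ / |G_q|` (finite sum). (1) Let `U_g`, `U'_g` be the
translations with signs `1`, `ε g` (TRN). `P U_g = U_g P` (`Inv`, for `g` and `g⁻¹`), `T U_g = U'_g T`; so `Z`
and `Y_i = (1 - B)^i Z` satisfy `Y U_g = U'_g Y`, that is, the hypothesis of TRC; by TRC for `Y_i ± Z` and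
polarization `τ(Z* Y_i) = τ(Y_i Z*)`. (2) `1 - (1 - A)^j = ∑_(i < j) Z* Y_i`,
`1 - (1 - B)^j = ∑_(i < j) Y_i Z*`. So `τ(1 - (1 - A)^j) = τ(1 - (1 - B)^j)`; take the averages over `j < n`.
(3) Mean ergodic theorem (`ContinuousLinearMap.tendsto_birkhoffAverage_orthogonalProjection`) for
`1 - A`: the averages of `(1 - A)^j x` tend to the projection of `x` onto
`{A x = 0} = {Z x = 0} = {P x = 0}` (`T` is injective on `W`), so `τ(average of 1 - (1 - A)^j)` tends to
`∑ q, ‖P e_q‖² / |G_q| = gdim W`. (4) `⟪(1 - (1 - B)^j) x, x⟫ ≤ ‖Q x‖²`, `Q` the projection onto `V`: the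
operator is `Q Y Q` with `0 ≤ Y ≤ 1`, because the range of `Z` is in `V`. -/
def SpecDIM : Prop :=
  ∀ (G S : Type) [Group G] [MulAction G S] [Finite (MulAction.orbitRel.Quotient G S)],
    (∀ s : S, Finite (MulAction.stabilizer G s)) → ∀ ε : G → S → ℝ,
      (∀ g s, ε g s = 1 ∨ ε g s = -1) → ∀ W V : Submodule ℝ (l2 S), IsClosed (W : Set (l2 S)) →
        IsClosed (V : Set (l2 S)) → Inv G W → ∀ T : l2 S →L[ℝ] l2 S,
          (∀ (g : G) (a b : l2 S), (∀ s, b (g • s) = a s) → ∀ s, T b (g • s) = ε g s * T a s) →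
            (∀ w ∈ W, T w ∈ V) → (∀ w ∈ W, T w = 0 → w = 0) → gdim G W ≤ gdim G V

/-- **DAD** (size 50, no deps): additivity of the dimension.

PROOF. `pr B = pr A + pr (B ⊓ Aᗮ)` for closed `A ≤ B`, and the two images are orthogonal, so
`‖pr B x‖² = ‖pr A x‖² + ‖pr (B ⊓ Aᗮ) x‖²`; `finsum` over a finite type. -/
def SpecDAD : Prop :=
  ∀ (G S : Type) [Group G] [MulAction G S] [Finite (MulAction.orbitRel.Quotient G S)]
    (A B : Submodule ℝ (l2 S)), IsClosed (A : Set (l2 S)) → IsClosed (B : Set (l2 S)) → A ≤ B →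
      gdim G B = gdim G A + gdim G (B ⊓ Aᗮ) ∧ 0 ≤ gdim G (B ⊓ Aᗮ) ∧ 0 ≤ gdim G A

/-- **FIN** (size 50, no deps): finitely many orbits of simplices, finite stabilizers.

PROOF. A chain `σ` can be moved so that `σ 0` is in the finite set `S`; the other vertices are
comparable with `σ 0`, so there are finitely many `σ` with `σ 0 ∈ S`. The stabilizer of `σ` is contained
in that of `σ 0`. -/
def SpecFIN : Prop :=
  ∀ (G X : Type) [Group G] [PartialOrder X] [MulAction G X] [OrdAct G X] [LocFin X], Geom G X →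
    ∀ n : ℕ, Finite (MulAction.orbitRel.Quotient G (Ch X n)) ∧
      ∀ σ : Ch X n, Finite (MulAction.stabilizer G σ)

/-- **HIN** (size 90, no deps): the harmonic spaces are invariant.

PROOF. (1) `face i (g • σ) = g • face i σ`, `Rel` and `InS` are invariant, so `cob b (g • σ) = cob a σ`,
`bdy b (g • τ) = bdy a τ` (bijection of the fibres). (2) All vertices of a simplex in `Y` have the same
`comp`; so for `σ` in `Y` all faces `face i σ` have the same first `comp`, and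
`cob b σ = η(comp (σ 0)) cob a σ`; for `τ` with `Rel Y Z τ` and `face i σ = τ`, either `σ` is in `Y` and has
the same `comp` as `τ`, or `a σ = 0`. -/
def SpecHIN : Prop :=
  ∀ (G X : Type) [Group G] [PartialOrder X] [MulAction G X] [OrdAct G X] [LocFin X] (m : ℕ)
    (Y Z : Set X), (∀ (g : G) (x : X), x ∈ Y → g • x ∈ Y) → (∀ (g : G) (x : X), x ∈ Z → g • x ∈ Z) →
      Inv G (Harm m Y Z) ∧
      ∀ (J : Type) (comp : X → J), (∀ x ∈ Y, ∀ y ∈ Y, x < y → comp x = comp y) → ∀ η : J → ℝ,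
        (∀ j, η j = 1 ∨ η j = -1) → ∀ a ∈ Harm m Y Z, ∀ b : l2 (Ch X (m + 1)),
          (∀ s, b s = η (comp (s.1 0)) * a s) → b ∈ Harm m Y Z

/-- **TWI** (size 70, no deps): equivariance of the operator of the form, up to the signs.

PROOF. `T a' (g s) = ⟪T a', e_(g s)⟫ = form z a' e_(g s)`, the sum over `ρ` of
`z ρ * a' (fr ρ) * e_(g s) (bk ρ)`; replace `ρ` by `g • ρ` (`Equiv.tsum_eq`): `z (g ρ) = sg g (comp (ρ 0)) z ρ`,
`a' (g • fr ρ) = a (fr ρ)`, `e_(g s) (g • bk ρ) = e_s (bk ρ)`. If `z ρ ≠ 0` and `bk ρ = s` then `ρ` is in `Y` and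
`ρ 0 < s 0`, so `comp (ρ 0) = comp (s 0)`. -/
def SpecTWI : Prop :=
  ∀ (G X : Type) [Group G] [PartialOrder X] [MulAction G X] [OrdAct G X] (m : ℕ) (P : Tidy G X m)
    (T : l2 (Ch X (m + 1)) →L[ℝ] l2 (Ch X (m + 1))), (∀ a b, inner ℝ (T a) b = form P.z a b) →
      ∀ (g : G) (a b : l2 (Ch X (m + 1))), (∀ s, b (g • s) = a s) →
        ∀ s, T b (g • s) = P.sg g (P.comp (s.1 0)) * T a s

/-- **PEQ** (size 60, deps TRN): projections commute with signed translations, and invariance of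
images and complements.

PROOF. If the surjective isometry `U` satisfies `a ∈ W ↔ U a ∈ W` then `pr W (U a) = U (pr W a)`.
(1) `U` = the signed translation of TRN. (2), (3): `U` = the translation by `g`; `Inv G W` for `g` and
`g⁻¹`. (4) closure of the image. -/
def SpecPEQ : Prop :=
  ∀ (G S : Type) [Group G] [MulAction G S],
    (∀ (g : G) (ε : S → ℝ), (∀ s, ε s = 1 ∨ ε s = -1) → ∀ W : Submodule ℝ (l2 S),
      IsClosed (W : Set (l2 S)) →
      (∀ a b : l2 S, (∀ s, b (g • s) = ε s * a s) → (a ∈ W ↔ b ∈ W)) →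
        ∀ a b : l2 S, (∀ s, b (g • s) = ε s * a s) → ∀ s, pr W b (g • s) = ε s * pr W a s) ∧
    (∀ W : Submodule ℝ (l2 S), Inv G W → Inv G Wᗮ) ∧
    (∀ W V : Submodule ℝ (l2 S), Inv G W → Inv G V → Inv G (W ⊓ V)) ∧
    ∀ W V : Submodule ℝ (l2 S), IsClosed (V : Set (l2 S)) → Inv G W → Inv G V →
      Inv G (W.map (pr V : l2 S →ₗ[ℝ] l2 S)).topologicalClosure

end Pool.Agent.Lib.MPe14b75
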